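import Pool.Agent.TO.Stmt

/-!
# The definitions of the statement: the Carleson bound
-/

set_option autoImplicit false

namespace Pool.Agent.TC

open MeasureTheory Set Pool.Agent.TO
open scoped ENNReal

/-- `∫_{B(z, r)} |f|² dx` -/
noncomputable def ballEn (r : ℝ) (f : V3) (z : E3) : ℝ≥0∞ :=
  ∫⁻ x in Metric.closedBall z r, ‖fld f x‖ₑ ^ 2

/-- `∫₀ᵗ ∫_{B(z, r)} |g|² dx ds ≤ K² r³` for all balls of radius `r` -/
def CarlBdd (t r K : ℝ) (g : ℝ → V3) : Prop :=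
  ∀ z : E3, ∫⁻ s in Ioo 0 t, ballEn r (g s) z ≤ ENNReal.ofReal (K ^ 2 * r ^ 3)

end Pool.Agent.TC
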