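import Pool.Agent.TB.Poinc

/-!
# Averages of square integrable fields over small balls
-/

set_option autoImplicit false

namespace Pool.Agent.TC

open MeasureTheory Set Filter Topology Pool.Agent.TO Pool.Agent.TB
open scoped ENNReal NNReal Real InnerProductSpace SchwartzMap LineDeriv

/-- an even probability measure with a bounded density, carried by the ball of radius `r` -/
structure Ker (μ : Measure E3) (r : ℝ) : Prop where
  prob : IsProbabilityMeasure μ
  le : ∃ C : ℝ≥0∞, C < ∞ ∧ μ ≤ C • (volume : Measure E3)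
  neg : MeasurePreserving (fun y : E3 => -y) μ μ
  supp : ∀ᵐ y ∂μ, ‖y‖ ≤ r

theorem Ker.ac {μ : Measure E3} {r : ℝ} (h : Ker μ r) : μ ≪ (volume : Measure E3) := by
  obtain ⟨C, -, hC⟩ := h.le
  exact (Measure.absolutelyContinuous_of_le hC).trans Measure.smul_absolutelyContinuous

/-- the average -/
noncomputable def av (μ : Measure E3) {F : Type*} [NormedAddCommGroup F] [NormedSpace ℝ F]
    (f : E3 → F) (x : E3) : F := ∫ y, f (x - y) ∂μ

section

variable {F : Type*} [NormedAddCommGroup F] [NormedSpace ℝ F] {μ : Measure E3} {r : ℝ}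

theorem enorm_av_le (f : E3 → F) (x : E3) :
    ‖av μ f x‖ₑ ≤ ∫⁻ y, ‖f (x - y)‖ₑ ∂μ :=
  enorm_integral_le_lintegral_enorm _

theorem sq_av_le (h : Ker μ r) {f : E3 → F} (hf : StronglyMeasurable f) (x : E3) :
    ‖av μ f x‖ₑ ^ 2 ≤ ∫⁻ y, ‖f (x - y)‖ₑ ^ 2 ∂μ := by
  have := h.prob
  refine le_trans (pow_le_pow_left₀ zero_le (enorm_av_le f x) 2) ?_
  apply sq_lintegral_le
  exact ((hf.comp_measurable (measurable_const.sub measurable_id)).enorm).aemeasurable

theorem stronglyMeasurable_av (h : Ker μ r) {f : E3 → F} (hf : StronglyMeasurable f) :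
    StronglyMeasurable (av μ f) := by
  have := h.prob
  have h2 : StronglyMeasurable (Function.uncurry fun x y : E3 => f (x - y)) :=
    hf.comp_measurable (measurable_fst.sub measurable_snd)
  exact h2.integral_prod_right

/-- translation invariance and Tonelli -/
theorem lintegral_av (h : Ker μ r) {g : E3 → ℝ≥0∞} (hg : Measurable g) :
    ∫⁻ x, ∫⁻ y, g (x - y) ∂μ = ∫⁻ x, g x := by
  have := h.prob
  rw [lintegral_lintegral_swap]
  · have : ∀ y : E3, ∫⁻ x, g (x - y) = ∫⁻ x, g x := fun y => lintegral_sub_right_eq_self g y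
    simp only [this, lintegral_const, measure_univ, mul_one]
  · exact (hg.comp (measurable_fst.sub measurable_snd)).aemeasurable

theorem lintegral_sq_av_le (h : Ker μ r) {f : E3 → F} (hf : StronglyMeasurable f) :
    ∫⁻ x, ‖av μ f x‖ₑ ^ 2 ≤ ∫⁻ x, ‖f x‖ₑ ^ 2 := by
  rw [← lintegral_av h (g := fun x => ‖f x‖ₑ ^ 2) (hf.enorm.pow_const 2)]
  exact lintegral_mono fun x => sq_av_le h hf x

omit [NormedSpace ℝ F] in
theorem sq_ker_le {C : ℝ≥0∞} (h : μ ≤ C • (volume : Measure E3)) (f : E3 → F)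
    (x : E3) : ∫⁻ y, ‖f (x - y)‖ₑ ^ 2 ∂μ ≤ C * ∫⁻ y, ‖f y‖ₑ ^ 2 := by
  calc ∫⁻ y, ‖f (x - y)‖ₑ ^ 2 ∂μ ≤ ∫⁻ y, ‖f (x - y)‖ₑ ^ 2 ∂(C • (volume : Measure E3)) :=
        lintegral_mono' h le_rfl
    _ = C * ∫⁻ y, ‖f (x - y)‖ₑ ^ 2 := by rw [lintegral_smul_measure, smul_eq_mul]
    _ = C * ∫⁻ y, ‖f y‖ₑ ^ 2 := by
        rw [lintegral_sub_left_eq_self (fun y => ‖f y‖ₑ ^ 2) x]

/-- pointwise integrability -/
theorem integrable_ker (h : Ker μ r) {f : E3 → F} (hf : StronglyMeasurable f)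
    (h2 : ∫⁻ y, ‖f y‖ₑ ^ 2 < ∞) (x : E3) : Integrable (fun y => f (x - y)) μ := by
  have := h.prob
  obtain ⟨C, hC, hle⟩ := h.le
  refine ⟨(hf.comp_measurable (measurable_const.sub measurable_id)).aestronglyMeasurable, ?_⟩
  rw [hasFiniteIntegral_iff_enorm]
  have h3 : (∫⁻ y, ‖f (x - y)‖ₑ ∂μ) ^ 2 < ∞ := by
    refine (sq_lintegral_le ?_).trans_lt ?_
    · exact ((hf.comp_measurable (measurable_const.sub measurable_id)).enorm).aemeasurable
    · exact (sq_ker_le hle f x).trans_lt (ENNReal.mul_lt_top hC h2)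
  by_contra hcon
  push Not at hcon
  rw [top_le_iff.1 hcon] at h3
  simp at h3

theorem ae_ker (h : Ker μ r) {p : E3 → Prop} (hp : ∀ᵐ y ∂(volume : Measure E3), p y) (x : E3) :
    ∀ᵐ y ∂μ, p (x - y) := by
  have h1 : ∀ᵐ y ∂(volume : Measure E3), p (x - y) :=
    (Measure.measurePreserving_sub_left (volume : Measure E3) x).quasiMeasurePreserving.ae hp
  exact h.ac.ae_le h1

theorem av_congr (h : Ker μ r) {f g : E3 → F} (hfg : f =ᵐ[volume] g) (x : E3) :
    av μ f x = av μ g x :=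
  integral_congr_ae (ae_ker h hfg x)

end

variable {μ : Measure E3} {r : ℝ}

/-- the average of a square integrable field -/
theorem memLp_av (h : Ker μ r) (f : V3) : MemLp (av μ f) 2 (volume : Measure E3) := by
  refine ⟨(stronglyMeasurable_av h (Lp.stronglyMeasurable f)).aestronglyMeasurable, ?_⟩
  rw [eLpNorm_eq_lintegral_rpow_enorm_toReal (by norm_num) (by norm_num)]
  apply ENNReal.rpow_lt_top_of_nonneg (by simp)
  simp only [ENNReal.toReal_ofNat, ENNReal.rpow_ofNat]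
  exact ((lintegral_sq_av_le h (Lp.stronglyMeasurable f)).trans_lt (lintegral_sq_lt f)).ne

/-- the average as a continuous linear map -/
noncomputable def avL (h : Ker μ r) : V3 →L[ℝ] V3 :=
  LinearMap.mkContinuous
    { toFun := fun f => (memLp_av h f).toLp
      map_add' := by
        intro f g
        apply Lp.ext
        filter_upwards [(memLp_av h (f + g)).coeFn_toLp, (memLp_av h f).coeFn_toLp,
          (memLp_av h g).coeFn_toLp,
          Lp.coeFn_add ((memLp_av h f).toLp) ((memLp_av h g).toLp)] with x h1 h2 h3 h4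
        rw [h1, h4, Pi.add_apply, h2, h3]
        have e1 : av μ (f + g : V3) x = av μ (fun y => f y + g y) x :=
          av_congr h (Lp.coeFn_add f g) x
        rw [e1]
        exact integral_add (integrable_ker h (Lp.stronglyMeasurable f) (lintegral_sq_lt f) x)
          (integrable_ker h (Lp.stronglyMeasurable g) (lintegral_sq_lt g) x)
      map_smul' := by
        intro c f
        apply Lp.ext
        filter_upwards [(memLp_av h (c • f)).coeFn_toLp, (memLp_av h f).coeFn_toLp,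
          Lp.coeFn_smul c ((memLp_av h f).toLp)] with x h1 h2 h4
        rw [h1, RingHom.id_apply, h4, Pi.smul_apply, h2]
        have e1 : av μ (c • f : V3) x = av μ (fun y => c • f y) x :=
          av_congr h (Lp.coeFn_smul c f) x
        rw [e1]
        exact integral_smul _ _ } 1 (by
    intro f
    rw [one_mul]
    apply enorm_le_of_sq
    have : ∫⁻ x, ‖((memLp_av h f).toLp : E3 → E3) x‖ₑ ^ 2 = ∫⁻ x, ‖av μ f x‖ₑ ^ 2 := by
      apply lintegral_congr_ae
      filter_upwards [(memLp_av h f).coeFn_toLp] with x hx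
      rw [hx]
    change ∫⁻ x, ‖((memLp_av h f).toLp : E3 → E3) x‖ₑ ^ 2 ≤ _
    rw [this]
    exact lintegral_sq_av_le h (Lp.stronglyMeasurable f))

theorem coe_avL (h : Ker μ r) (f : V3) : (avL h f : E3 → E3) =ᵐ[volume] av μ f :=
  (memLp_av h f).coeFn_toLp

theorem norm_avL_le (h : Ker μ r) (f : V3) : ‖avL h f‖ ≤ ‖f‖ := by
  have h1 := (avL h).le_opNorm f
  have h2 : ‖avL h‖ ≤ 1 := LinearMap.mkContinuous_norm_le _ zero_le_one _
  calc ‖avL h f‖ ≤ ‖avL h‖ * ‖f‖ := h1
    _ ≤ 1 * ‖f‖ := by gcongr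
    _ = ‖f‖ := one_mul _

/-- averages of bounded fields are bounded -/
theorem bd_avL (h : Ker μ r) {f : V3} {A : ℝ} (hf : Bd f A) : Bd (avL h f) A := by
  have := h.prob
  unfold Bd
  filter_upwards [coe_avL h f] with x hx
  rw [hx]
  have h1 := norm_integral_le_of_norm_le_const (ae_ker h hf x)
  simpa [av] using h1

theorem integral_inner_av (h : Ker μ r) (φ : 𝓢(E3, E3)) (f : V3) :
    ∫ x, ⟪φ x, avL h f x⟫_ℝ = ∫ y, (∫ x, ⟪φ x, f (x - y)⟫_ℝ) ∂μ := by
  have i1 := h.prob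
  have e1 : ∫ x, ⟪φ x, avL h f x⟫_ℝ = ∫ x, ∫ y, ⟪φ x, f (x - y)⟫_ℝ ∂μ := by
    apply integral_congr_ae
    filter_upwards [coe_avL h f] with x hx
    rw [hx]
    exact (integral_inner (integrable_ker h (Lp.stronglyMeasurable f) (lintegral_sq_lt f) x)
      (φ x)).symm
  rw [e1]
  apply integral_integral_swap
  have hm : StronglyMeasurable (Function.uncurry fun x y : E3 => ⟪φ x, f (x - y)⟫_ℝ) := by
    have m1 : StronglyMeasurable (fun p : E3 × E3 => φ p.1) :=
      φ.continuous.stronglyMeasurable.comp_measurable measurable_fst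
    have m2 : StronglyMeasurable (fun p : E3 × E3 => f (p.1 - p.2)) :=
      (Lp.stronglyMeasurable f).comp_measurable (measurable_fst.sub measurable_snd)
    exact m1.inner m2
  refine ⟨hm.aestronglyMeasurable, ?_⟩
  rw [hasFiniteIntegral_iff_enorm, lintegral_prod _ hm.enorm.aemeasurable]
  have hb : ∀ a b : E3, ‖⟪a, b⟫_ℝ‖ₑ ≤ ‖a‖ₑ ^ 2 + ‖b‖ₑ ^ 2 := by
    intro a b
    have h1 : ‖⟪a, b⟫_ℝ‖ ≤ ‖a‖ ^ 2 + ‖b‖ ^ 2 := by
      refine (norm_inner_le_norm a b).trans ?_
      nlinarith [sq_nonneg (‖a‖ - ‖b‖), norm_nonneg a, norm_nonneg b]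
    rw [← ofReal_norm, ← ofReal_norm, ← ofReal_norm, ← ENNReal.ofReal_pow (norm_nonneg _),
      ← ENNReal.ofReal_pow (norm_nonneg _), ← ENNReal.ofReal_add (by positivity) (by positivity)]
    exact ENNReal.ofReal_le_ofReal h1
  calc ∫⁻ x, ∫⁻ y, ‖Function.uncurry (fun x y : E3 => ⟪φ x, f (x - y)⟫_ℝ) (x, y)‖ₑ ∂μ
      ≤ ∫⁻ x, ∫⁻ y, (‖φ x‖ₑ ^ 2 + ‖f (x - y)‖ₑ ^ 2) ∂μ :=
        lintegral_mono fun x => lintegral_mono fun y => hb _ _
    _ = ∫⁻ x, (‖φ x‖ₑ ^ 2 + ∫⁻ y, ‖f (x - y)‖ₑ ^ 2 ∂μ) := by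
        apply lintegral_congr
        intro x
        rw [lintegral_add_left measurable_const, lintegral_const, measure_univ, mul_one]
    _ = (∫⁻ x, ‖φ x‖ₑ ^ 2) + ∫⁻ x, ∫⁻ y, ‖f (x - y)‖ₑ ^ 2 ∂μ :=
        lintegral_add_left (φ.continuous.measurable.enorm.pow_const 2) _
    _ < ∞ := by
        rw [lintegral_av h (g := fun x => ‖f x‖ₑ ^ 2)
          ((Lp.stronglyMeasurable f).enorm.pow_const 2)]
        refine ENNReal.add_lt_top.2 ⟨?_, lintegral_sq_lt f⟩
        have h2 := lintegral_sq_lt (φ.toLp 2 (volume : Measure E3))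
        refine lt_of_eq_of_lt ?_ h2
        apply lintegral_congr_ae
        filter_upwards [φ.coeFn_toLp 2 (volume : Measure E3)] with x hx
        rw [hx]

/-- averages commute with weak derivatives -/
theorem weak_avL (h : Ker μ r) {k : Fin 3} {f g : V3} (hfg : IsWeakDeriv k f g) :
    IsWeakDeriv k (avL h f) (avL h g) := by
  intro φ
  rw [integral_inner_av h, integral_inner_av h]
  simp only [weak_translate hfg]
  rw [integral_neg]

/-- Schwartz fields are dense -/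
theorem dense_toLp : Dense (Set.range fun ψ : 𝓢(E3, E3) => ψ.toLp 2 (volume : Measure E3)) :=
  SchwartzMap.denseRange_toLpCLM (E := E3) (F := E3) (p := 2) (μ := volume) (by norm_num)

theorem exists_seq_toLp (f : V3) : ∃ ψ : ℕ → 𝓢(E3, E3),
    Tendsto (fun n => (ψ n).toLp 2 (volume : Measure E3)) atTop (𝓝 f) := by
  obtain ⟨x, hx, hlim⟩ := mem_closure_iff_seq_limit.1 (dense_toLp.closure_eq ▸ mem_univ f)
  choose ψ hψ using hx
  refine ⟨ψ, ?_⟩
  have : (fun n => (ψ n).toLp 2 (volume : Measure E3)) = x := funext hψ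
  rwa [this]

/-- symmetry on Schwartz fields -/
theorem symm_schwartz (h : Ker μ r) (φ ψ : 𝓢(E3, E3)) :
    ⟪φ.toLp 2 (volume : Measure E3), avL h (ψ.toLp 2 (volume : Measure E3))⟫_ℝ =
      ⟪avL h (φ.toLp 2 (volume : Measure E3)), ψ.toLp 2 (volume : Measure E3)⟫_ℝ := by
  rw [real_inner_comm, ← real_inner_comm (avL h (φ.toLp 2 (volume : Measure E3))),
    real_inner_comm, ← integral_inner_eq, ← integral_inner_eq, integral_inner_av,
    integral_inner_av]
  have e1 : ∀ y : E3, ∫ x, ⟪φ x, ((ψ.toLp 2 (volume : Measure E3) : V3) : E3 → E3) (x - y)⟫_ℝ =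
      ∫ x, ⟪ψ x, ((φ.toLp 2 (volume : Measure E3) : V3) : E3 → E3) (x - (-y))⟫_ℝ := by
    intro y
    have g1 : ∀ᵐ x ∂(volume : Measure E3),
        ((ψ.toLp 2 (volume : Measure E3) : V3) : E3 → E3) (x - y) = ψ (x - y) :=
      (measurePreserving_sub_right (volume : Measure E3) y).quasiMeasurePreserving.ae
        (ψ.coeFn_toLp 2 (volume : Measure E3))
    have g2 : ∀ᵐ x ∂(volume : Measure E3),
        ((φ.toLp 2 (volume : Measure E3) : V3) : E3 → E3) (x - (-y)) = φ (x - (-y)) :=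
      (measurePreserving_sub_right (volume : Measure E3) (-y)).quasiMeasurePreserving.ae
        (φ.coeFn_toLp 2 (volume : Measure E3))
    have e2 : ∫ x, ⟪φ x, ((ψ.toLp 2 (volume : Measure E3) : V3) : E3 → E3) (x - y)⟫_ℝ =
        ∫ x, ⟪φ x, ψ (x - y)⟫_ℝ := by
      apply integral_congr_ae
      filter_upwards [g1] with x hx
      rw [hx]
    have e3 : ∫ x, ⟪ψ x, ((φ.toLp 2 (volume : Measure E3) : V3) : E3 → E3) (x - (-y))⟫_ℝ =
        ∫ x, ⟪ψ x, φ (x - (-y))⟫_ℝ := by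
      apply integral_congr_ae
      filter_upwards [g2] with x hx
      rw [hx]
    rw [e2, e3, ← integral_add_right_eq_self (fun x => ⟪φ x, ψ (x - y)⟫_ℝ) y]
    congr 1
    ext x
    rw [real_inner_comm, add_sub_cancel_right, sub_neg_eq_add]
  simp only [e1]
  exact (h.neg.integral_comp (MeasurableEquiv.neg E3).measurableEmbedding
    (fun y => ∫ x, ⟪ψ x, ((φ.toLp 2 (volume : Measure E3) : V3) : E3 → E3) (x - y)⟫_ℝ))

theorem symm_avL (h : Ker μ r) (f g : V3) : ⟪f, avL h g⟫_ℝ = ⟪avL h f, g⟫_ℝ := by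
  obtain ⟨φ, hφ⟩ := exists_seq_toLp f
  obtain ⟨ψ, hψ⟩ := exists_seq_toLp g
  have l1 := hφ.inner (𝕜 := ℝ) (((avL h).continuous.tendsto g).comp hψ)
  have l2 := (((avL h).continuous.tendsto f).comp hφ).inner (𝕜 := ℝ) hψ
  refine tendsto_nhds_unique l1 (l2.congr fun n => ?_)
  exact (symm_schwartz h (φ n) (ψ n)).symm

end Pool.Agent.TC
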