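import Pool.Agent.TC.Av

/-!
# Averages over small balls are close to the identity
-/

set_option autoImplicit false

namespace Pool.Agent.TC

open MeasureTheory Set Filter Topology Pool.Agent.TO Pool.Agent.TB
open scoped ENNReal NNReal Real InnerProductSpace SchwartzMap LineDeriv

variable {μ : Measure E3} {r : ℝ}

theorem second_moment (h : Ker μ r) : ∫⁻ y, ‖y‖ₑ ^ 2 ∂μ ≤ ENNReal.ofReal (r ^ 2) := by
  have := h.prob
  calc ∫⁻ y, ‖y‖ₑ ^ 2 ∂μ ≤ ∫⁻ _y, ENNReal.ofReal (r ^ 2) ∂μ := by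
        apply lintegral_mono_ae
        filter_upwards [h.supp] with y hy
        rw [← ofReal_norm, ← ENNReal.ofReal_pow (norm_nonneg _)]
        exact ENNReal.ofReal_le_ofReal (pow_le_pow_left₀ (norm_nonneg _) hy 2)
    _ = ENNReal.ofReal (r ^ 2) := by rw [lintegral_const, measure_univ, mul_one]

/-- the inequality for Schwartz fields -/
theorem poincare_schwartz (h : Ker μ r) (ψ : 𝓢(E3, E3)) :
    ∫⁻ x, ‖ψ x - av μ ψ x‖ₑ ^ 2 ≤ ENNReal.ofReal (r ^ 2) * ∫⁻ x, gsq ψ x := by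
  have i1 := h.prob
  have hψ2 : ∫⁻ y, ‖ψ y‖ₑ ^ 2 < ∞ := by
    have h2 := lintegral_sq_lt (ψ.toLp 2 (volume : Measure E3))
    refine lt_of_eq_of_lt ?_ h2
    apply lintegral_congr_ae
    filter_upwards [ψ.coeFn_toLp 2 (volume : Measure E3)] with x hx
    rw [hx]
  have h1 : ∀ x, ‖ψ x - av μ ψ x‖ₑ ^ 2 ≤ ∫⁻ y, ‖ψ x - ψ (x - y)‖ₑ ^ 2 ∂μ := by
    intro x
    have e1 : ψ x - av μ ψ x = ∫ y, (ψ x - ψ (x - y)) ∂μ := by
      rw [integral_sub (integrable_const _)
        (integrable_ker h ψ.continuous.stronglyMeasurable hψ2 x), integral_const]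
      simp [av]
    rw [e1]
    refine le_trans (pow_le_pow_left₀ zero_le (enorm_integral_le_lintegral_enorm _) 2) ?_
    apply sq_lintegral_le
    have : Continuous fun y => ψ x - ψ (x - y) := by
      have := ψ.continuous
      fun_prop
    exact this.enorm.measurable.aemeasurable
  have hm : Measurable (Function.uncurry fun (x y : E3) =>
      ‖y‖ₑ ^ 2 * ∫⁻ s in Ioc (0:ℝ) 1, gsq ψ (x - s • y)) := by
    apply Measurable.mul
    · exact (measurable_snd.enorm.pow_const 2)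
    · have : Measurable (Function.uncurry fun (p : E3 × E3) (s : ℝ) => gsq ψ (p.1 - s • p.2)) :=
        (meas_gsq ψ).comp (by fun_prop)
      exact this.lintegral_prod_right'
  set A : E3 → E3 → ℝ≥0∞ := fun x y => ‖y‖ₑ ^ 2 * ∫⁻ s in Ioc (0:ℝ) 1, gsq ψ (x - s • y) with hA
  calc ∫⁻ x, ‖ψ x - av μ ψ x‖ₑ ^ 2
      ≤ ∫⁻ x, ∫⁻ y, A x y ∂μ :=
        lintegral_mono fun x => (h1 x).trans (lintegral_mono fun y => sq_diff_le ψ x y)
    _ = ∫⁻ y, ∫⁻ x, A x y ∂volume ∂μ := lintegral_lintegral_swap hm.aemeasurable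
    _ = ∫⁻ y, (‖y‖ₑ ^ 2 * ∫⁻ x, gsq ψ x) ∂μ := by
        apply lintegral_congr
        intro y
        have m2 : Measurable fun x => ∫⁻ s in Ioc (0:ℝ) 1, gsq ψ (x - s • y) := by
          have : Measurable (Function.uncurry fun (x : E3) (s : ℝ) => gsq ψ (x - s • y)) :=
            (meas_gsq ψ).comp (by fun_prop)
          exact this.lintegral_prod_right'
        simp only [hA]
        rw [lintegral_const_mul _ m2]
        congr 1
        rw [lintegral_lintegral_swap]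
        · have e2 : ∀ s : ℝ, ∫⁻ x, gsq ψ (x - s • y) = ∫⁻ x, gsq ψ x := fun s =>
            lintegral_sub_right_eq_self (gsq ψ) (s • y)
          simp only [e2, lintegral_const, Measure.restrict_apply_univ, Real.volume_Ioc]
          simp
        · have : Measurable (Function.uncurry fun (x : E3) (s : ℝ) => gsq ψ (x - s • y)) :=
            (meas_gsq ψ).comp (by fun_prop)
          exact this.aemeasurable
    _ = (∫⁻ y, ‖y‖ₑ ^ 2 ∂μ) * ∫⁻ x, gsq ψ x :=
        lintegral_mul_const _ (measurable_enorm.pow_const 2)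
    _ ≤ ENNReal.ofReal (r ^ 2) * ∫⁻ x, gsq ψ x := by
        gcongr
        exact second_moment h

theorem lintegral_gsq (ψ : 𝓢(E3, E3)) : ∫⁻ x, gsq ψ x = ENNReal.ofReal
      (∑ k, ‖(∂_{ee k} ψ).toLp 2 (volume : Measure E3)‖ ^ 2) := by
  unfold gsq
  rw [lintegral_finsetSum, ENNReal.ofReal_sum_of_nonneg (fun k _ => by positivity)]
  · refine Finset.sum_congr rfl fun k _ => ?_
    rw [← enorm_sq_ofReal, ← lintegral_sq_V3]
    apply lintegral_congr_ae
    filter_upwards [(∂_{ee k} ψ).coeFn_toLp 2 (volume : Measure E3)] with x g1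
    rw [g1]
  · intro k _
    exact ((∂_{ee k} ψ).continuous.measurable.enorm.pow_const 2)

theorem poincare_toLp (h : Ker μ r) (ψ : 𝓢(E3, E3)) :
    ‖ψ.toLp 2 (volume : Measure E3) - avL h (ψ.toLp 2 (volume : Measure E3))‖ ^ 2 ≤
      r ^ 2 * ∑ k, ‖(∂_{ee k} ψ).toLp 2 (volume : Measure E3)‖ ^ 2 := by
  have h5 := poincare_schwartz h ψ
  have e1 : ∫⁻ x, ‖ψ x - av μ ψ x‖ₑ ^ 2 = ENNReal.ofReal
      (‖ψ.toLp 2 (volume : Measure E3) - avL h (ψ.toLp 2 (volume : Measure E3))‖ ^ 2) := by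
    rw [← enorm_sq_ofReal, ← lintegral_sq_V3]
    apply lintegral_congr_ae
    filter_upwards [coe_avL h (ψ.toLp 2 (volume : Measure E3)),
      ψ.coeFn_toLp 2 (volume : Measure E3),
      Lp.coeFn_sub (ψ.toLp 2 (volume : Measure E3))
        (avL h (ψ.toLp 2 (volume : Measure E3)))] with x g1 g2 g3
    rw [g3, Pi.sub_apply, g1, g2, av_congr h (ψ.coeFn_toLp 2 (volume : Measure E3))]
  rw [e1, lintegral_gsq, ← ENNReal.ofReal_mul (by positivity)] at h5
  exact (ENNReal.ofReal_le_ofReal_iff (by positivity)).1 h5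

/-- the inequality for fields with a square integrable weak gradient -/
theorem poincare_avL (h : Ker μ r) {Q : V3} {DQ : Fin 3 → V3}
    (hd : ∀ k, IsWeakDeriv k Q (DQ k)) : ‖Q - avL h Q‖ ^ 2 ≤ r ^ 2 * ∑ k, ‖DQ k‖ ^ 2 := by
  choose ψ h1 h2 using fun n : ℕ => exists_approx_real Q DQ hd (ε := 1 / ((n:ℝ) + 1))
    (by positivity)
  have hlim : Tendsto (fun n : ℕ => 1 / ((n:ℝ) + 1)) atTop (𝓝 0) :=
    tendsto_one_div_add_atTop_nhds_zero_nat
  have h3 : Tendsto (fun n => (ψ n).toLp 2 (volume : Measure E3)) atTop (𝓝 Q) := by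
    rw [tendsto_iff_norm_sub_tendsto_zero]
    exact squeeze_zero (fun n => norm_nonneg _) (fun n => (h1 n).le) hlim
  have h4 : ∀ k, Tendsto (fun n => (∂_{ee k} (ψ n)).toLp 2 (volume : Measure E3)) atTop
      (𝓝 (DQ k)) := by
    intro k
    rw [tendsto_iff_norm_sub_tendsto_zero]
    exact squeeze_zero (fun n => norm_nonneg _) (fun n => (h2 n k).le) hlim
  have l1 : Tendsto (fun n => ‖(ψ n).toLp 2 (volume : Measure E3) -
      avL h ((ψ n).toLp 2 (volume : Measure E3))‖ ^ 2) atTop (𝓝 (‖Q - avL h Q‖ ^ 2)) :=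
    ((h3.sub (((avL h).continuous.tendsto Q).comp h3)).norm).pow 2
  have l2 : Tendsto (fun n => r ^ 2 * ∑ k, ‖(∂_{ee k} (ψ n)).toLp 2 (volume : Measure E3)‖ ^ 2)
      atTop (𝓝 (r ^ 2 * ∑ k, ‖DQ k‖ ^ 2)) :=
    (tendsto_finsetSum _ fun k _ => ((h4 k).norm.pow 2)).const_mul _
  exact le_of_tendsto_of_tendsto' l1 l2 fun n => poincare_toLp h (ψ n)

/-- averages over small balls converge -/
theorem tendsto_avL {μ : ℕ → Measure E3} {r : ℕ → ℝ} (h : ∀ n, Ker (μ n) (r n))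
    (hr : Tendsto r atTop (𝓝 0)) (f : V3) : Tendsto (fun n => avL (h n) f) atTop (𝓝 f) := by
  rw [Metric.tendsto_atTop]
  intro ε hε
  obtain ⟨ψ', hψ', hlt⟩ := Metric.mem_closure_iff.1 (dense_toLp.closure_eq ▸ mem_univ f) (ε / 3)
    (by positivity)
  obtain ⟨ψ, rfl⟩ := hψ'
  set S : ℝ := ∑ k, ‖(∂_{ee k} ψ).toLp 2 (volume : Measure E3)‖ ^ 2 with hS
  have hS0 : 0 ≤ S := Finset.sum_nonneg fun k _ => by positivity
  have h1 : Tendsto (fun n => r n ^ 2 * S) atTop (𝓝 0) := by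
    have := (hr.pow 2).mul_const S
    simpa using this
  have h2 : ∀ᶠ n in atTop, r n ^ 2 * S < (ε / 3) ^ 2 :=
    h1.eventually (gt_mem_nhds (by positivity))
  obtain ⟨N, hN⟩ := eventually_atTop.1 h2
  refine ⟨N, fun n hn => ?_⟩
  have h3 := (poincare_toLp (h n) ψ).trans_lt (hN n hn)
  have h4 : ‖ψ.toLp 2 (volume : Measure E3) - avL (h n) (ψ.toLp 2 (volume : Measure E3))‖ <
      ε / 3 := lt_of_pow_lt_pow_left₀ 2 (by positivity) h3
  rw [dist_eq_norm] at hlt ⊢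
  have h5 : ‖avL (h n) (f - ψ.toLp 2 (volume : Measure E3))‖ ≤
      ‖f - ψ.toLp 2 (volume : Measure E3)‖ := norm_avL_le _ _
  rw [map_sub] at h5
  have e : avL (h n) f - f = (avL (h n) f - avL (h n) (ψ.toLp 2 (volume : Measure E3))) -
      (ψ.toLp 2 (volume : Measure E3) - avL (h n) (ψ.toLp 2 (volume : Measure E3))) -
      (f - ψ.toLp 2 (volume : Measure E3)) := by abel
  rw [e]
  refine (norm_sub_le _ _).trans_lt ?_
  refine lt_of_le_of_lt (add_le_add_left (norm_sub_le _ _) _) ?_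
  linarith

end Pool.Agent.TC
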