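import Pool.Agent.TC.Conv

/-!
# The mollifier
-/

set_option autoImplicit false

namespace Pool.Agent.TC

open MeasureTheory Set Filter Topology Pool.Agent.TO Pool.Agent.TB
open scoped ENNReal NNReal Real InnerProductSpace SchwartzMap LineDeriv ContDiff

/-- the bump function -/
noncomputable def bb : ContDiffBump (0 : E3) where
  rIn := 1 / 2
  rOut := 1
  rIn_pos := by norm_num
  rIn_lt_rOut := by norm_num

/-- the normalised bump function -/
noncomputable def eta (y : E3) : ℝ := bb.normed (volume : Measure E3) y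

/-- the normalised bump function at scale `r` -/
noncomputable def et (r : ℝ) (y : E3) : ℝ := r⁻¹ ^ 3 * eta (r⁻¹ • y)

theorem contDiff_eta : ContDiff ℝ ∞ eta := bb.contDiff_normed

theorem eta_nonneg (y : E3) : 0 ≤ eta y := bb.nonneg_normed y

theorem eta_neg (y : E3) : eta (-y) = eta y := bb.normed_neg y

theorem integral_eta : ∫ y, eta y = 1 := bb.integral_normed

theorem eta_zero {y : E3} (hy : 1 ≤ ‖y‖) : eta y = 0 := by
  have h1 : y ∉ Function.support (bb.normed (volume : Measure E3)) := by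
    rw [ContDiffBump.support_normed_eq, Metric.mem_ball, dist_zero_right, not_lt]
    exact hy
  exact Function.notMem_support.1 h1

theorem et_nonneg {r : ℝ} (hr : 0 < r) (y : E3) : 0 ≤ et r y := by
  unfold et
  have := eta_nonneg (r⁻¹ • y)
  positivity

theorem et_neg (r : ℝ) (y : E3) : et r (-y) = et r y := by
  unfold et
  rw [smul_neg, eta_neg]

theorem et_zero {r : ℝ} (hr : 0 < r) {y : E3} (hy : r ≤ ‖y‖) : et r y = 0 := by
  unfold et
  rw [eta_zero, mul_zero]
  rw [norm_smul, norm_inv, Real.norm_of_nonneg hr.le, inv_mul_eq_div, one_le_div hr]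
  exact hy

theorem contDiff_et (r : ℝ) : ContDiff ℝ ∞ (et r) := by
  unfold et
  have h := contDiff_eta
  fun_prop

theorem integral_et {r : ℝ} (hr : 0 < r) : ∫ y, et r y = 1 := by
  unfold et
  rw [integral_const_mul]
  have h := Measure.integral_comp_inv_smul (volume : Measure E3) eta r
  rw [h, finrank_euclideanSpace, Fintype.card_fin, integral_eta, abs_of_pos (by positivity)]
  simp only [smul_eq_mul, mul_one]
  field_simp

theorem hasCompactSupport_et {r : ℝ} (hr : 0 < r) : HasCompactSupport (et r) := by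
  apply HasCompactSupport.of_support_subset_isCompact (isCompact_closedBall (0:E3) r)
  intro y hy
  rw [Metric.mem_closedBall, dist_zero_right]
  by_contra h
  exact hy (et_zero hr (not_le.1 h).le)

/-- the mollifier as a Schwartz function -/
noncomputable def eS {r : ℝ} (hr : 0 < r) : 𝓢(E3, ℝ) :=
  (hasCompactSupport_et hr).toSchwartzMap (contDiff_et r)

theorem eS_apply {r : ℝ} (hr : 0 < r) (y : E3) : eS hr y = et r y := rfl

/-- the measure with density `et r` -/
noncomputable def mu (r : ℝ) : Measure E3 :=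
  (volume : Measure E3).withDensity fun y => ENNReal.ofReal (et r y)

theorem meas_et (r : ℝ) : Measurable fun y => ENNReal.ofReal (et r y) :=
  (contDiff_et r).continuous.measurable.ennreal_ofReal

theorem integrable_et {r : ℝ} (hr : 0 < r) : Integrable (et r) (volume : Measure E3) :=
  (eS hr).integrable

theorem ker_mu {r : ℝ} (hr : 0 < r) : Ker (mu r) r where
  prob := by
    constructor
    rw [mu, withDensity_apply _ MeasurableSet.univ, Measure.restrict_univ,
      ← ofReal_integral_eq_lintegral_ofReal (integrable_et hr)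
      (Eventually.of_forall fun y => et_nonneg hr y), integral_et hr, ENNReal.ofReal_one]
  le := by
    refine ⟨ENNReal.ofReal (SchwartzMap.seminorm ℝ 0 0 (eS hr)), ENNReal.ofReal_lt_top, ?_⟩
    rw [mu, ← withDensity_const]
    apply withDensity_mono
    refine Eventually.of_forall fun y => ENNReal.ofReal_le_ofReal ?_
    exact (le_abs_self _).trans (SchwartzMap.norm_le_seminorm ℝ (eS hr) y)
  neg := by
    have h1 : MeasurePreserving (fun y : E3 => -y) (volume : Measure E3) volume :=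
      Measure.measurePreserving_neg _
    refine ⟨measurable_neg, ?_⟩
    ext s hs
    rw [Measure.map_apply measurable_neg hs, mu, withDensity_apply _ (measurable_neg hs),
      withDensity_apply _ hs]
    have h2 := h1.setLIntegral_comp_preimage hs (meas_et r)
    simp only [et_neg] at h2
    exact h2
  supp := by
    rw [mu, ae_withDensity_iff (meas_et r)]
    refine Eventually.of_forall fun y hy => ?_
    by_contra h
    apply hy
    rw [et_zero hr (not_le.1 h).le, ENNReal.ofReal_zero]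

theorem av_mu {r : ℝ} (hr : 0 < r) {F : Type*} [NormedAddCommGroup F] [NormedSpace ℝ F]
    (f : E3 → F) (x : E3) : av (mu r) f x = ∫ y, et r y • f (x - y) := by
  unfold av mu
  rw [integral_withDensity_eq_integral_toReal_smul (meas_et r)
    (Eventually.of_forall fun y => ENNReal.ofReal_lt_top)]
  congr 1
  ext y
  rw [ENNReal.toReal_ofReal (et_nonneg hr y)]

/-- mollification of a Schwartz field -/
noncomputable def mol {r : ℝ} (hr : 0 < r) (ψ : 𝓢(E3, E3)) : 𝓢(E3, E3) := mK (eS hr) ψ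

/-- mollification of a square integrable field -/
noncomputable def SS {r : ℝ} (hr : 0 < r) : V3 →L[ℝ] V3 := avL (ker_mu hr)

theorem SS_toLp {r : ℝ} (hr : 0 < r) (ψ : 𝓢(E3, E3)) :
    SS hr (ψ.toLp 2 (volume : Measure E3)) = (mol hr ψ).toLp 2 (volume : Measure E3) := by
  apply Lp.ext
  filter_upwards [coe_avL (ker_mu hr) (ψ.toLp 2 (volume : Measure E3)),
    (mol hr ψ).coeFn_toLp 2 (volume : Measure E3)] with x h1 h2
  rw [SS, h1, h2, av_congr (ker_mu hr) (ψ.coeFn_toLp 2 (volume : Measure E3)), av_mu hr, mol,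
    mK_apply]
  rfl

/-- derivatives of rescaled functions -/
theorem lineDeriv_scale {G g : 𝓢(E3, ℝ)} {c r : ℝ} (h : ∀ y, G y = c * g (r⁻¹ • y)) (m : E3)
    (y : E3) : (∂_{m} G) y = c * r⁻¹ * (∂_{m} g) (r⁻¹ • y) := by
  rw [SchwartzMap.lineDerivOp_apply_eq_fderiv, SchwartzMap.lineDerivOp_apply_eq_fderiv]
  have h1 : (G : E3 → ℝ) = fun y => c * g (r⁻¹ • y) := funext h
  have h2 : HasFDerivAt (fun y : E3 => r⁻¹ • y) (r⁻¹ • ContinuousLinearMap.id ℝ E3) y :=
    (hasFDerivAt_id y).const_smul r⁻¹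
  have h3 := (g.differentiableAt (x := r⁻¹ • y)).hasFDerivAt.comp y h2
  have h4 := (h3.const_mul c).fderiv
  rw [h1]
  have h5 : fderiv ℝ (fun y => c * g (r⁻¹ • y)) y =
      c • (fderiv ℝ g (r⁻¹ • y)).comp (r⁻¹ • ContinuousLinearMap.id ℝ E3) := h4
  rw [h5]
  simp only [smul_apply, ContinuousLinearMap.comp_apply, ContinuousLinearMap.id_apply,
    map_smul, smul_eq_mul]
  ring

/-- a Schwartz function vanishing outside of the unit ball -/
theorem zero_lineDeriv {g : 𝓢(E3, ℝ)} (h : ∀ y, 1 < ‖y‖ → g y = 0) (m : E3) :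
    ∀ y, 1 < ‖y‖ → (∂_{m} g) y = 0 := by
  intro y hy
  rw [SchwartzMap.lineDerivOp_apply_eq_fderiv]
  have h1 : (g : E3 → ℝ) =ᶠ[𝓝 y] fun _ => 0 := by
    have : {z : E3 | 1 < ‖z‖} ∈ 𝓝 y := (isOpen_lt continuous_const continuous_norm).mem_nhds hy
    filter_upwards [this] with z hz
    exact h z hz
  rw [h1.fderiv_eq]
  simp

/-- the constant in the bounds for the derivatives of the mollifier -/
theorem exists_const : ∃ C : ℝ, 1 ≤ C ∧ ∀ (r : ℝ) (hr : 0 < r) (k : Fin 3),
    KBdd (∂_{ee k} (eS hr)) (C / r ^ 4) r ∧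
    KBdd (∂_{ee k} (∂_{ee k} (eS hr))) (C / r ^ 5) r := by
  set g : 𝓢(E3, ℝ) := eS one_pos with hg
  have g0 : ∀ y, 1 < ‖y‖ → g y = 0 := fun y hy => et_zero one_pos hy.le
  set C : ℝ := 1 + ∑ k : Fin 3, (SchwartzMap.seminorm ℝ 0 0 (∂_{ee k} g) +
    SchwartzMap.seminorm ℝ 0 0 (∂_{ee k} (∂_{ee k} g))) with hC
  have c1 : ∀ k : Fin 3, SchwartzMap.seminorm ℝ 0 0 (∂_{ee k} g) +
      SchwartzMap.seminorm ℝ 0 0 (∂_{ee k} (∂_{ee k} g)) ≤ C := by
    intro k
    have := Finset.single_le_sum (f := fun k : Fin 3 => SchwartzMap.seminorm ℝ 0 0 (∂_{ee k} g) +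
      SchwartzMap.seminorm ℝ 0 0 (∂_{ee k} (∂_{ee k} g))) (fun j _ => by positivity)
      (Finset.mem_univ k)
    linarith
  have hC1 : 1 ≤ C := by
    have : 0 ≤ ∑ k : Fin 3, (SchwartzMap.seminorm ℝ 0 0 (∂_{ee k} g) +
      SchwartzMap.seminorm ℝ 0 0 (∂_{ee k} (∂_{ee k} g))) :=
      Finset.sum_nonneg fun j _ => by positivity
    linarith
  refine ⟨C, hC1, fun r hr k => ?_⟩
  have b1 : ∀ z, |(∂_{ee k} g) z| ≤ C := fun z => by
    have h1 := SchwartzMap.norm_le_seminorm ℝ (∂_{ee k} g) z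
    have h2 : 0 ≤ SchwartzMap.seminorm ℝ 0 0 (∂_{ee k} (∂_{ee k} g)) := by positivity
    rw [Real.norm_eq_abs] at h1
    linarith [c1 k]
  have b2 : ∀ z, |(∂_{ee k} (∂_{ee k} g)) z| ≤ C := fun z => by
    have h1 := SchwartzMap.norm_le_seminorm ℝ (∂_{ee k} (∂_{ee k} g)) z
    have h2 : 0 ≤ SchwartzMap.seminorm ℝ 0 0 (∂_{ee k} g) := by positivity
    rw [Real.norm_eq_abs] at h1
    linarith [c1 k]
  have e0 : ∀ y, eS hr y = r⁻¹ ^ 3 * g (r⁻¹ • y) := by
    intro y
    rw [eS_apply, hg, eS_apply]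
    unfold et
    simp
  have e1 : ∀ y, (∂_{ee k} (eS hr)) y = r⁻¹ ^ 3 * r⁻¹ * (∂_{ee k} g) (r⁻¹ • y) :=
    lineDeriv_scale e0 (ee k)
  have e2 : ∀ y, (∂_{ee k} (∂_{ee k} (eS hr))) y =
      r⁻¹ ^ 3 * r⁻¹ * r⁻¹ * (∂_{ee k} (∂_{ee k} g)) (r⁻¹ • y) := lineDeriv_scale e1 (ee k)
  have z1 := zero_lineDeriv g0 (ee k)
  have z2 := zero_lineDeriv z1 (ee k)
  have hn : ∀ y : E3, r < ‖y‖ → 1 < ‖r⁻¹ • y‖ := by
    intro y hy
    rw [norm_smul, norm_inv, Real.norm_of_nonneg hr.le, inv_mul_eq_div, one_lt_div hr]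
    exact hy
  constructor
  · intro y
    refine ⟨?_, fun hy => ?_⟩
    · rw [e1, abs_mul, abs_of_nonneg (by positivity)]
      calc r⁻¹ ^ 3 * r⁻¹ * |(∂_{ee k} g) (r⁻¹ • y)| ≤ r⁻¹ ^ 3 * r⁻¹ * C := by
            gcongr
            exact b1 _
        _ = C / r ^ 4 := by field_simp
    · rw [e1, z1 _ (hn y hy), mul_zero]
  · intro y
    refine ⟨?_, fun hy => ?_⟩
    · rw [e2, abs_mul, abs_of_nonneg (by positivity)]
      calc r⁻¹ ^ 3 * r⁻¹ * r⁻¹ * |(∂_{ee k} (∂_{ee k} g)) (r⁻¹ • y)| ≤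
            r⁻¹ ^ 3 * r⁻¹ * r⁻¹ * C := by
            gcongr
            exact b2 _
        _ = C / r ^ 5 := by field_simp
    · rw [e2, z2 _ (hn y hy), mul_zero]

end Pool.Agent.TC
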