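import Pool.Agent.TC.Test

/-!
# The energy identity for mollified linear combinations of two solutions
-/

set_option autoImplicit false

namespace Pool.Agent.TC

open MeasureTheory Set Filter Topology Pool.Agent.TO Pool.Agent.TB
open scoped ENNReal NNReal Real InnerProductSpace SchwartzMap LineDeriv Laplacian

variable {r T : ℝ} {u₀ v₀ : V3} {u v : ℝ → V3}

theorem symm_SS (hr : 0 < r) (f g : V3) : ⟪SS hr f, SS hr g⟫_ℝ = ⟪SS hr (SS hr f), g⟫_ℝ :=
  symm_avL (ker_mu hr) _ _

theorem comb_formula (hu : IsLeray T u₀ u) (hv : IsLeray T v₀ v) (hr : 0 < r) (a b : ℝ) {s t : ℝ}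
    (hs : 0 ≤ s) (hst : s ≤ t) (ht : t < T) :
    IntervalIntegrable (fun τ => a * rh hr (SS hr (a • u τ + b • v τ)) (u τ) +
      b * rh hr (SS hr (a • u τ + b • v τ)) (v τ)) volume s t ∧
    ‖SS hr (a • u t + b • v t)‖ ^ 2 - ‖SS hr (a • u s + b • v s)‖ ^ 2 =
      2 * ∫ τ in s..t, (a * rh hr (SS hr (a • u τ + b • v τ)) (u τ) +
        b * rh hr (SS hr (a • u τ + b • v τ)) (v τ)) := by
  have hmem : ∀ x ∈ Icc s t, x ∈ Ico 0 T := fun x hx => ⟨hs.trans hx.1, hx.2.trans_lt ht⟩
  have hadm : ∀ x ∈ Icc s t, Adm (SS hr (a • u x + b • v x)) := fun x hx =>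
    ((adm_of_divFree (hu.div x (hmem x hx))).add (adm_of_divFree (hv.div x (hmem x hx))) a b).mol hr
  set m : ℝ := |a| * cr hr ‖u₀‖ + |b| * cr hr ‖v₀‖ with hm
  have hm0 : 0 ≤ m := by
    have := cr_nonneg hr (norm_nonneg u₀)
    have := cr_nonneg hr (norm_nonneg v₀)
    positivity
  have key := norm_sq_formula (𝕜 := ℝ) (y := fun τ => SS hr (a • u τ + b • v τ))
    (Γ := fun x τ => a * rh hr (SS hr (a • u x + b • v x)) (u τ) +
        b * rh hr (SS hr (a • u x + b • v x)) (v τ)) (m := fun _ => m) hst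
    (by simp) (Eventually.of_forall fun _ => hm0)
    (by
      intro x hx
      exact ((integrable_rh hu hr _ hs hst ht).const_mul a).add
        ((integrable_rh hv hr _ hs hst ht).const_mul b))
    (by
      intro x hx y hy z hz hyz
      have hy0 : 0 ≤ y := hs.trans hy.1
      have hz0 : z < T := hz.2.trans_lt ht
      simp only [RCLike.re_to_real]
      rw [intervalIntegral.integral_add
        ((integrable_rh hu hr _ hy0 hyz hz0).const_mul a)
        ((integrable_rh hv hr _ hy0 hyz hz0).const_mul b),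
        intervalIntegral.integral_const_mul, intervalIntegral.integral_const_mul,
        ← tested hu hr (hadm x hx) hy0 hyz hz0, ← tested hv hr (hadm x hx) hy0 hyz hz0,
        symm_SS, symm_SS, inner_add_right, inner_add_right, inner_smul_right, inner_smul_right,
        inner_smul_right, inner_smul_right]
      ring)
    (by
      filter_upwards [ae_restrict_mem measurableSet_Ioo] with τ hτ x _ y _
      have hτ' : τ ∈ Ico 0 T := hmem τ (Ioo_subset_Icc_self hτ)
      have e1 : a * rh hr (SS hr (a • u x + b • v x)) (u τ) +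
          b * rh hr (SS hr (a • u x + b • v x)) (v τ) -
          (a * rh hr (SS hr (a • u y + b • v y)) (u τ) +
          b * rh hr (SS hr (a • u y + b • v y)) (v τ)) =
          a * rh hr (SS hr (a • u x + b • v x) - SS hr (a • u y + b • v y)) (u τ) +
          b * rh hr (SS hr (a • u x + b • v x) - SS hr (a • u y + b • v y)) (v τ) := by
        rw [← rh_sub, ← rh_sub]
        ring
      rw [e1]
      refine (abs_add_le _ _).trans ?_
      rw [abs_mul, abs_mul, hm, add_mul, mul_assoc, mul_assoc]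
      have h1 := abs_rh_le hr (SS hr (a • u x + b • v x) - SS hr (a • u y + b • v y))
        (hu.norm_le hτ')
      have h2 := abs_rh_le hr (SS hr (a • u x + b • v x) - SS hr (a • u y + b • v y))
        (hv.norm_le hτ')
      exact add_le_add (mul_le_mul_of_nonneg_left h1 (abs_nonneg _))
        (mul_le_mul_of_nonneg_left h2 (abs_nonneg _)))
  exact key.2

/-- the functional `‖S (v - u)‖² - ‖S v‖²` -/
noncomputable def Zr (hr : 0 < r) (f g : V3) : ℝ := ‖SS hr (g - f)‖ ^ 2 - ‖SS hr g‖ ^ 2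

/-- the derivative of `Zr` -/
noncomputable def zr (hr : 0 < r) (f g : V3) : ℝ :=
  -rh hr (SS hr (g - f)) f - rh hr (SS hr f) g

theorem rh_add_smul (hr : 0 < r) (h h' f : V3) :
    rh hr (h + h') f = rh hr h f + rh hr h' f := by
  unfold rh
  simp only [map_add, inner_add_left, add_apply]
  ring

theorem Zr_formula (hu : IsLeray T u₀ u) (hv : IsLeray T v₀ v) (hr : 0 < r) {s t : ℝ}
    (hs : 0 ≤ s) (hst : s ≤ t) (ht : t < T) :
    IntervalIntegrable (fun τ => zr hr (u τ) (v τ)) volume s t ∧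
    Zr hr (u t) (v t) - Zr hr (u s) (v s) = 2 * ∫ τ in s..t, zr hr (u τ) (v τ) := by
  obtain ⟨i1, e1⟩ := comb_formula hu hv hr (-1) 1 hs hst ht
  obtain ⟨i2, e2⟩ := comb_formula hu hv hr 0 1 hs hst ht
  have hw : ∀ τ, (-1 : ℝ) • u τ + (1:ℝ) • v τ = v τ - u τ := fun τ => by
    rw [neg_smul, one_smul, one_smul]
    abel
  have hv' : ∀ τ, (0 : ℝ) • u τ + (1:ℝ) • v τ = v τ := fun τ => by
    rw [zero_smul, one_smul, zero_add]
  simp only [hw] at i1 e1
  simp only [hv', zero_mul, zero_add, one_mul] at i2 e2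
  have e3 : ∀ τ, zr hr (u τ) (v τ) = (-1 * rh hr (SS hr (v τ - u τ)) (u τ) +
      1 * rh hr (SS hr (v τ - u τ)) (v τ)) - rh hr (SS hr (v τ)) (v τ) := by
    intro τ
    have h1 : rh hr (SS hr (v τ)) (v τ) = rh hr (SS hr (v τ - u τ)) (v τ) +
        rh hr (SS hr (u τ)) (v τ) := by
      rw [← rh_add_smul, ← map_add, sub_add_cancel]
    rw [h1, zr]
    ring
  constructor
  · simp only [e3]
    exact i1.sub i2
  · simp only [e3]
    rw [intervalIntegral.integral_sub i1 i2, mul_sub, ← e1, ← e2, Zr, Zr]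
    ring

end Pool.Agent.TC
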