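import Pool.Agent.TC.Av2

/-!
# Convolution of Schwartz fields with real Schwartz kernels
-/

set_option autoImplicit false

namespace Pool.Agent.TC

open MeasureTheory Set Filter Topology Pool.Agent.TO Pool.Agent.TB
open scoped ENNReal NNReal Real InnerProductSpace SchwartzMap LineDeriv FourierTransform
  Convolution Laplacian

/-- the convolution of complex Schwartz functions and fields -/
noncomputable def convS (a : 𝓢(E3, ℂ)) (φ : 𝓢(E3, F3)) : 𝓢(E3, F3) :=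
  SchwartzMap.convolution (ContinuousLinearMap.lsmul ℂ ℂ : ℂ →L[ℂ] F3 →L[ℂ] F3) a φ

theorem convS_apply (a : 𝓢(E3, ℂ)) (φ : 𝓢(E3, F3)) (x : E3) :
    convS a φ x = ∫ y, a y • φ (x - y) := by
  unfold convS
  rw [SchwartzMap.convolution_apply]
  rfl

theorem fourier_convS (a : 𝓢(E3, ℂ)) (φ : 𝓢(E3, F3)) (ξ : E3) :
    𝓕 (convS a φ) ξ = 𝓕 a ξ • 𝓕 φ ξ := by
  unfold convS
  rw [SchwartzMap.fourier_convolution]
  rfl

theorem fourier_lineDeriv_C (a : 𝓢(E3, ℂ)) (k : Fin 3) (ξ : E3) :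
    𝓕 (∂_{ee k} a) ξ = (2 * π * Complex.I * (ξ k : ℂ)) • 𝓕 a ξ := by
  rw [SchwartzMap.fourier_lineDerivOp_eq]
  have h1 : (fun x : E3 => ⟪x, ee k⟫_ℝ).HasTemperateGrowth := by fun_prop
  rw [smul_apply, SchwartzMap.smulLeftCLM_apply_apply h1]
  have h2 : ⟪ξ, ee k⟫_ℝ = ξ k := by
    simp [ee, EuclideanSpace.inner_single_right]
  rw [h2, ← Complex.coe_smul, smul_smul]

theorem fourier_inj {φ ψ : 𝓢(E3, F3)} (h : ∀ ξ, 𝓕 φ ξ = 𝓕 ψ ξ) : φ = ψ := by
  have h1 : 𝓕 φ = 𝓕 ψ := by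
    ext1 ξ
    exact h ξ
  have h2 := congrArg (fun f => 𝓕⁻ f) h1
  simpa using h2

theorem lineDeriv_convS_right (a : 𝓢(E3, ℂ)) (φ : 𝓢(E3, F3)) (k : Fin 3) :
    ∂_{ee k} (convS a φ) = convS a (∂_{ee k} φ) := by
  apply fourier_inj
  intro ξ
  rw [fourier_lineDeriv, fourier_convS, fourier_convS, fourier_lineDeriv, smul_comm]

theorem lineDeriv_convS_left (a : 𝓢(E3, ℂ)) (φ : 𝓢(E3, F3)) (k : Fin 3) :
    ∂_{ee k} (convS a φ) = convS (∂_{ee k} a) φ := by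
  apply fourier_inj
  intro ξ
  rw [fourier_lineDeriv, fourier_convS, fourier_convS, fourier_lineDeriv_C, smul_assoc]

/-- complexification of a real Schwartz function -/
noncomputable def cS (κ : 𝓢(E3, ℝ)) : 𝓢(E3, ℂ) := κ.postcompCLM Complex.ofRealCLM

/-- complexification of a real Schwartz field -/
noncomputable def iS (ψ : 𝓢(E3, E3)) : 𝓢(E3, F3) := ψ.postcompCLM incl

theorem cS_apply (κ : 𝓢(E3, ℝ)) (x : E3) : cS κ x = (κ x : ℂ) := rfl
theorem iS_apply (ψ : 𝓢(E3, E3)) (x : E3) : iS ψ x = incl (ψ x) := rfl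

/-- the convolution of a real Schwartz kernel and a real Schwartz field -/
noncomputable def mK (κ : 𝓢(E3, ℝ)) (ψ : 𝓢(E3, E3)) : 𝓢(E3, E3) := reS (convS (cS κ) (iS ψ))

theorem integrable_conv (κ : 𝓢(E3, ℝ)) (ψ : 𝓢(E3, E3)) (x : E3) :
    Integrable (fun y => κ y • ψ (x - y)) (volume : Measure E3) := by
  have hb : ∀ y, ‖ψ (x - y)‖ ≤ SchwartzMap.seminorm ℝ 0 0 ψ := fun y =>
    SchwartzMap.norm_le_seminorm ℝ ψ _
  have h1 : Integrable (fun y => ‖κ y‖ * SchwartzMap.seminorm ℝ 0 0 ψ) (volume : Measure E3) :=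
    κ.integrable.norm.mul_const _
  refine h1.mono' ?_ ?_
  · have h2 : Continuous fun y => κ y • ψ (x - y) := by
      have := κ.continuous
      have := ψ.continuous
      fun_prop
    exact h2.aestronglyMeasurable
  · refine Eventually.of_forall fun y => ?_
    rw [norm_smul]
    exact mul_le_mul_of_nonneg_left (hb y) (norm_nonneg _)

theorem mK_apply (κ : 𝓢(E3, ℝ)) (ψ : 𝓢(E3, E3)) (x : E3) :
    mK κ ψ x = ∫ y, κ y • ψ (x - y) := by
  rw [mK, reS_apply, convS_apply]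
  have h1 : ∀ y : E3, cS κ y • iS ψ (x - y) = incl (κ y • ψ (x - y)) := by
    intro y
    rw [cS_apply, iS_apply, map_smul, Complex.coe_smul]
  simp only [h1]
  rw [incl.integral_comp_comm (integrable_conv κ ψ x)]
  ext i
  simp

theorem iS_lineDeriv (ψ : 𝓢(E3, E3)) (m : E3) : ∂_{m} (iS ψ) = iS (∂_{m} ψ) :=
  lineDeriv_postcomp _ _ _

theorem cS_lineDeriv (κ : 𝓢(E3, ℝ)) (m : E3) : ∂_{m} (cS κ) = cS (∂_{m} κ) :=
  lineDeriv_postcomp _ _ _

theorem lineDeriv_mK_right (κ : 𝓢(E3, ℝ)) (ψ : 𝓢(E3, E3)) (k : Fin 3) :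
    ∂_{ee k} (mK κ ψ) = mK κ (∂_{ee k} ψ) := by
  rw [mK, mK, reS_lineDeriv, lineDeriv_convS_right, iS_lineDeriv]

theorem lineDeriv_mK_left (κ : 𝓢(E3, ℝ)) (ψ : 𝓢(E3, E3)) (k : Fin 3) :
    ∂_{ee k} (mK κ ψ) = mK (∂_{ee k} κ) ψ := by
  rw [mK, mK, reS_lineDeriv, lineDeriv_convS_left, cS_lineDeriv]

theorem laplacian_real (ψ : 𝓢(E3, E3)) : Δ ψ = ∑ k, ∂_{ee k} (∂_{ee k} ψ) := by
  rw [SchwartzMap.laplacian_eq_sum (EuclideanSpace.basisFun (Fin 3) ℝ)]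
  simp [ee]

theorem laplacian_mK (κ : 𝓢(E3, ℝ)) (ψ : 𝓢(E3, E3)) :
    Δ (mK κ ψ) = ∑ k, mK (∂_{ee k} (∂_{ee k} κ)) ψ := by
  rw [laplacian_real]
  refine Finset.sum_congr rfl fun k _ => ?_
  rw [lineDeriv_mK_left, lineDeriv_mK_left]

theorem mK_add (κ : 𝓢(E3, ℝ)) (ψ ψ' : 𝓢(E3, E3)) : mK κ (ψ + ψ') = mK κ ψ + mK κ ψ' := by
  ext1 x
  rw [mK_apply]
  change _ = mK κ ψ x + mK κ ψ' x
  rw [mK_apply, mK_apply, ← integral_add (integrable_conv κ ψ x) (integrable_conv κ ψ' x)]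
  congr 1
  ext1 y
  rw [← smul_add]
  rfl

theorem mK_smul (κ : 𝓢(E3, ℝ)) (c : ℝ) (ψ : 𝓢(E3, E3)) : mK κ (c • ψ) = c • mK κ ψ := by
  ext1 x
  rw [mK_apply]
  change _ = c • mK κ ψ x
  rw [mK_apply, ← integral_smul]
  congr 1
  ext1 y
  rw [smul_comm]
  rfl

/-- divergence-free fields stay divergence-free -/
theorem test_mK (κ : 𝓢(E3, ℝ)) {ψ : 𝓢(E3, E3)} (h : TestDivFree ψ) : TestDivFree (mK κ ψ) := by
  intro x
  simp only [lineDeriv_mK_right, mK_apply]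
  have h1 : ∀ k : Fin 3, (∫ y, κ y • (∂_{ee k} ψ) (x - y)) k =
      ∫ y, κ y * (∂_{ee k} ψ) (x - y) k := by
    intro k
    have := (EuclideanSpace.proj (𝕜 := ℝ) k : E3 →L[ℝ] ℝ).integral_comp_comm
      (integrable_conv κ (∂_{ee k} ψ) x)
    exact this.symm
  simp only [h1]
  rw [← integral_finsetSum]
  · have h2 : ∀ y : E3, ∑ k, κ y * (∂_{ee k} ψ) (x - y) k = 0 := by
      intro y
      rw [← Finset.mul_sum, h (x - y), mul_zero]
    simp only [h2, integral_zero]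
  · intro k _
    exact ((EuclideanSpace.proj (𝕜 := ℝ) k : E3 →L[ℝ] ℝ).integrable_comp
      (integrable_conv κ (∂_{ee k} ψ) x))

/-- a kernel bounded by `A` and carried by the ball of radius `r` -/
def KBdd (κ : 𝓢(E3, ℝ)) (A r : ℝ) : Prop := ∀ y, |κ y| ≤ A ∧ (r < ‖y‖ → κ y = 0)

/-- local estimate for the convolution -/
theorem sq_mK_le {κ : 𝓢(E3, ℝ)} {A r : ℝ} (h : KBdd κ A r) (hA : 0 ≤ A)
    (ψ : 𝓢(E3, E3)) (x : E3) :
    ‖mK κ ψ x‖ₑ ^ 2 ≤ ENNReal.ofReal (A ^ 2) * (volume (Metric.closedBall (0:E3) r)) *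
      ∫⁻ y in Metric.closedBall (0:E3) r, ‖ψ (x - y)‖ₑ ^ 2 := by
  set S := Metric.closedBall (0:E3) r with hS
  have h1 : ‖mK κ ψ x‖ₑ ≤ ∫⁻ y in S, ENNReal.ofReal A * ‖ψ (x - y)‖ₑ := by
    rw [mK_apply]
    refine (enorm_integral_le_lintegral_enorm _).trans ?_
    rw [← lintegral_indicator Metric.isClosed_closedBall.measurableSet]
    apply lintegral_mono
    intro y
    by_cases hy : y ∈ S
    · rw [indicator_of_mem hy]
      beta_reduce
      rw [enorm_smul]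
      gcongr
      rw [← ofReal_norm]
      exact ENNReal.ofReal_le_ofReal ((h y).1)
    · rw [indicator_of_notMem hy]
      have : r < ‖y‖ := by
        rw [hS, Metric.mem_closedBall, dist_zero_right] at hy
        exact not_le.1 hy
      beta_reduce
      rw [(h y).2 this]
      simp
  have h2 : ∫⁻ y in S, ENNReal.ofReal A * ‖ψ (x - y)‖ₑ =
      ENNReal.ofReal A * ∫⁻ y in S, ‖ψ (x - y)‖ₑ := by
    apply lintegral_const_mul
    have : Continuous fun y => ψ (x - y) := by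
      have := ψ.continuous
      fun_prop
    exact this.enorm.measurable
  have h3 : (∫⁻ y in S, ‖ψ (x - y)‖ₑ) ^ 2 ≤ volume S * ∫⁻ y in S, ‖ψ (x - y)‖ₑ ^ 2 := by
    have hm : AEMeasurable (fun y => ‖ψ (x - y)‖ₑ) ((volume : Measure E3).restrict S) := by
      have : Continuous fun y => ψ (x - y) := by
        have := ψ.continuous
        fun_prop
      exact this.enorm.measurable.aemeasurable
    have g := ENNReal.lintegral_mul_le_Lp_mul_Lq ((volume : Measure E3).restrict S)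
      (p := 2) (q := 2) Real.HolderConjugate.two_two (aemeasurable_const (b := (1:ℝ≥0∞))) hm
    simp only [Pi.mul_apply, one_mul, ENNReal.one_rpow, lintegral_const,
      Measure.restrict_apply_univ] at g
    calc (∫⁻ y in S, ‖ψ (x - y)‖ₑ) ^ 2
        ≤ ((volume S) ^ (1 / 2 : ℝ) * (∫⁻ y in S, ‖ψ (x - y)‖ₑ ^ (2:ℝ)) ^ (1 / 2 : ℝ)) ^ 2 := by
          gcongr
      _ = _ := by
          rw [mul_pow, ← ENNReal.rpow_natCast, ← ENNReal.rpow_mul, ← ENNReal.rpow_natCast,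
            ← ENNReal.rpow_mul]
          norm_num
  calc ‖mK κ ψ x‖ₑ ^ 2 ≤ (ENNReal.ofReal A * ∫⁻ y in S, ‖ψ (x - y)‖ₑ) ^ 2 := by
        rw [← h2]
        gcongr
    _ = ENNReal.ofReal (A ^ 2) * (∫⁻ y in S, ‖ψ (x - y)‖ₑ) ^ 2 := by
        rw [mul_pow, ENNReal.ofReal_pow hA]
    _ ≤ ENNReal.ofReal (A ^ 2) * (volume S * ∫⁻ y in S, ‖ψ (x - y)‖ₑ ^ 2) := by gcongr
    _ = _ := by rw [mul_assoc]

end Pool.Agent.TC
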