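import Pool.Agent.TC.Main2

/-!
# The theorem with an absolute constant, and the form of Q1
-/

set_option autoImplicit false

namespace Pool.Agent.TC

open MeasureTheory Set Filter Topology Pool.Agent.TO Pool.Agent.TB
open scoped ENNReal NNReal Real InnerProductSpace

variable {T : ℝ} {u₀ : V3} {u v v₁ v₂ : ℝ → V3} {ε β K : ℝ}

/-- the absolute constant of the theorem -/
noncomputable def cst : ℝ := min (1 / 2) (1 / (9 * c2))

theorem cst_pos : 0 < cst := by
  have := c2_pos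
  exact lt_min (by norm_num) (by positivity)

/-- **Uniqueness for Leray solutions in the sum of the Type I class and the Carleson class.** -/
theorem carleson (hu : IsLeray T u₀ u) (hv : IsLeray T u₀ v) (hε : 0 < ε) (hβ : 0 ≤ β)
    (hK : 0 ≤ K) (hc : ε * (1 + β + K) ≤ cst) (hua : BddBy T u (fun t => ε / √t))
    (hsum : ∀ᵐ t ∂(volume.restrict (Ioo 0 T)), v t = v₁ t + v₂ t)
    (hv1 : BddBy T v₁ (fun t => β / √t))
    (hm : AEStronglyMeasurable v₂ (volume.restrict (Ioo 0 T)))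
    (hC : ∀ t ∈ Ioo 0 T, ∃ ρ ∈ Ioc 0 (√t / (2 * ε)), Carl t ρ K v₂) :
    ∀ t ∈ Ico 0 T, u t = v t := by
  have P : Low T u₀ u v v₁ v₂ ε β := ⟨hu, hv, hε, hβ, hua, hsum, hv1, hm⟩
  have hc2 := c2_pos
  have hε1 : ε ≤ 1 := by
    have h1 : ε * 1 ≤ ε * (1 + β + K) := by
      apply mul_le_mul_of_nonneg_left _ hε.le
      linarith
    have h2 : cst ≤ 1 / 2 := min_le_left _ _
    linarith
  have hC' : ∀ t ∈ Ioo 0 T, Carl t (√t / (2 * ε)) (3 * K) v₂ := by
    intro t ht
    obtain ⟨ρ, hρ, h1⟩ := hC t ht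
    exact h1.scale hρ.1 hρ.2
      (hm.mono_measure (Measure.restrict_mono (Ioo_subset_Ioo_right ht.2.le) le_rfl))
  refine P.eq ?_ hC'
  have h1 : c2 * ε * (ε + β + |3 * K|) ≤ 1 / 3 := by
    rw [abs_of_nonneg (by positivity)]
    have h2 : ε * (ε + β + 3 * K) ≤ 3 * (ε * (1 + β + K)) := by
      have : ε + β + 3 * K ≤ 3 * (1 + β + K) := by linarith
      nlinarith
    have h3 : ε * (1 + β + K) ≤ 1 / (9 * c2) := hc.trans (min_le_right _ _)
    calc c2 * ε * (ε + β + 3 * K) = c2 * (ε * (ε + β + 3 * K)) := by ring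
      _ ≤ c2 * (3 * (1 / (9 * c2))) := by
          apply mul_le_mul_of_nonneg_left _ hc2.le
          linarith
      _ = 1 / 3 := by
          field_simp
          norm_num
  have h0 : 0 ≤ c2 * ε * (ε + β + |3 * K|) := by positivity
  nlinarith

theorem Carl.mono {t R K K' : ℝ} {g : ℝ → V3} (h : Carl t R K g) (hR : 0 ≤ R) (hK : 0 ≤ K)
    (hKK : K ≤ K') : Carl t R K' g := by
  intro z
  refine (h z).trans (ENNReal.ofReal_le_ofReal ?_)
  gcongr

/-- The form of Q1: a Leray solution with `√t ‖u(t)‖_∞ → 0` (such as the mild solution) coincides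
near the initial time with every Leray solution in the sum of the Type I class and the
Koch-Tataru Carleson class. -/
theorem carleson_local (hT : 0 < T) (hu : IsLeray T u₀ u) (hv : IsLeray T u₀ v)
    (hua : ∀ ε > 0, ∃ δ > 0, BddBy δ u (fun t => ε / √t))
    (hvb : ∃ β K, ∃ δ > 0, ∃ v₁ v₂ : ℝ → V3,
      (∀ᵐ t ∂(volume.restrict (Ioo 0 δ)), v t = v₁ t + v₂ t) ∧
      BddBy δ v₁ (fun t => β / √t) ∧
      AEStronglyMeasurable v₂ (volume.restrict (Ioo 0 δ)) ∧
      ∀ t ∈ Ioo 0 δ, Carl t √t K v₂) :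
    ∃ T' > 0, ∀ t ∈ Ico 0 T', u t = v t := by
  obtain ⟨β, K, δ, hδ, v₁, v₂, h1, h2, h3, h4⟩ := hvb
  have hc := cst_pos
  set ε : ℝ := cst / (1 + |β| + |K|) with hε
  have hβ := abs_nonneg β
  have hK := abs_nonneg K
  have hε0 : 0 < ε := by positivity
  have hε1 : ε ≤ 1 / 2 := by
    rw [hε, div_le_iff₀ (by positivity)]
    have : cst ≤ 1 / 2 := min_le_left _ _
    nlinarith
  obtain ⟨δ', hδ', hα⟩ := hua ε hε0
  set T' : ℝ := min T (min δ δ') with hT'
  have hT'T : T' ≤ T := min_le_left _ _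
  have hT'δ : T' ≤ δ := (min_le_right _ _).trans (min_le_left _ _)
  have hT'δ' : T' ≤ δ' := (min_le_right _ _).trans (min_le_right _ _)
  refine ⟨T', lt_min hT (lt_min hδ hδ'), ?_⟩
  have hsub : Ioo 0 T' ⊆ Ioo 0 δ := Ioo_subset_Ioo_right hT'δ
  apply carleson (ε := ε) (β := |β|) (K := |K|) (v₁ := v₁) (v₂ := v₂) (hu.mono hT'T) (hv.mono hT'T)
    hε0 hβ hK _ (hα.mono hT'δ') (ae_restrict_of_ae_restrict_of_subset hsub h1)
    ((h2.mono hT'δ).mono_fun fun t _ => by
      gcongr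
      exact le_abs_self β)
    (h3.mono_measure (Measure.restrict_mono hsub le_rfl))
  · intro t ht
    have hst : 0 < √t := Real.sqrt_pos.2 ht.1
    refine ⟨√t, ⟨hst, ?_⟩, ?_⟩
    · rw [le_div_iff₀ (by positivity)]
      nlinarith
    · intro z
      refine (h4 t (hsub ht) z).trans (ENNReal.ofReal_le_ofReal ?_)
      rw [sq_abs]
  · rw [hε, div_mul_cancel₀ _ (by positivity)]

end Pool.Agent.TC
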