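import Pool.Agent.TC.Loc

/-!
# Carleson bounds at larger scales
-/

set_option autoImplicit false

namespace Pool.Agent.TC

open MeasureTheory Set Filter Topology Pool.Agent.TO Pool.Agent.TB
open scoped ENNReal NNReal Real InnerProductSpace SchwartzMap LineDeriv Laplacian

/-- comparison of scales at a fixed time -/
theorem lE_scale {ρ R : ℝ} (hρ : 0 < ρ) (hR : ρ ≤ R) (f : V3) (z : E3) :
    ENNReal.ofReal (om * ρ ^ 3) * lE R f z ≤ ∫⁻ y in Metric.closedBall z (2 * R), lE ρ f y := by
  have hom := om_pos
  have hfm : Measurable fun z => ‖f z‖ₑ ^ 2 :=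
    (Lp.stronglyMeasurable f).measurable.enorm.pow_const 2
  set B := Metric.closedBall z (2 * R) with hB
  set S : Set (E3 × E3) := {p : E3 × E3 | dist p.2 p.1 ≤ ρ} with hS
  have hSm : MeasurableSet S := by
    have : IsClosed S := by
      apply isClosed_le <;> fun_prop
    exact this.measurableSet
  have hm : Measurable (Function.uncurry fun y x : E3 =>
      S.indicator (fun p => ‖f p.2‖ₑ ^ 2) (y, x)) := by
    have : Measurable (S.indicator (fun p : E3 × E3 => ‖f p.2‖ₑ ^ 2)) :=
      (hfm.comp measurable_snd).indicator hSm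
    exact this
  have e1 : ∀ y, lE ρ f y = ∫⁻ x, S.indicator (fun p => ‖f p.2‖ₑ ^ 2) (y, x) := by
    intro y
    rw [lE, ← lintegral_indicator Metric.isClosed_closedBall.measurableSet]
    rfl
  simp only [e1]
  rw [lintegral_lintegral_swap hm.aemeasurable, lE,
    ← lintegral_const_mul _ hfm,
    ← lintegral_indicator Metric.isClosed_closedBall.measurableSet]
  apply lintegral_mono
  intro x
  by_cases hx : x ∈ Metric.closedBall z R
  · rw [indicator_of_mem hx]
    calc ENNReal.ofReal (om * ρ ^ 3) * ‖f x‖ₑ ^ 2
        = ∫⁻ _y in Metric.closedBall x ρ, ‖f x‖ₑ ^ 2 := by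
          rw [setLIntegral_const, vol_closedBall hρ.le, mul_comm]
      _ ≤ ∫⁻ y in B, (Metric.closedBall x ρ).indicator (fun _ => ‖f x‖ₑ ^ 2) y := by
          rw [← lintegral_indicator Metric.isClosed_closedBall.measurableSet,
            ← lintegral_indicator Metric.isClosed_closedBall.measurableSet]
          apply lintegral_mono
          intro y
          by_cases hy : y ∈ Metric.closedBall x ρ
          · have hyB : y ∈ B := by
              rw [hB, Metric.mem_closedBall]
              rw [Metric.mem_closedBall] at hy hx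
              calc dist y z ≤ dist y x + dist x z := dist_triangle _ _ _
                _ ≤ ρ + R := add_le_add hy hx
                _ ≤ 2 * R := by linarith
            rw [indicator_of_mem hy, indicator_of_mem hyB, indicator_of_mem hy]
          · rw [indicator_of_notMem hy]
            exact zero_le
      _ = ∫⁻ y in B, S.indicator (fun p => ‖f p.2‖ₑ ^ 2) (y, x) := by
          apply lintegral_congr
          intro y
          by_cases hy : y ∈ Metric.closedBall x ρ
          · have h3 : (y, x) ∈ S := by
              rw [hS, mem_setOf_eq, dist_comm]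
              exact hy
            rw [indicator_of_mem hy, indicator_of_mem h3]
          · have h3 : (y, x) ∉ S := by
              rw [hS, mem_setOf_eq, dist_comm]
              exact hy
            rw [indicator_of_notMem hy, indicator_of_notMem h3]
  · rw [indicator_of_notMem hx]
    exact zero_le

/-- a Carleson bound at the scale `ρ` gives one at larger scales -/
theorem Carl.scale {t ρ R K : ℝ} {g : ℝ → V3} (h : Carl t ρ K g) (hρ : 0 < ρ) (hR : ρ ≤ R)
    (hg : AEStronglyMeasurable g (volume.restrict (Ioo 0 t))) : Carl t R (3 * K) g := by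
  have hom := om_pos
  have hR0 : 0 < R := hρ.trans_le hR
  intro z
  have hc : Measurable fun y : E3 => (Metric.closedBall z (2 * R)).indicator
      (fun _ => (1:ℝ≥0∞)) y := measurable_const.indicator Metric.isClosed_closedBall.measurableSet
  have h1 := weighted_carl h hg hc
  have e1 : ∫⁻ y, (Metric.closedBall z (2 * R)).indicator (fun _ => (1:ℝ≥0∞)) y =
      ENNReal.ofReal (om * (2 * R) ^ 3) := by
    rw [lintegral_indicator Metric.isClosed_closedBall.measurableSet, setLIntegral_const, one_mul,
      vol_closedBall (by positivity)]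
  have e2 : ∀ τ, ∫⁻ y, (Metric.closedBall z (2 * R)).indicator (fun _ => (1:ℝ≥0∞)) y *
      lE ρ (g τ) y = ∫⁻ y in Metric.closedBall z (2 * R), lE ρ (g τ) y := by
    intro τ
    rw [← lintegral_indicator Metric.isClosed_closedBall.measurableSet]
    apply lintegral_congr
    intro y
    by_cases hy : y ∈ Metric.closedBall z (2 * R)
    · rw [indicator_of_mem hy, indicator_of_mem hy, one_mul]
    · rw [indicator_of_notMem hy, indicator_of_notMem hy, zero_mul]
  simp only [e2] at h1
  rw [e1] at h1
  have hpos : 0 < om * ρ ^ 3 := by positivity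
  have h2 : ENNReal.ofReal (om * ρ ^ 3) * ∫⁻ τ in Ioo 0 t, lE R (g τ) z ≤
      ENNReal.ofReal (om * ρ ^ 3) * ENNReal.ofReal ((3 * K) ^ 2 * R ^ 3) := by
    calc ENNReal.ofReal (om * ρ ^ 3) * ∫⁻ τ in Ioo 0 t, lE R (g τ) z
        = ∫⁻ τ in Ioo 0 t, ENNReal.ofReal (om * ρ ^ 3) * lE R (g τ) z :=
          (lintegral_const_mul' _ _ ENNReal.ofReal_ne_top).symm
      _ ≤ ∫⁻ τ in Ioo 0 t, ∫⁻ y in Metric.closedBall z (2 * R), lE ρ (g τ) y :=
          lintegral_mono fun τ => lE_scale hρ hR (g τ) z
      _ ≤ ENNReal.ofReal (K ^ 2 * ρ ^ 3) * ENNReal.ofReal (om * (2 * R) ^ 3) := h1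
      _ ≤ ENNReal.ofReal (om * ρ ^ 3) * ENNReal.ofReal ((3 * K) ^ 2 * R ^ 3) := by
          rw [← ENNReal.ofReal_mul (by positivity), ← ENNReal.ofReal_mul (by positivity)]
          apply ENNReal.ofReal_le_ofReal
          have : 0 ≤ K ^ 2 * ρ ^ 3 * om * R ^ 3 := by positivity
          nlinarith
  exact (ENNReal.mul_le_mul_iff_right (by
    rw [ne_eq, ENNReal.ofReal_eq_zero, not_le]; exact hpos) ENNReal.ofReal_ne_top).1 h2

end Pool.Agent.TC
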