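import Pool.Agent.TC.Comb

/-!
# Identities at a fixed time
-/

set_option autoImplicit false

namespace Pool.Agent.TC

open MeasureTheory Set Filter Topology Pool.Agent.TO Pool.Agent.TB
open scoped ENNReal NNReal Real InnerProductSpace SchwartzMap LineDeriv Laplacian

variable {r : ℝ}

/-- approximation in `H¹` by Schwartz fields -/
theorem exists_seq_H1 {w : V3} {d : Fin 3 → V3} (h : ∀ k, IsWeakDeriv k w (d k)) :
    ∃ ψ : ℕ → 𝓢(E3, E3), Tendsto (fun n => emb (ψ n)) atTop (𝓝 w) ∧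
      ∀ k, Tendsto (fun n => emb (∂_{ee k} (ψ n))) atTop (𝓝 (d k)) := by
  choose ψ h1 h2 using fun n : ℕ => exists_approx_real w d h (ε := 1 / ((n:ℝ) + 1))
    (by positivity)
  have hlim : Tendsto (fun n : ℕ => 1 / ((n:ℝ) + 1)) atTop (𝓝 0) :=
    tendsto_one_div_add_atTop_nhds_zero_nat
  refine ⟨ψ, ?_, fun k => ?_⟩
  · rw [tendsto_iff_norm_sub_tendsto_zero]
    exact squeeze_zero (fun n => norm_nonneg _) (fun n => (h1 n).le) hlim
  · rw [tendsto_iff_norm_sub_tendsto_zero]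
    exact squeeze_zero (fun n => norm_nonneg _) (fun n => (h2 n k).le) hlim

theorem lineDeriv_mol (hr : 0 < r) (ψ : 𝓢(E3, E3)) (k : Fin 3) :
    ∂_{ee k} (mol hr ψ) = mol hr (∂_{ee k} ψ) := lineDeriv_mK_right _ _ _

theorem weak_emb {k : Fin 3} {f g : V3} (h : IsWeakDeriv k f g) (φ : 𝓢(E3, E3)) :
    ⟪emb (∂_{ee k} φ), f⟫_ℝ = -⟪emb φ, g⟫_ℝ := by
  have h1 := h φ
  rwa [integral_inner_eq, integral_inner_eq] at h1

/-- the linear term -/
theorem inner_LL (hr : 0 < r) {f g : V3} {df dg : Fin 3 → V3}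
    (hf : ∀ k, IsWeakDeriv k f (df k)) (hg : ∀ k, IsWeakDeriv k g (dg k)) :
    ⟪LL hr (SS hr f), g⟫_ℝ = -∑ k, ⟪SS hr (df k), SS hr (dg k)⟫_ℝ := by
  obtain ⟨ψ, h1, h2⟩ := exists_seq_H1 hf
  have l1 : Tendsto (fun n => ⟪LL hr (SS hr (emb (ψ n))), g⟫_ℝ) atTop
      (𝓝 ⟪LL hr (SS hr f), g⟫_ℝ) :=
    (((LL hr).continuous.tendsto _).comp (((SS hr).continuous.tendsto f).comp h1)).inner
      tendsto_const_nhds
  have l2 : Tendsto (fun n => -∑ k, ⟪SS hr (emb (∂_{ee k} (ψ n))), SS hr (dg k)⟫_ℝ) atTop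
      (𝓝 (-∑ k, ⟪SS hr (df k), SS hr (dg k)⟫_ℝ)) :=
    (tendsto_finsetSum _ fun k _ =>
      (((SS hr).continuous.tendsto _).comp (h2 k)).inner tendsto_const_nhds).neg
  refine tendsto_nhds_unique l1 (l2.congr fun n => ?_)
  rw [SS_emb, LL_emb, laplacian_real, ← emb_apply, map_sum, sum_inner, ← Finset.sum_neg_distrib]
  refine Finset.sum_congr rfl fun k _ => ?_
  rw [weak_emb (hg k), lineDeriv_mol, lineDeriv_mol, symm_SS, SS_emb, SS_emb]

theorem inner_AA_tens (φ : 𝓢(E3, E3)) (f : V3) {g : V3} {A : ℝ} (hg : Bd g A) :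
    ⟪AA φ f, g⟫_ℝ = ∑ k, ⟪emb (∂_{ee k} φ), tens k f g⟫_ℝ := by
  rw [L2.inner_def]
  simp only [L2.inner_def (𝕜 := ℝ) (emb (∂_{ee _} φ))]
  rw [← integral_finsetSum _ (fun k _ => L2.integrable_inner (𝕜 := ℝ) _ _)]
  apply integral_congr_ae
  filter_upwards [coe_AA φ f, coe_tens_right 0 f hg, coe_tens_right 1 f hg,
    coe_tens_right 2 f hg, (∂_{ee 0} φ).coeFn_toLp 2 (volume : Measure E3),
    (∂_{ee 1} φ).coeFn_toLp 2 (volume : Measure E3),
    (∂_{ee 2} φ).coeFn_toLp 2 (volume : Measure E3)] with x h1 h2 h3 h4 h5 h6 h7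
  rw [h1, Fin.sum_univ_three, emb_apply, emb_apply, emb_apply, h2, h3, h4, h5, h6, h7,
    fderiv_field_eq_sum, Fin.sum_univ_three]
  simp only [inner_add_left, inner_smul_left, inner_smul_right, conj_trivial]

/-- the nonlinear term for a bounded field -/
theorem inner_GG_bdd (hr : 0 < r) {f g : V3} {df : Fin 3 → V3} {A : ℝ}
    (hf : ∀ k, IsWeakDeriv k f (df k)) (hg : Bd g A) (h : V3) :
    ⟪GG hr (SS hr f) h, g⟫_ℝ = ∑ k, ⟪SS hr (SS hr (df k)), tens k h g⟫_ℝ := by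
  obtain ⟨ψ, h1, h2⟩ := exists_seq_H1 hf
  have l1 : Tendsto (fun n => ⟪GG hr (SS hr (emb (ψ n))) h, g⟫_ℝ) atTop
      (𝓝 ⟪GG hr (SS hr f) h, g⟫_ℝ) := by
    have h3 := ((GG hr).continuous.tendsto _).comp (((SS hr).continuous.tendsto f).comp h1)
    have h4 : Tendsto (fun n => GG hr (SS hr (emb (ψ n))) h) atTop (𝓝 (GG hr (SS hr f) h)) :=
      ((ContinuousLinearMap.apply ℝ V3 h).continuous.tendsto _).comp h3
    exact h4.inner tendsto_const_nhds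
  have l2 : Tendsto (fun n => ∑ k, ⟪SS hr (SS hr (emb (∂_{ee k} (ψ n)))), tens k h g⟫_ℝ) atTop
      (𝓝 (∑ k, ⟪SS hr (SS hr (df k)), tens k h g⟫_ℝ)) :=
    tendsto_finsetSum _ fun k _ =>
      (((SS hr).continuous.tendsto _).comp (((SS hr).continuous.tendsto _).comp (h2 k))).inner
        tendsto_const_nhds
  refine tendsto_nhds_unique l1 (l2.congr fun n => ?_)
  rw [SS_emb, GG_emb, inner_AA_tens _ _ hg]
  refine Finset.sum_congr rfl fun k _ => ?_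
  rw [lineDeriv_mol, lineDeriv_mol, SS_emb, SS_emb]

/-- Schwartz fields are bounded -/
theorem bd_emb (φ : 𝓢(E3, E3)) : Bd (emb φ) (SchwartzMap.seminorm ℝ 0 0 φ) := by
  unfold Bd
  filter_upwards [φ.coeFn_toLp 2 (volume : Measure E3)] with x hx
  rw [emb_apply, hx]
  exact SchwartzMap.norm_le_seminorm ℝ φ x

/-- mollified fields are bounded by their `L²` norm -/
theorem exists_bd_SS (hr : 0 < r) : ∃ C : ℝ, 0 ≤ C ∧ ∀ f : V3, Bd (SS hr f) (C * ‖f‖) := by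
  obtain ⟨C, hC, hle⟩ := (ker_mu hr).le
  refine ⟨√C.toReal, Real.sqrt_nonneg _, fun f => ?_⟩
  unfold Bd
  filter_upwards [coe_avL (ker_mu hr) f] with x hx
  rw [SS, hx]
  have h1 := (sq_av_le (ker_mu hr) (Lp.stronglyMeasurable f) x).trans (sq_ker_le hle f x)
  rw [lintegral_sq_V3, enorm_sq_ofReal, ← ENNReal.ofReal_toReal hC.ne,
    ← ENNReal.ofReal_mul ENNReal.toReal_nonneg, ← ofReal_norm,
    ← ENNReal.ofReal_pow (norm_nonneg _)] at h1
  apply le_of_sq_ofReal (by positivity)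
  rw [mul_pow, Real.sq_sqrt ENNReal.toReal_nonneg]
  exact h1

theorem tens_sub_right_le (k : Fin 3) (v : V3) {f g : V3} {A A' B : ℝ} (hf : Bd f A)
    (hg : Bd g A') (h : Bd (f - g) B) : ‖tens k v f - tens k v g‖ ≤ B * ‖v‖ := by
  apply Lp.norm_le_mul_norm_of_ae_le_mul
  filter_upwards [Lp.coeFn_sub (tens k v f) (tens k v g), Lp.coeFn_sub f g,
    coe_tens_right k v hf, coe_tens_right k v hg, h] with x h1 h2 h3 h4 h5
  rw [h1, Pi.sub_apply, h3, h4, ← smul_sub, norm_smul, mul_comm]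
  rw [h2, Pi.sub_apply] at h5
  exact mul_le_mul h5 (PiLp.norm_apply_le (v x) k) (norm_nonneg _) ((norm_nonneg _).trans h5)

theorem norm_tens_right_le (k : Fin 3) (v : V3) {f : V3} {A : ℝ} (hf : Bd f A) :
    ‖tens k v f‖ ≤ A * ‖v‖ := by
  apply Lp.norm_le_mul_norm_of_ae_le_mul
  filter_upwards [coe_tens_right k v hf, hf] with x h3 h5
  rw [h3, norm_smul, mul_comm]
  exact mul_le_mul h5 (PiLp.norm_apply_le (v x) k) (norm_nonneg _) ((norm_nonneg _).trans h5)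

/-- the pairing of two Schwartz fields -/
noncomputable def pairS (φ χ : 𝓢(E3, E3)) : 𝓢(E3, ℝ) :=
  SchwartzMap.pairing (innerSL ℝ : E3 →L[ℝ] E3 →L[ℝ] ℝ) φ χ

theorem fderiv_pairS (φ χ : 𝓢(E3, E3)) (x v : E3) :
    fderiv ℝ (pairS φ χ) x v = ⟪φ x, fderiv ℝ χ x v⟫_ℝ + ⟪fderiv ℝ φ x v, χ x⟫_ℝ := by
  have h1 : (pairS φ χ : E3 → ℝ) = fun y => ⟪φ y, χ y⟫_ℝ := rfl
  rw [h1, fderiv_inner_apply ℝ (φ.differentiableAt) (χ.differentiableAt)]

/-- transport of Schwartz fields by a divergence-free field is antisymmetric -/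
theorem anti_schwartz {v : V3} (hd : IsDivFree v) (φ χ : 𝓢(E3, E3)) :
    ∑ k, ⟪emb (∂_{ee k} φ), tens k v (emb χ)⟫_ℝ =
      -∑ k, ⟪emb (∂_{ee k} χ), tens k v (emb φ)⟫_ℝ := by
  rw [← inner_AA_tens φ v (bd_emb χ), ← inner_AA_tens χ v (bd_emb φ)]
  have h1 := hd (pairS φ χ)
  have h2 : ∫ x, fderiv ℝ (pairS φ χ) x (v x) = ⟪AA χ v, emb φ⟫_ℝ + ⟪AA φ v, emb χ⟫_ℝ := by
    rw [L2.inner_def, L2.inner_def,
      ← integral_add (L2.integrable_inner (𝕜 := ℝ) _ _) (L2.integrable_inner (𝕜 := ℝ) _ _)]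
    apply integral_congr_ae
    filter_upwards [coe_AA φ v, coe_AA χ v, φ.coeFn_toLp 2 (volume : Measure E3),
      χ.coeFn_toLp 2 (volume : Measure E3)] with x g1 g2 g3 g4
    rw [fderiv_pairS, g1, g2, emb_apply, emb_apply, g3, g4, real_inner_comm (fderiv ℝ χ x (v x))]
  rw [h2] at h1
  linarith

/-- the same for one Schwartz field and one field in `H¹` -/
theorem anti_one {v : V3} (hd : IsDivFree v) (φ : 𝓢(E3, E3)) {w : V3} {dw : Fin 3 → V3}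
    (hw : ∀ k, IsWeakDeriv k w (dw k)) :
    ⟪AA φ v, w⟫_ℝ = -∑ k, ⟪dw k, tens k v (emb φ)⟫_ℝ := by
  obtain ⟨χ, h1, h2⟩ := exists_seq_H1 hw
  have l1 : Tendsto (fun n => ⟪AA φ v, emb (χ n)⟫_ℝ) atTop (𝓝 ⟪AA φ v, w⟫_ℝ) :=
    tendsto_const_nhds.inner h1
  have l2 : Tendsto (fun n => -∑ k, ⟪emb (∂_{ee k} (χ n)), tens k v (emb φ)⟫_ℝ) atTop
      (𝓝 (-∑ k, ⟪dw k, tens k v (emb φ)⟫_ℝ)) :=
    (tendsto_finsetSum _ fun k _ => (h2 k).inner tendsto_const_nhds).neg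
  refine tendsto_nhds_unique l1 (l2.congr fun n => ?_)
  rw [← anti_schwartz hd, ← inner_AA_tens φ v (bd_emb (χ n))]

/-- the nonlinear term for an unbounded field -/
theorem inner_GG_unbdd (hr : 0 < r) (f : V3) {v : V3} (hd : IsDivFree v) {w : V3}
    {dw : Fin 3 → V3} (hw : ∀ k, IsWeakDeriv k w (dw k)) :
    ⟪GG hr (SS hr f) v, w⟫_ℝ = -∑ k, ⟪dw k, tens k v (SS hr (SS hr f))⟫_ℝ := by
  obtain ⟨ψ, h1⟩ := exists_seq_toLp f
  obtain ⟨C, hC, hb⟩ := exists_bd_SS hr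
  have h1' : Tendsto (fun n => emb (ψ n)) atTop (𝓝 f) := h1
  have hS := ((SS hr).continuous.tendsto f).comp h1'
  have l1 : Tendsto (fun n => ⟪GG hr (SS hr (emb (ψ n))) v, w⟫_ℝ) atTop
      (𝓝 ⟪GG hr (SS hr f) v, w⟫_ℝ) := by
    have h3 := ((GG hr).continuous.tendsto _).comp hS
    have h4 : Tendsto (fun n => GG hr (SS hr (emb (ψ n))) v) atTop (𝓝 (GG hr (SS hr f) v)) :=
      ((ContinuousLinearMap.apply ℝ V3 v).continuous.tendsto _).comp h3
    exact h4.inner tendsto_const_nhds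
  have l3 : ∀ k, Tendsto (fun n => tens k v (SS hr (SS hr (emb (ψ n))))) atTop
      (𝓝 (tens k v (SS hr (SS hr f)))) := by
    intro k
    rw [tendsto_iff_norm_sub_tendsto_zero]
    have h5 := ((tendsto_iff_norm_sub_tendsto_zero.1 hS).const_mul C).mul_const ‖v‖
    rw [mul_zero, zero_mul] at h5
    refine squeeze_zero (fun n => norm_nonneg _) (fun n => ?_) h5
    apply tens_sub_right_le k v (hb _) (hb _)
    rw [← map_sub]
    exact hb _
  have l2 : Tendsto (fun n => -∑ k, ⟪dw k, tens k v (SS hr (SS hr (emb (ψ n))))⟫_ℝ) atTop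
      (𝓝 (-∑ k, ⟪dw k, tens k v (SS hr (SS hr f))⟫_ℝ)) :=
    (tendsto_finsetSum _ fun k _ => tendsto_const_nhds.inner (l3 k)).neg
  refine tendsto_nhds_unique l1 (l2.congr fun n => ?_)
  rw [SS_emb, GG_emb, SS_emb, anti_one hd _ hw]

end Pool.Agent.TC
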