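import Pool.Agent.TC.Fix
import Pool.Agent.TO.Lim

/-!
# The limit of the mollified identities at a fixed time
-/

set_option autoImplicit false

namespace Pool.Agent.TC

open MeasureTheory Set Filter Topology Pool.Agent.TO Pool.Agent.TB
open scoped ENNReal NNReal Real InnerProductSpace SchwartzMap LineDeriv Laplacian

/-- products of a square integrable field and bounded fields converging in `L²` -/
theorem tendsto_tens (k : Fin 3) (v : V3) {Φ : ℕ → V3} {Φ₀ : V3} {A : ℝ}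
    (h : Tendsto Φ atTop (𝓝 Φ₀)) (hb : ∀ n, Bd (Φ n) A) (hb0 : Bd Φ₀ A) :
    Tendsto (fun n => tens k v (Φ n)) atTop (𝓝 (tens k v Φ₀)) := by
  apply tendsto_of_subseq_tendsto
  intro ns hns
  have h1 : Tendsto (fun n => Φ (ns n)) atTop (𝓝 Φ₀) := h.comp hns
  have h2 := tendstoInMeasure_of_tendsto_Lp h1
  obtain ⟨ms, hms, hae⟩ := h2.exists_seq_tendsto_ae
  refine ⟨ms, ?_⟩
  have e1 : ∀ n, ‖tens k v (Φ (ns (ms n))) - tens k v Φ₀‖ ^ 2 =
      ∫ x, ‖(v x) k • ((Φ (ns (ms n)) : E3 → E3) x - Φ₀ x)‖ ^ 2 := by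
    intro n
    rw [norm_sq_eq_real]
    apply integral_congr_ae
    filter_upwards [Lp.coeFn_sub (tens k v (Φ (ns (ms n)))) (tens k v Φ₀),
      coe_tens_right k v (hb (ns (ms n))), coe_tens_right k v hb0] with x g1 g2 g3
    rw [g1, Pi.sub_apply, g2, g3, smul_sub]
  have hA : 0 ≤ A := by
    obtain ⟨x, hx⟩ := hb0.exists
    exact (norm_nonneg _).trans hx
  have l1 : Tendsto (fun n => ∫ x, ‖(v x) k • ((Φ (ns (ms n)) : E3 → E3) x - Φ₀ x)‖ ^ 2) atTop
      (𝓝 (∫ _x : E3, (0:ℝ))) := by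
    apply tendsto_integral_of_dominated_convergence (fun x => ‖v x‖ ^ 2 * (2 * A) ^ 2)
    · intro n
      have hm : AEStronglyMeasurable (fun x => (v x) k • ((Φ (ns (ms n)) : E3 → E3) x - Φ₀ x))
          (volume : Measure E3) := by
        have h3 : AEStronglyMeasurable (fun x => (v x) k) (volume : Measure E3) :=
          (EuclideanSpace.proj (𝕜 := ℝ) k).continuous.comp_aestronglyMeasurable
            (Lp.aestronglyMeasurable v)
        exact h3.smul ((Lp.aestronglyMeasurable _).sub (Lp.aestronglyMeasurable _))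
      exact hm.norm.pow 2
    · exact (integrable_norm_sq_real v).mul_const _
    · intro n
      filter_upwards [hb (ns (ms n)), hb0] with x g1 g2
      rw [Real.norm_of_nonneg (by positivity), norm_smul, mul_pow]
      have g3 : ‖(Φ (ns (ms n)) : E3 → E3) x - Φ₀ x‖ ≤ 2 * A := by
        refine (norm_sub_le _ _).trans ?_
        linarith
      have g4 := PiLp.norm_apply_le (v x) k
      gcongr
    · filter_upwards [hae] with x hx
      have g1 : Tendsto (fun n => (Φ (ns (ms n)) : E3 → E3) x - Φ₀ x) atTop (𝓝 0) := by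
        have := hx.sub_const (Φ₀ x)
        simpa using this
      have g2 := ((g1.const_smul ((v x) k)).norm.pow 2)
      simpa using g2
  rw [tendsto_iff_norm_sub_tendsto_zero]
  simp only [integral_zero] at l1
  simp only [← e1] at l1
  have l2 := l1.sqrt
  simp only [Real.sqrt_zero] at l2
  refine l2.congr fun n => ?_
  rw [Real.sqrt_sq (norm_nonneg _)]

variable {r : ℝ}

theorem bd_SS (hr : 0 < r) {f : V3} {A : ℝ} (hf : Bd f A) : Bd (SS hr f) A := bd_avL _ hf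

theorem norm_SS_le (hr : 0 < r) (f : V3) : ‖SS hr f‖ ≤ ‖f‖ := norm_avL_le _ f

/-- the radii -/
noncomputable def rn (n : ℕ) : ℝ := 1 / ((n:ℝ) + 1)

theorem rn_pos (n : ℕ) : 0 < rn n := by
  unfold rn
  positivity

theorem tendsto_SS (f : V3) : Tendsto (fun n => SS (rn_pos n) f) atTop (𝓝 f) :=
  tendsto_avL (fun n => ker_mu (rn_pos n)) tendsto_one_div_add_atTop_nhds_zero_nat f

theorem tendsto_SS_SS (f : V3) :
    Tendsto (fun n => SS (rn_pos n) (SS (rn_pos n) f)) atTop (𝓝 f) := by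
  have h1 := tendsto_iff_norm_sub_tendsto_zero.1 (tendsto_SS f)
  have h2 := h1.add h1
  rw [add_zero] at h2
  rw [tendsto_iff_norm_sub_tendsto_zero]
  refine squeeze_zero (fun n => norm_nonneg _) (fun n => ?_) h2
  calc ‖SS (rn_pos n) (SS (rn_pos n) f) - f‖
      = ‖SS (rn_pos n) (SS (rn_pos n) f - f) + (SS (rn_pos n) f - f)‖ := by
        congr 1
        rw [map_sub]
        abel
    _ ≤ ‖SS (rn_pos n) (SS (rn_pos n) f - f)‖ + ‖SS (rn_pos n) f - f‖ := norm_add_le _ _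
    _ ≤ ‖SS (rn_pos n) f - f‖ + ‖SS (rn_pos n) f - f‖ := by
        gcongr
        exact norm_SS_le _ _

/-- the cancellation for a bounded field -/
theorem cancel_bdd {u v : V3} {A : ℝ} (hu : Bd u A) (hd : IsDivFree v) {du : Fin 3 → V3}
    (h : ∀ k, IsWeakDeriv k u (du k)) : ∑ k, ⟪du k, tens k v u⟫_ℝ = 0 := by
  have key : ∀ {r : ℝ} (hr : 0 < r), ∑ k, ⟪SS hr (du k), tens k v (SS hr u)⟫_ℝ = 0 := by
    intro r hr
    obtain ⟨ψ, h1, h2⟩ := exists_seq_H1 h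
    obtain ⟨C, hC, hb⟩ := exists_bd_SS hr
    have l3 : ∀ k, Tendsto (fun n => tens k v (SS hr (emb (ψ n)))) atTop
        (𝓝 (tens k v (SS hr u))) := by
      intro k
      rw [tendsto_iff_norm_sub_tendsto_zero]
      have h5 := ((tendsto_iff_norm_sub_tendsto_zero.1 h1).const_mul C).mul_const ‖v‖
      rw [mul_zero, zero_mul] at h5
      refine squeeze_zero (fun n => norm_nonneg _) (fun n => ?_) h5
      apply tens_sub_right_le k v (hb _) (hb _)
      rw [← map_sub]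
      exact hb _
    have l4 : Tendsto (fun n => ∑ k, ⟪SS hr (emb (∂_{ee k} (ψ n))),
        tens k v (SS hr (emb (ψ n)))⟫_ℝ) atTop
        (𝓝 (∑ k, ⟪SS hr (du k), tens k v (SS hr u)⟫_ℝ)) :=
      tendsto_finsetSum _ fun k _ => (((SS hr).continuous.tendsto _).comp (h2 k)).inner (l3 k)
    refine tendsto_nhds_unique l4 (tendsto_const_nhds.congr fun n => ?_)
    have h6 := anti_schwartz hd (mol hr (ψ n)) (mol hr (ψ n))
    simp only [lineDeriv_mol, ← SS_emb] at h6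
    linarith
  have l : Tendsto (fun n => ∑ k, ⟪SS (rn_pos n) (du k), tens k v (SS (rn_pos n) u)⟫_ℝ) atTop
      (𝓝 (∑ k, ⟪du k, tens k v u⟫_ℝ)) :=
    tendsto_finsetSum _ fun k _ => (tendsto_SS (du k)).inner
      (tendsto_tens k v (tendsto_SS u) (fun n => bd_SS _ hu) hu)
  simp only [key] at l
  exact (tendsto_nhds_unique l tendsto_const_nhds)

theorem zr_eq (hr : 0 < r) {u v : V3} {A : ℝ} (hu : Bd u A) (hdv : IsDivFree v)
    {du dv : Fin 3 → V3} (h : ∀ k, IsWeakDeriv k u (du k)) (h' : ∀ k, IsWeakDeriv k v (dv k)) :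
    zr hr u v = ∑ k, ⟪SS hr (dv k - du k), SS hr (du k)⟫_ℝ -
      ∑ k, ⟪SS hr (SS hr (dv k - du k)), tens k u u⟫_ℝ + ∑ k, ⟪SS hr (du k), SS hr (dv k)⟫_ℝ +
      ∑ k, ⟪dv k, tens k v (SS hr (SS hr u))⟫_ℝ := by
  have hw : ∀ k, IsWeakDeriv k (v - u) (dv k - du k) := fun k => (h' k).sub (h k)
  unfold zr rh
  rw [inner_LL hr hw h, inner_LL hr h h', inner_GG_bdd hr hw hu, inner_GG_unbdd hr u hdv h']
  ring

theorem tens_sub_left (k : Fin 3) (v u : V3) {f : V3} {A : ℝ} (hf : Bd f A) :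
    tens k (v - u) f = tens k v f - tens k u f := by
  apply Lp.ext
  filter_upwards [Lp.coeFn_sub (tens k v f) (tens k u f), Lp.coeFn_sub v u,
    coe_tens_right k v hf, coe_tens_right k u hf, coe_tens_right k (v - u) hf]
    with x h1 h2 h3 h4 h5
  rw [h5, h1, Pi.sub_apply, h3, h4, h2, Pi.sub_apply, PiLp.sub_apply, sub_smul]

/-- the limit of `zr` -/
noncomputable def z0 (u v : V3) (du dv : Fin 3 → V3) : ℝ :=
  ∑ k, ‖dv k‖ ^ 2 - ∑ k, ‖dv k - du k‖ ^ 2 + ∑ k, ⟪dv k - du k, tens k (v - u) u⟫_ℝ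

theorem tendsto_zr {u v : V3} {A : ℝ} (hu : Bd u A) (hdv : IsDivFree v)
    {du dv : Fin 3 → V3} (h : ∀ k, IsWeakDeriv k u (du k)) (h' : ∀ k, IsWeakDeriv k v (dv k)) :
    Tendsto (fun n => zr (rn_pos n) u v) atTop (𝓝 (z0 u v du dv)) := by
  have l1 : Tendsto (fun n => zr (rn_pos n) u v) atTop (𝓝 (∑ k, ⟪dv k - du k, du k⟫_ℝ -
      ∑ k, ⟪dv k - du k, tens k u u⟫_ℝ + ∑ k, ⟪du k, dv k⟫_ℝ +
      ∑ k, ⟪dv k, tens k v u⟫_ℝ)) := by
    have e1 : ∀ n, zr (rn_pos n) u v = _ := fun n => zr_eq (rn_pos n) hu hdv h h'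
    simp only [e1]
    refine ((Tendsto.sub ?_ ?_).add ?_).add ?_
    · exact tendsto_finsetSum _ fun k _ => (tendsto_SS _).inner (tendsto_SS _)
    · exact tendsto_finsetSum _ fun k _ => (tendsto_SS_SS _).inner tendsto_const_nhds
    · exact tendsto_finsetSum _ fun k _ => (tendsto_SS _).inner (tendsto_SS _)
    · exact tendsto_finsetSum _ fun k _ => tendsto_const_nhds.inner
        (tendsto_tens k v (tendsto_SS_SS u) (fun n => bd_SS _ (bd_SS _ hu)) hu)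
  convert l1 using 2
  have hc := cancel_bdd hu hdv h
  have e1 : ∑ k, ‖dv k‖ ^ 2 - ∑ k, ‖dv k - du k‖ ^ 2 =
      ∑ k, ⟪dv k - du k, du k⟫_ℝ + ∑ k, ⟪du k, dv k⟫_ℝ := by
    rw [← Finset.sum_sub_distrib, ← Finset.sum_add_distrib]
    refine Finset.sum_congr rfl fun k _ => ?_
    rw [norm_sub_sq_real, inner_sub_left, real_inner_self_eq_norm_sq, real_inner_comm (dv k)]
    ring
  have e2 : ∑ k, ⟪dv k - du k, tens k (v - u) u⟫_ℝ =
      ∑ k, ⟪dv k, tens k v u⟫_ℝ - ∑ k, ⟪du k, tens k v u⟫_ℝ -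
      ∑ k, ⟪dv k - du k, tens k u u⟫_ℝ := by
    rw [← Finset.sum_sub_distrib, ← Finset.sum_sub_distrib]
    refine Finset.sum_congr rfl fun k _ => ?_
    rw [tens_sub_left k v u hu, inner_sub_right, inner_sub_left (dv k) (du k) (tens k v u)]
  rw [z0, e1, e2, hc]
  ring

theorem abs_zr_le (hr : 0 < r) {u v : V3} {A : ℝ} (hA : 0 ≤ A) (hu : Bd u A) (hdv : IsDivFree v)
    {du dv : Fin 3 → V3} (h : ∀ k, IsWeakDeriv k u (du k)) (h' : ∀ k, IsWeakDeriv k v (dv k)) :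
    |zr hr u v| ≤ 3 * (∑ k, ‖du k‖ ^ 2 + ∑ k, ‖dv k‖ ^ 2) + 2 * A ^ 2 * (‖u‖ ^ 2 + ‖v‖ ^ 2) := by
  rw [zr_eq hr hu hdv h h', ← Finset.sum_sub_distrib, ← Finset.sum_add_distrib,
    ← Finset.sum_add_distrib]
  refine (Finset.abs_sum_le_sum_abs _ _).trans ?_
  have key : ∀ k, |⟪SS hr (dv k - du k), SS hr (du k)⟫_ℝ -
      ⟪SS hr (SS hr (dv k - du k)), tens k u u⟫_ℝ + ⟪SS hr (du k), SS hr (dv k)⟫_ℝ +
      ⟪dv k, tens k v (SS hr (SS hr u))⟫_ℝ| ≤
      3 * (‖du k‖ ^ 2 + ‖dv k‖ ^ 2) + (2 / 3) * A ^ 2 * (‖u‖ ^ 2 + ‖v‖ ^ 2) := by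
    intro k
    have n1 : ‖dv k - du k‖ ≤ ‖dv k‖ + ‖du k‖ := norm_sub_le _ _
    have a1 : |⟪SS hr (dv k - du k), SS hr (du k)⟫_ℝ| ≤ (‖dv k‖ + ‖du k‖) * ‖du k‖ := by
      refine (abs_real_inner_le_norm _ _).trans ?_
      exact mul_le_mul ((norm_SS_le hr _).trans n1) (norm_SS_le hr _) (norm_nonneg _)
        (by positivity)
    have a2 : |⟪SS hr (SS hr (dv k - du k)), tens k u u⟫_ℝ| ≤
        (‖dv k‖ + ‖du k‖) * (A * ‖u‖) := by
      refine (abs_real_inner_le_norm _ _).trans ?_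
      exact mul_le_mul (((norm_SS_le hr _).trans (norm_SS_le hr _)).trans n1)
        (norm_tens_right_le k u hu) (norm_nonneg _) (by positivity)
    have a3 : |⟪SS hr (du k), SS hr (dv k)⟫_ℝ| ≤ ‖du k‖ * ‖dv k‖ := by
      refine (abs_real_inner_le_norm _ _).trans ?_
      exact mul_le_mul (norm_SS_le hr _) (norm_SS_le hr _) (norm_nonneg _) (by positivity)
    have a4 : |⟪dv k, tens k v (SS hr (SS hr u))⟫_ℝ| ≤ ‖dv k‖ * (A * ‖v‖) := by
      refine (abs_real_inner_le_norm _ _).trans ?_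
      exact mul_le_mul_of_nonneg_left (norm_tens_right_le k v (bd_SS _ (bd_SS _ hu)))
        (norm_nonneg _)
    have a5 : |⟪SS hr (dv k - du k), SS hr (du k)⟫_ℝ -
        ⟪SS hr (SS hr (dv k - du k)), tens k u u⟫_ℝ + ⟪SS hr (du k), SS hr (dv k)⟫_ℝ +
        ⟪dv k, tens k v (SS hr (SS hr u))⟫_ℝ| ≤ |⟪SS hr (dv k - du k), SS hr (du k)⟫_ℝ| +
        |⟪SS hr (SS hr (dv k - du k)), tens k u u⟫_ℝ| + |⟪SS hr (du k), SS hr (dv k)⟫_ℝ| +
        |⟪dv k, tens k v (SS hr (SS hr u))⟫_ℝ| := by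
      refine (abs_add_le _ _).trans ?_
      gcongr
      refine (abs_add_le _ _).trans ?_
      gcongr
      exact abs_sub _ _
    have a6 : (‖dv k‖ + ‖du k‖) * ‖du k‖ + (‖dv k‖ + ‖du k‖) * (A * ‖u‖) + ‖du k‖ * ‖dv k‖ +
        ‖dv k‖ * (A * ‖v‖) ≤
        3 * (‖du k‖ ^ 2 + ‖dv k‖ ^ 2) + (2 / 3) * A ^ 2 * (‖u‖ ^ 2 + ‖v‖ ^ 2) := by
      set x := ‖dv k‖
      set y := ‖du k‖
      set p := A * ‖u‖ with hp
      set q := A * ‖v‖ with hq
      have e1 : (2 / 3) * A ^ 2 * (‖u‖ ^ 2 + ‖v‖ ^ 2) = (2 / 3) * (p ^ 2 + q ^ 2) := by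
        rw [hp, hq]
        ring
      rw [e1]
      nlinarith [sq_nonneg (p - (3 / 4) * (x + y)), sq_nonneg (q - (3 / 4) * x),
        sq_nonneg (x - y), sq_nonneg x, sq_nonneg y]
    linarith
  refine (Finset.sum_le_sum fun k _ => key k).trans (le_of_eq ?_)
  rw [Finset.sum_add_distrib, ← Finset.mul_sum, Finset.sum_add_distrib]
  simp
  ring

end Pool.Agent.TC
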