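import Pool.Agent.TC.Op

/-!
# The local energy, and the weighted estimate with a Carleson bound
-/

set_option autoImplicit false

namespace Pool.Agent.TC

open MeasureTheory Set Filter Topology Pool.Agent.TO Pool.Agent.TB
open scoped ENNReal NNReal Real InnerProductSpace SchwartzMap LineDeriv Laplacian

/-- the energy of `f` in the ball of radius `R` about `z` -/
noncomputable def lE (R : ℝ) (f : V3) (z : E3) : ℝ≥0∞ :=
  ∫⁻ x in Metric.closedBall z R, ‖f x‖ₑ ^ 2

theorem continuous_lE (R : ℝ) (z : E3) : Continuous fun f : V3 => lE R f z := by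
  have h1 : ∀ f : V3, lE R f z =
      ENNReal.ofReal (‖LpToLpRestrictCLM E3 E3 ℝ (volume : Measure E3) 2
        (Metric.closedBall z R) f‖ ^ 2) := by
    intro f
    have h2 : ‖LpToLpRestrictCLM E3 E3 ℝ (volume : Measure E3) 2
        (Metric.closedBall z R) f‖ₑ ^ 2 = ∫⁻ x in Metric.closedBall z R,
        ‖(LpToLpRestrictCLM E3 E3 ℝ (volume : Measure E3) 2 (Metric.closedBall z R) f) x‖ₑ ^ 2 := by
      rw [Lp.enorm_def, eLpNorm_eq_lintegral_rpow_enorm_toReal (by norm_num) (by norm_num)]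
      simp only [ENNReal.toReal_ofNat]
      rw [← ENNReal.rpow_natCast, ← ENNReal.rpow_mul]
      norm_num
    rw [ENNReal.ofReal_pow (norm_nonneg _), ofReal_norm, h2, lE]
    apply lintegral_congr_ae
    filter_upwards [LpToLpRestrictCLM_coeFn ℝ (Metric.closedBall z R) f] with x hx
    rw [hx]
  simp only [h1]
  exact ENNReal.continuous_ofReal.comp (by fun_prop)

theorem measurable_lE (R : ℝ) (f : V3) : Measurable fun z => lE R f z := by
  have h1 : ∀ z, lE R f z = ∫⁻ x, (indicator {p : E3 × E3 | dist p.2 p.1 ≤ R}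
      (fun p => ‖f p.2‖ₑ ^ 2)) (z, x) := by
    intro z
    rw [lE, ← lintegral_indicator Metric.isClosed_closedBall.measurableSet]
    rfl
  simp only [h1]
  apply Measurable.lintegral_prod_right'
    (f := indicator {p : E3 × E3 | dist p.2 p.1 ≤ R} (fun p => ‖f p.2‖ₑ ^ 2))
  apply Measurable.indicator
  · exact ((Lp.stronglyMeasurable f).measurable.comp measurable_snd).enorm.pow_const 2
  · have : IsClosed {p : E3 × E3 | dist p.2 p.1 ≤ R} := by
      apply isClosed_le <;> fun_prop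
    exact this.measurableSet

theorem measurable_uncurry_lE (R : ℝ) {g : ℝ → V3} (hg : StronglyMeasurable g) :
    Measurable (Function.uncurry fun (τ : ℝ) (z : E3) => lE R (g τ) z) := by
  refine measurable_of_tendsto_metrizable
    (f := fun (n : ℕ) (p : ℝ × E3) => lE R (hg.approx n p.1) p.2) (fun n => ?_) ?_
  · have h1 := SimpleFunc.measurable_bind ((hg.approx n).comp Prod.fst measurable_fst)
      (fun (b : V3) (p : ℝ × E3) => lE R b p.2) (fun b => (measurable_lE R b).comp measurable_snd)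
    exact h1
  · rw [tendsto_pi_nhds]
    intro p
    exact ((continuous_lE R p.2).tendsto _).comp (hg.tendsto_approx p.1)

/-- a Carleson bound at scale `R`, up to time `t` -/
def Carl (t R K : ℝ) (g : ℝ → V3) : Prop :=
  ∀ z : E3, ∫⁻ τ in Ioo 0 t, lE R (g τ) z ≤ ENNReal.ofReal (K ^ 2 * R ^ 3)

/-- the weighted local energy -/
theorem weighted_carl {t R K : ℝ} {g : ℝ → V3} (h : Carl t R K g)
    (hg : AEStronglyMeasurable g (volume.restrict (Ioo 0 t))) {c : E3 → ℝ≥0∞} (hc : Measurable c) :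
    ∫⁻ τ in Ioo 0 t, ∫⁻ z, c z * lE R (g τ) z ≤
      ENNReal.ofReal (K ^ 2 * R ^ 3) * ∫⁻ z, c z := by
  obtain ⟨g', hg', hae⟩ := hg
  have e1 : ∫⁻ τ in Ioo 0 t, ∫⁻ z, c z * lE R (g τ) z =
      ∫⁻ τ in Ioo 0 t, ∫⁻ z, c z * lE R (g' τ) z := by
    apply lintegral_congr_ae
    filter_upwards [hae] with τ hτ
    rw [hτ]
  have e2 : ∀ z, ∫⁻ τ in Ioo 0 t, lE R (g' τ) z = ∫⁻ τ in Ioo 0 t, lE R (g τ) z := by
    intro z
    apply lintegral_congr_ae
    filter_upwards [hae] with τ hτ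
    rw [hτ]
  have hm := measurable_uncurry_lE R hg'
  have hm2 : Measurable (Function.uncurry fun (τ : ℝ) (z : E3) => c z * lE R (g' τ) z) :=
    (hc.comp measurable_snd).mul hm
  rw [e1]
  have e4 := lintegral_lintegral_swap (μ := volume.restrict (Ioo 0 t)) (ν := (volume : Measure E3)) hm2.aemeasurable
  have e5 : ∀ z, ∫⁻ τ in Ioo 0 t, c z * lE R (g' τ) z = c z * ∫⁻ τ in Ioo 0 t, lE R (g τ) z := by
    intro z
    have hmz : Measurable fun τ => lE R (g' τ) z :=
      Measurable.of_uncurry_right (f := fun (τ : ℝ) (z : E3) => lE R (g' τ) z) hm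
    rw [lintegral_const_mul _ hmz, e2]
  calc _ = _ := e4
    _ = ∫⁻ z, c z * ∫⁻ τ in Ioo 0 t, lE R (g τ) z := lintegral_congr e5
    _ ≤ ∫⁻ z, c z * ENNReal.ofReal (K ^ 2 * R ^ 3) := by
      apply lintegral_mono
      intro z
      have hz := h z
      beta_reduce
      exact mul_le_mul_of_nonneg_left hz zero_le
    _ = ENNReal.ofReal (K ^ 2 * R ^ 3) * ∫⁻ z, c z := by
      rw [lintegral_mul_const _ hc, mul_comm]


/-- the space integral -/
theorem lintegral_gsq_mul_le {κ : Fin 3 → 𝓢(E3, ℝ)} {A r : ℝ} (h : ∀ k, KBdd (κ k) A r)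
    (hA : 0 ≤ A) (hr : 0 ≤ r) (ψ : 𝓢(E3, E3)) (f : V3) :
    ∫⁻ x, ‖f x‖ₑ ^ 2 * ∑ k, ‖mK (κ k) ψ x‖ₑ ^ 2 ≤
      ENNReal.ofReal (3 * A ^ 2 * (om * r ^ 3)) * ∫⁻ z, ‖ψ z‖ₑ ^ 2 * lE r f z := by
  have hom := om_pos
  have hψm : Measurable fun z => ‖ψ z‖ₑ ^ 2 := ψ.continuous.measurable.enorm.pow_const 2
  have hfm : Measurable fun z => ‖f z‖ₑ ^ 2 :=
    (Lp.stronglyMeasurable f).measurable.enorm.pow_const 2
  set D : ℝ≥0∞ := ENNReal.ofReal (3 * A ^ 2 * (om * r ^ 3)) with hD
  have h1 : ∀ x, ∑ k, ‖mK (κ k) ψ x‖ₑ ^ 2 ≤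
      D * ∫⁻ z in Metric.closedBall x r, ‖ψ z‖ₑ ^ 2 := by
    intro x
    have e1 : ∫⁻ y in Metric.closedBall (0:E3) r, ‖ψ (x - y)‖ₑ ^ 2 =
        ∫⁻ z in Metric.closedBall x r, ‖ψ z‖ₑ ^ 2 := by
      rw [← lintegral_indicator Metric.isClosed_closedBall.measurableSet,
        ← lintegral_indicator Metric.isClosed_closedBall.measurableSet,
        ← lintegral_sub_left_eq_self ((Metric.closedBall x r).indicator
          (fun z => ‖ψ z‖ₑ ^ 2)) x]
      apply lintegral_congr
      intro y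
      by_cases hy : y ∈ Metric.closedBall (0:E3) r
      · have hy' : x - y ∈ Metric.closedBall x r := by
          rw [Metric.mem_closedBall, dist_zero_right] at hy
          rw [Metric.mem_closedBall, dist_eq_norm]
          simpa using hy
        rw [indicator_of_mem hy, indicator_of_mem hy']
      · have hy' : x - y ∉ Metric.closedBall x r := by
          rw [Metric.mem_closedBall, dist_zero_right] at hy
          rw [Metric.mem_closedBall, dist_eq_norm]
          simpa using hy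
        rw [indicator_of_notMem hy, indicator_of_notMem hy']
    calc ∑ k, ‖mK (κ k) ψ x‖ₑ ^ 2
        ≤ ∑ _k : Fin 3, ENNReal.ofReal (A ^ 2) * (volume (Metric.closedBall (0:E3) r)) *
          ∫⁻ z in Metric.closedBall x r, ‖ψ z‖ₑ ^ 2 := by
          refine Finset.sum_le_sum fun k _ => ?_
          rw [← e1]
          exact sq_mK_le (h k) hA ψ x
      _ = D * ∫⁻ z in Metric.closedBall x r, ‖ψ z‖ₑ ^ 2 := by
          rw [Finset.sum_const, Finset.card_univ, Fintype.card_fin, vol_closedBall hr,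
            ← ENNReal.ofReal_mul (by positivity), nsmul_eq_mul, ← mul_assoc, hD]
          congr 1
          rw [mul_assoc (3:ℝ), ENNReal.ofReal_mul (by norm_num : (0:ℝ) ≤ 3)]
          norm_num
  set S : Set (E3 × E3) := {p : E3 × E3 | dist p.1 p.2 ≤ r} with hS
  have hSm : MeasurableSet S := by
    have : IsClosed S := by
      apply isClosed_le <;> fun_prop
    exact this.measurableSet
  have hm : Measurable (Function.uncurry fun x z : E3 =>
      S.indicator (fun p => ‖f p.1‖ₑ ^ 2 * ‖ψ p.2‖ₑ ^ 2) (x, z)) := by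
    have : Measurable (S.indicator (fun p : E3 × E3 => ‖f p.1‖ₑ ^ 2 * ‖ψ p.2‖ₑ ^ 2)) :=
      ((hfm.comp measurable_fst).mul (hψm.comp measurable_snd)).indicator hSm
    exact this
  have e2 : ∀ x, ‖f x‖ₑ ^ 2 * ∫⁻ z in Metric.closedBall x r, ‖ψ z‖ₑ ^ 2 =
      ∫⁻ z, S.indicator (fun p => ‖f p.1‖ₑ ^ 2 * ‖ψ p.2‖ₑ ^ 2) (x, z) := by
    intro x
    rw [← lintegral_indicator Metric.isClosed_closedBall.measurableSet, ← lintegral_const_mul _
      (hψm.indicator Metric.isClosed_closedBall.measurableSet)]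
    apply lintegral_congr
    intro z
    by_cases hz : dist z x ≤ r
    · have h3 : z ∈ Metric.closedBall x r := hz
      have h4 : (x, z) ∈ S := by
        rw [hS, mem_setOf_eq, dist_comm]
        exact hz
      rw [indicator_of_mem h3, indicator_of_mem h4]
    · have h3 : z ∉ Metric.closedBall x r := hz
      have h4 : (x, z) ∉ S := by
        rw [hS, mem_setOf_eq, dist_comm]
        exact hz
      rw [indicator_of_notMem h3, indicator_of_notMem h4, mul_zero]
  have e3 : ∀ z, ‖ψ z‖ₑ ^ 2 * lE r f z =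
      ∫⁻ x, S.indicator (fun p => ‖f p.1‖ₑ ^ 2 * ‖ψ p.2‖ₑ ^ 2) (x, z) := by
    intro z
    rw [lE, ← lintegral_indicator Metric.isClosed_closedBall.measurableSet,
      ← lintegral_const_mul _ (hfm.indicator Metric.isClosed_closedBall.measurableSet)]
    apply lintegral_congr
    intro x
    by_cases hz : dist x z ≤ r
    · have h3 : x ∈ Metric.closedBall z r := hz
      have h4 : (x, z) ∈ S := hz
      rw [indicator_of_mem h3, indicator_of_mem h4, mul_comm]
    · have h3 : x ∉ Metric.closedBall z r := hz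
      have h4 : (x, z) ∉ S := hz
      rw [indicator_of_notMem h3, indicator_of_notMem h4, mul_zero]
  calc ∫⁻ x, ‖f x‖ₑ ^ 2 * ∑ k, ‖mK (κ k) ψ x‖ₑ ^ 2
      ≤ ∫⁻ x, D * (‖f x‖ₑ ^ 2 * ∫⁻ z in Metric.closedBall x r, ‖ψ z‖ₑ ^ 2) := by
        apply lintegral_mono
        intro x
        calc ‖f x‖ₑ ^ 2 * ∑ k, ‖mK (κ k) ψ x‖ₑ ^ 2
            ≤ ‖f x‖ₑ ^ 2 * (D * ∫⁻ z in Metric.closedBall x r, ‖ψ z‖ₑ ^ 2) := by
              gcongr
              exact h1 x
          _ = _ := by ring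
    _ = D * ∫⁻ x, ‖f x‖ₑ ^ 2 * ∫⁻ z in Metric.closedBall x r, ‖ψ z‖ₑ ^ 2 := by
        simp only [e2]
        have hm' : Measurable fun x => ∫⁻ z, S.indicator
            (fun p : E3 × E3 => ‖f p.1‖ₑ ^ 2 * ‖ψ p.2‖ₑ ^ 2) (x, z) := hm.lintegral_prod_right'
        rw [lintegral_const_mul _ hm']
    _ = D * ∫⁻ z, ‖ψ z‖ₑ ^ 2 * lE r f z := by
        simp only [e2, e3]
        rw [lintegral_lintegral_swap hm.aemeasurable]

end Pool.Agent.TC
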