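import Pool.Agent.TC.FixLim
import Pool.Agent.TO.Main

/-!
# The relative energy of a bounded solution and an arbitrary Leray solution
-/

set_option autoImplicit false

namespace Pool.Agent.TC

open MeasureTheory Set Filter Topology Pool.Agent.TO Pool.Agent.TB
open scoped ENNReal NNReal Real InnerProductSpace SchwartzMap LineDeriv Laplacian

/-- A solution `u` with bound `a` and a solution `v`, with their gradients. -/
structure Rel (T : ℝ) (u₀ v₀ : V3) (u v : ℝ → V3) (a : ℝ → ℝ) (Du Dv : ℝ → Fin 3 → V3) :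
    Prop where
  hu : IsLeray T u₀ u
  hv : IsLeray T v₀ v
  ha0 : ∀ t, 0 ≤ a t
  hua : BddBy T u a
  hDu : ∀ᵐ t ∂(volume.restrict (Ioo 0 T)), ∀ k, IsWeakDeriv k (u t) (Du t k)
  hDv : ∀ᵐ t ∂(volume.restrict (Ioo 0 T)), ∀ k, IsWeakDeriv k (v t) (Dv t k)
  hDui : ∀ t ∈ Ico 0 T, IntegrableOn (fun τ => ∑ k, ‖Du τ k‖ ^ 2) (Ioo 0 t) volume
  hDvi : ∀ t ∈ Ico 0 T, IntegrableOn (fun τ => ∑ k, ‖Dv τ k‖ ^ 2) (Ioo 0 t) volume
  hen : ∀ t ∈ Ico 0 T, ‖v t‖ ^ 2 + 2 * ∫ τ in Ioo 0 t, ∑ k, ‖Dv τ k‖ ^ 2 ≤ ‖v₀‖ ^ 2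

/-- a Leray solution has an integrable squared gradient, and the energy inequality -/
theorem exists_grad_en {T : ℝ} {u₀ : V3} {u : ℝ → V3} (h : IsLeray T u₀ u) :
    ∃ D : ℝ → Fin 3 → V3,
    (∀ᵐ t ∂(volume.restrict (Ioo 0 T)), ∀ k, IsWeakDeriv k (u t) (D t k)) ∧
    (∀ t ∈ Ico 0 T, IntegrableOn (fun τ => ∑ k, ‖D τ k‖ ^ 2) (Ioo 0 t) volume) ∧
    ∀ t ∈ Ico 0 T, ‖u t‖ ^ 2 + 2 * ∫ τ in Ioo 0 t, ∑ k, ‖D τ k‖ ^ 2 ≤ ‖u₀‖ ^ 2 := by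
  obtain ⟨D, h1, h2⟩ := h.energy
  have hi : ∀ t ∈ Ico 0 T, IntegrableOn (fun τ => ∑ k, ‖D τ k‖ ^ 2) (Ioo 0 t) volume := by
    intro t ht
    have hsub : Ioo 0 t ⊆ Ioo 0 T := Ioo_subset_Ioo le_rfl ht.2.le
    have hmeas : AEStronglyMeasurable (fun τ => ∑ k, ‖D τ k‖ ^ 2) (volume.restrict (Ioo 0 t)) := by
      refine Finset.aestronglyMeasurable_fun_sum _ fun k _ => ?_
      have h3 : AEStronglyMeasurable (fun τ => ‖D τ k‖) (volume.restrict (Ioo 0 t)) := by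
        apply meas_weak (k := k) (f := u) (h.meas.mono_measure (Measure.restrict_mono hsub le_rfl))
        filter_upwards [ae_restrict_of_ae_restrict_of_subset hsub h1] with τ hτ
        exact hτ k
      exact h3.pow 2
    refine ⟨hmeas, ?_⟩
    rw [hasFiniteIntegral_iff_enorm]
    have h3 : ∀ τ, ‖∑ k, ‖D τ k‖ ^ 2‖ₑ = ∑ k, ‖D τ k‖ₑ ^ 2 := by
      intro τ
      rw [Real.enorm_of_nonneg (Finset.sum_nonneg fun k _ => by positivity),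
        ENNReal.ofReal_sum_of_nonneg (fun k _ => by positivity)]
      exact Finset.sum_congr rfl fun k _ => (sq_enorm_eq _).symm
    simp only [h3]
    have h4 : 2 * ∫⁻ s in Ioo 0 t, ∑ k, ‖D s k‖ₑ ^ 2 ≤ ‖u₀‖ₑ ^ 2 :=
      le_trans (le_add_of_nonneg_left zero_le) (h2 t ht)
    have h5 : ‖u₀‖ₑ ^ 2 < ∞ := by
      rw [sq_enorm_eq]
      exact ENNReal.ofReal_lt_top
    have h6 : 2 * ∫⁻ s in Ioo 0 t, ∑ k, ‖D s k‖ₑ ^ 2 < ∞ := h4.trans_lt h5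
    by_contra hcon
    push Not at hcon
    rw [top_le_iff.1 hcon] at h6
    simp at h6
  refine ⟨D, h1, hi, fun t ht => ?_⟩
  have h3 := h2 t ht
  have h4 : ∫⁻ s in Ioo 0 t, ∑ k, ‖D s k‖ₑ ^ 2 =
      ENNReal.ofReal (∫ τ in Ioo 0 t, ∑ k, ‖D τ k‖ ^ 2) := by
    rw [ofReal_integral_eq_lintegral_ofReal (hi t ht)
      (Eventually.of_forall fun τ => Finset.sum_nonneg fun k _ => by positivity)]
    apply lintegral_congr
    intro τ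
    rw [ENNReal.ofReal_sum_of_nonneg (fun k _ => by positivity)]
    exact Finset.sum_congr rfl fun k _ => sq_enorm_eq _
  have h5 : 0 ≤ ∫ τ in Ioo 0 t, ∑ k, ‖D τ k‖ ^ 2 :=
    integral_nonneg fun τ => Finset.sum_nonneg fun k _ => by positivity
  have h6 : (2:ℝ≥0∞) * ENNReal.ofReal (∫ τ in Ioo 0 t, ∑ k, ‖D τ k‖ ^ 2) =
      ENNReal.ofReal (2 * ∫ τ in Ioo 0 t, ∑ k, ‖D τ k‖ ^ 2) := by
    rw [ENNReal.ofReal_mul (by norm_num), ENNReal.ofReal_ofNat]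
  rw [h4, sq_enorm_eq, sq_enorm_eq, h6,
    ← ENNReal.ofReal_add (by positivity) (by positivity)] at h3
  exact (ENNReal.ofReal_le_ofReal_iff (by positivity)).1 h3

theorem exists_rel {T : ℝ} {u₀ v₀ : V3} {u v : ℝ → V3} {a : ℝ → ℝ} (hu : IsLeray T u₀ u)
    (hv : IsLeray T v₀ v) (ha0 : ∀ t, 0 ≤ a t) (hua : BddBy T u a) :
    ∃ Du Dv, Rel T u₀ v₀ u v a Du Dv := by
  obtain ⟨Du, h1, h2, -⟩ := exists_grad_en hu
  obtain ⟨Dv, h4, h5, h6⟩ := exists_grad_en hv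
  exact ⟨Du, Dv, hu, hv, ha0, hua, h1, h4, h2, h5, h6⟩

variable {T : ℝ} {u₀ v₀ : V3} {u v : ℝ → V3} {a : ℝ → ℝ} {Du Dv : ℝ → Fin 3 → V3}

/-- the functional `‖v - u‖² - ‖v‖²` -/
theorem Rel.Z_formula (P : Rel T u₀ v₀ u v a Du Dv) {s t : ℝ} (hs : 0 ≤ s) (hst : s ≤ t)
    (ht : t < T) (ha : IntegrableOn (fun τ => a τ ^ 2) (Ioo s t) volume) :
    IntegrableOn (fun τ => z0 (u τ) (v τ) (Du τ) (Dv τ)) (Ioo s t) volume ∧
    (‖v t - u t‖ ^ 2 - ‖v t‖ ^ 2) - (‖v s - u s‖ ^ 2 - ‖v s‖ ^ 2) =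
      2 * ∫ τ in Ioo s t, z0 (u τ) (v τ) (Du τ) (Dv τ) := by
  set g : ℝ → ℝ := fun τ => z0 (u τ) (v τ) (Du τ) (Dv τ) with hg
  set F : ℕ → ℝ → ℝ := fun n τ => zr (rn_pos n) (u τ) (v τ) with hF
  set M : ℝ → ℝ := fun τ => 3 * (∑ k, ‖Du τ k‖ ^ 2 + ∑ k, ‖Dv τ k‖ ^ 2) +
    2 * a τ ^ 2 * (‖u₀‖ ^ 2 + ‖v₀‖ ^ 2) with hM
  have hsubT : Ioo s t ⊆ Ioo 0 T := Ioo_subset_Ioo hs ht.le
  have hsub0 : Ioo s t ⊆ Ioo 0 t := Ioo_subset_Ioo hs le_rfl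
  have ht0 : t ∈ Ico 0 T := ⟨hs.trans hst, ht⟩
  have hDu := ae_restrict_of_ae_restrict_of_subset hsubT P.hDu
  have hDv := ae_restrict_of_ae_restrict_of_subset hsubT P.hDv
  have hua := ae_restrict_of_ae_restrict_of_subset hsubT P.hua
  have hMi : IntegrableOn M (Ioo s t) volume :=
    ((((P.hDui t ht0).mono_set hsub0).add ((P.hDvi t ht0).mono_set hsub0)).const_mul 3).add
      ((ha.const_mul 2).mul_const _)
  have hFi : ∀ n, IntegrableOn (F n) (Ioo s t) volume := by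
    intro n
    have := (Zr_formula P.hu P.hv (rn_pos n) hs hst ht).1
    rwa [intervalIntegrable_iff_integrableOn_Ioo_of_le hst] at this
  have hlim : ∀ᵐ τ ∂(volume.restrict (Ioo s t)), Tendsto (fun n => F n τ) atTop (𝓝 (g τ)) := by
    filter_upwards [hDu, hDv, hua, ae_restrict_mem measurableSet_Ioo] with τ h1 h2 h3 h4
    exact tendsto_zr h3 (P.hv.div τ ⟨hs.trans h4.1.le, h4.2.trans ht⟩) h1 h2
  have hbound : ∀ n, ∀ᵐ τ ∂(volume.restrict (Ioo s t)), ‖F n τ‖ ≤ M τ := by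
    intro n
    filter_upwards [hDu, hDv, hua, ae_restrict_mem measurableSet_Ioo] with τ h1 h2 h3 h4
    have hτ : τ ∈ Ico 0 T := ⟨hs.trans h4.1.le, h4.2.trans ht⟩
    rw [Real.norm_eq_abs]
    refine (abs_zr_le (rn_pos n) (P.ha0 τ) h3 (P.hv.div τ hτ) h1 h2).trans ?_
    have g1 := P.hu.norm_le hτ
    have g2 := P.hv.norm_le hτ
    simp only [hM]
    gcongr
  have hgi : IntegrableOn g (Ioo s t) volume := by
    refine Integrable.mono' hMi (aestronglyMeasurable_of_tendsto_ae atTop (fun n => (hFi n).1)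
      hlim) ?_
    filter_upwards [hlim, ae_all_iff.2 hbound] with τ h1 h2
    exact le_of_tendsto h1.norm (Eventually.of_forall h2)
  refine ⟨hgi, ?_⟩
  have lim1 : Tendsto (fun n => 2 * ∫ τ in Ioo s t, F n τ) atTop
      (𝓝 (2 * ∫ τ in Ioo s t, g τ)) :=
    (tendsto_integral_of_dominated_convergence M (fun n => (hFi n).1) hMi hbound hlim).const_mul 2
  have lz : ∀ τ, Tendsto (fun n => Zr (rn_pos n) (u τ) (v τ)) atTop
      (𝓝 (‖v τ - u τ‖ ^ 2 - ‖v τ‖ ^ 2)) := fun τ =>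
    ((tendsto_SS (v τ - u τ)).norm.pow 2).sub ((tendsto_SS (v τ)).norm.pow 2)
  have heq : ∀ n : ℕ, Zr (rn_pos n) (u t) (v t) - Zr (rn_pos n) (u s) (v s) =
      2 * ∫ τ in Ioo s t, F n τ := by
    intro n
    rw [(Zr_formula P.hu P.hv (rn_pos n) hs hst ht).2, intervalIntegral.integral_of_le hst,
      integral_Ioc_eq_integral_Ioo]
  have lim2 := (lz t).sub (lz s)
  simp only [heq] at lim2
  exact tendsto_nhds_unique lim2 lim1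

/-- the relative energy -/
noncomputable def RE (v₀ : V3) (u v : ℝ → V3) (Dv : ℝ → Fin 3 → V3) (t : ℝ) : ℝ :=
  ‖v₀‖ ^ 2 - 2 * (∫ τ in Ioo 0 t, ∑ k, ‖Dv τ k‖ ^ 2) + (‖v t - u t‖ ^ 2 - ‖v t‖ ^ 2)

theorem Rel.le_RE (P : Rel T u₀ v₀ u v a Du Dv) {t : ℝ} (ht : t ∈ Ico 0 T) :
    ‖v t - u t‖ ^ 2 ≤ RE v₀ u v Dv t := by
  have := P.hen t ht
  unfold RE
  linarith

/-- the derivative of the relative energy -/
noncomputable def re0 (u v : V3) (du dv : Fin 3 → V3) : ℝ :=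
  -∑ k, ‖dv k - du k‖ ^ 2 + ∑ k, ⟪dv k - du k, tens k (v - u) u⟫_ℝ

theorem Rel.RE_formula (P : Rel T u₀ v₀ u v a Du Dv) {s t : ℝ} (hs : 0 ≤ s) (hst : s ≤ t)
    (ht : t < T) (ha : IntegrableOn (fun τ => a τ ^ 2) (Ioo s t) volume) :
    IntegrableOn (fun τ => re0 (u τ) (v τ) (Du τ) (Dv τ)) (Ioo s t) volume ∧
    RE v₀ u v Dv t - RE v₀ u v Dv s = 2 * ∫ τ in Ioo s t, re0 (u τ) (v τ) (Du τ) (Dv τ) := by
  obtain ⟨i1, e1⟩ := P.Z_formula hs hst ht ha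
  have ht0 : t ∈ Ico 0 T := ⟨hs.trans hst, ht⟩
  have i2 := (P.hDvi t ht0).mono_set (Ioo_subset_Ioo hs le_rfl : Ioo s t ⊆ Ioo 0 t)
  have e2 : ∀ τ, re0 (u τ) (v τ) (Du τ) (Dv τ) =
      z0 (u τ) (v τ) (Du τ) (Dv τ) - ∑ k, ‖Dv τ k‖ ^ 2 := by
    intro τ
    unfold re0 z0
    ring
  simp only [e2]
  refine ⟨i1.sub i2, ?_⟩
  rw [integral_sub i1 i2, mul_sub, ← e1]
  have e3 : ∫ τ in Ioo 0 t, ∑ k, ‖Dv τ k‖ ^ 2 = (∫ τ in Ioo 0 s, ∑ k, ‖Dv τ k‖ ^ 2) +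
      ∫ τ in Ioo s t, ∑ k, ‖Dv τ k‖ ^ 2 := by
    have j1 : IntervalIntegrable (fun τ => ∑ k, ‖Dv τ k‖ ^ 2) volume 0 s := by
      rw [intervalIntegrable_iff_integrableOn_Ioo_of_le hs]
      exact P.hDvi s ⟨hs, hst.trans_lt ht⟩
    have j2 : IntervalIntegrable (fun τ => ∑ k, ‖Dv τ k‖ ^ 2) volume s t := by
      rwa [intervalIntegrable_iff_integrableOn_Ioo_of_le hst]
    have j3 := intervalIntegral.integral_add_adjacent_intervals j1 j2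
    rw [intervalIntegral.integral_of_le hs, intervalIntegral.integral_of_le hst,
      intervalIntegral.integral_of_le (hs.trans hst), integral_Ioc_eq_integral_Ioo,
      integral_Ioc_eq_integral_Ioo, integral_Ioc_eq_integral_Ioo] at j3
    exact j3.symm
  unfold RE
  rw [e3]
  ring

theorem re0_le {u v : V3} {du dv : Fin 3 → V3} {A : ℝ} (hA : 0 ≤ A) (hu : Bd u A) :
    re0 u v du dv ≤ -∑ k, ‖dv k - du k‖ ^ 2 +
      A * ‖v - u‖ * √(∑ k, ‖dv k - du k‖ ^ 2) := by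
  unfold re0
  gcongr
  refine (sum_inner_le _ _).trans ?_
  have h1 := sum_sq_tens_le hu (v - u)
  have h2 : √(∑ k, ‖tens k (v - u) u‖ ^ 2) ≤ A * ‖v - u‖ := by
    rw [← Real.sqrt_sq (by positivity : 0 ≤ A * ‖v - u‖)]
    exact Real.sqrt_le_sqrt h1
  rw [mul_comm]
  exact mul_le_mul_of_nonneg_right h2 (Real.sqrt_nonneg _)

/-- the relative energy at the initial time -/
theorem Rel.tendsto_RE (P : Rel T u₀ v₀ u v a Du Dv) (hT : 0 < T) :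
    Tendsto (RE v₀ u v Dv) (𝓝[>] 0) (𝓝 (‖v₀ - u₀‖ ^ 2)) := by
  have hsub : Ioo 0 T ∈ 𝓝[>] (0:ℝ) := Ioo_mem_nhdsGT hT
  have h1 : Tendsto u (𝓝[>] 0) (𝓝 u₀) := by
    rw [tendsto_iff_norm_sub_tendsto_zero]
    have g1 := ((P.hu.tendsto_zero hT).mono_left (nhdsWithin_le_of_mem
      (mem_of_superset hsub Ioo_subset_Ico_self) : 𝓝[>] (0:ℝ) ≤ 𝓝[Ico 0 T] 0)).sqrt
    simp only [Real.sqrt_zero] at g1
    exact g1.congr fun t => Real.sqrt_sq (norm_nonneg _)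
  have h2 : Tendsto v (𝓝[>] 0) (𝓝 v₀) := by
    rw [tendsto_iff_norm_sub_tendsto_zero]
    have g1 := ((P.hv.tendsto_zero hT).mono_left (nhdsWithin_le_of_mem
      (mem_of_superset hsub Ioo_subset_Ico_self) : 𝓝[>] (0:ℝ) ≤ 𝓝[Ico 0 T] 0)).sqrt
    simp only [Real.sqrt_zero] at g1
    exact g1.congr fun t => Real.sqrt_sq (norm_nonneg _)
  have h3 : Tendsto (fun t => ∫ τ in Ioo 0 t, ∑ k, ‖Dv τ k‖ ^ 2) (𝓝[>] 0) (𝓝 0) := by
    have h4 : Tendsto (fun t => (‖v₀‖ ^ 2 - ‖v t‖ ^ 2) / 2) (𝓝[>] 0) (𝓝 0) := by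
      have := ((h2.norm.pow 2).const_sub (‖v₀‖ ^ 2)).div_const 2
      simpa using this
    refine squeeze_zero' ?_ ?_ h4
    · exact Eventually.of_forall fun t => integral_nonneg fun τ =>
        Finset.sum_nonneg fun k _ => by positivity
    · filter_upwards [hsub] with t ht
      have := P.hen t ⟨ht.1.le, ht.2⟩
      linarith
  have h5 := ((h3.const_mul 2).const_sub (‖v₀‖ ^ 2)).add
    (((h2.sub h1).norm.pow 2).sub (h2.norm.pow 2))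
  have e : ‖v₀‖ ^ 2 - 2 * 0 + (‖v₀ - u₀‖ ^ 2 - ‖v₀‖ ^ 2) = ‖v₀ - u₀‖ ^ 2 := by ring
  rw [e] at h5
  exact h5

end Pool.Agent.TC
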