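import Pool.Agent.TC.Cover
import Pool.Agent.TC.Rel

/-!
# The bound for the low frequencies of the difference
-/

set_option autoImplicit false

namespace Pool.Agent.TC

open MeasureTheory Set Filter Topology Pool.Agent.TO Pool.Agent.TB
open scoped ENNReal NNReal Real InnerProductSpace SchwartzMap LineDeriv Laplacian

/-- `u` is bounded by `ε / √t`, `v = v₁ + v₂`, `v₁` is bounded by `β / √t` -/
structure Low (T : ℝ) (u₀ : V3) (u v v₁ v₂ : ℝ → V3) (ε β : ℝ) : Prop where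
  hu : IsLeray T u₀ u
  hv : IsLeray T u₀ v
  hε : 0 < ε
  hβ : 0 ≤ β
  hua : BddBy T u (fun t => ε / √t)
  hsum : ∀ᵐ t ∂(volume.restrict (Ioo 0 T)), v t = v₁ t + v₂ t
  hv1 : BddBy T v₁ (fun t => β / √t)
  hm : AEStronglyMeasurable v₂ (volume.restrict (Ioo 0 T))

variable {T : ℝ} {u₀ : V3} {u v v₁ v₂ : ℝ → V3} {ε β : ℝ}

theorem rhs_diff (φ : 𝓢(E3, E3)) (f g : V3) : rhs φ g - rhs φ f =
    ⟪(Δ φ).toLp 2 (volume : Measure E3), g - f⟫_ℝ + ⟪AA φ g, g - f⟫_ℝ + ⟪AA φ (g - f), f⟫_ℝ := by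
  unfold rhs
  simp only [map_sub, inner_sub_right, inner_sub_left]
  ring

/-- the gradient norm -/
noncomputable def gn (φ : 𝓢(E3, E3)) : ℝ := √(∑ k, ‖emb (∂_{ee k} φ)‖ ^ 2)

theorem gn_nonneg (φ : 𝓢(E3, E3)) : 0 ≤ gn φ := Real.sqrt_nonneg _

theorem abs_sum_inner_le (d e : Fin 3 → V3) :
    |∑ k, ⟪d k, e k⟫_ℝ| ≤ √(∑ k, ‖d k‖ ^ 2) * √(∑ k, ‖e k‖ ^ 2) := by
  calc |∑ k, ⟪d k, e k⟫_ℝ| ≤ ∑ k, |⟪d k, e k⟫_ℝ| := Finset.abs_sum_le_sum_abs _ _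
    _ ≤ ∑ k, ‖d k‖ * ‖e k‖ :=
        Finset.sum_le_sum fun k _ => abs_real_inner_le_norm _ _
    _ ≤ √(∑ k, ‖d k‖ ^ 2) * √(∑ k, ‖e k‖ ^ 2) :=
        Real.sum_mul_le_sqrt_mul_sqrt _ _ _

theorem abs_AA_right_le (φ : 𝓢(E3, E3)) (w : V3) {f : V3} {A : ℝ} (hA : 0 ≤ A) (hf : Bd f A) :
    |⟪AA φ w, f⟫_ℝ| ≤ A * gn φ * ‖w‖ := by
  rw [inner_AA_tens φ w hf]
  refine (abs_sum_inner_le _ _).trans ?_
  have h1 := sum_sq_tens_le hf w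
  have h2 : √(∑ k, ‖tens k w f‖ ^ 2) ≤ A * ‖w‖ := by
    rw [← Real.sqrt_sq (by positivity : 0 ≤ A * ‖w‖)]
    exact Real.sqrt_le_sqrt h1
  calc _ ≤ gn φ * (A * ‖w‖) := mul_le_mul_of_nonneg_left h2 (gn_nonneg φ)
    _ = _ := by ring

theorem inner_AA_tens_left (φ : 𝓢(E3, E3)) {f : V3} (g : V3) {A : ℝ} (hf : Bd f A) :
    ⟪AA φ f, g⟫_ℝ = ∑ k, ⟪emb (∂_{ee k} φ), tens k f g⟫_ℝ := by
  rw [L2.inner_def]
  simp only [L2.inner_def (𝕜 := ℝ) (emb (∂_{ee _} φ))]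
  rw [← integral_finsetSum _ (fun k _ => L2.integrable_inner (𝕜 := ℝ) _ _)]
  apply integral_congr_ae
  filter_upwards [coe_AA φ f, coe_tens_left 0 hf g, coe_tens_left 1 hf g,
    coe_tens_left 2 hf g, (∂_{ee 0} φ).coeFn_toLp 2 (volume : Measure E3),
    (∂_{ee 1} φ).coeFn_toLp 2 (volume : Measure E3),
    (∂_{ee 2} φ).coeFn_toLp 2 (volume : Measure E3)] with x h1 h2 h3 h4 h5 h6 h7
  rw [h1, Fin.sum_univ_three, emb_apply, emb_apply, emb_apply, h2, h3, h4, h5, h6, h7,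
    fderiv_field_eq_sum, Fin.sum_univ_three]
  simp only [inner_add_left, inner_smul_left, inner_smul_right, conj_trivial]

theorem sum_sq_tens_left_le {f : V3} {A : ℝ} (hf : Bd f A) (w : V3) :
    ∑ k, ‖tens k f w‖ ^ 2 ≤ (A * ‖w‖) ^ 2 := by
  simp only [norm_sq_eq_real]
  rw [← integral_finsetSum _ (fun k _ => integrable_norm_sq_real _), mul_pow,
    norm_sq_eq_real, ← integral_const_mul]
  apply integral_mono_ae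
  · exact integrable_finsetSum _ (fun k _ => integrable_norm_sq_real _)
  · exact (integrable_norm_sq_real w).const_mul _
  filter_upwards [coe_tens_left 0 hf w, coe_tens_left 1 hf w, coe_tens_left 2 hf w, hf]
    with x h0 h1 h2 h3
  rw [Fin.sum_univ_three, h0, h1, h2, norm_smul, norm_smul, norm_smul, mul_pow, mul_pow, mul_pow,
    ← add_mul, ← add_mul]
  have h4 : ‖(f x) 0‖ ^ 2 + ‖(f x) 1‖ ^ 2 + ‖(f x) 2‖ ^ 2 = ‖f x‖ ^ 2 := by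
    rw [← sum_sq_eq, Fin.sum_univ_three]
    simp
  rw [h4]
  have := pow_le_pow_left₀ (norm_nonneg _) h3 2
  gcongr

theorem abs_AA_left_le (φ : 𝓢(E3, E3)) (w : V3) {f : V3} {A : ℝ} (hA : 0 ≤ A) (hf : Bd f A) :
    |⟪AA φ f, w⟫_ℝ| ≤ A * gn φ * ‖w‖ := by
  rw [inner_AA_tens_left φ w hf]
  refine (abs_sum_inner_le _ _).trans ?_
  have h1 := sum_sq_tens_left_le hf w
  have h2 : √(∑ k, ‖tens k f w‖ ^ 2) ≤ A * ‖w‖ := by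
    rw [← Real.sqrt_sq (by positivity : 0 ≤ A * ‖w‖)]
    exact Real.sqrt_le_sqrt h1
  calc _ ≤ gn φ * (A * ‖w‖) := mul_le_mul_of_nonneg_left h2 (gn_nonneg φ)
    _ = _ := by ring

/-- pointwise bound of the integrand -/
theorem Low.integrand_le (P : Low T u₀ u v v₁ v₂ ε β) (φ : 𝓢(E3, E3)) :
    ∀ᵐ τ ∂(volume.restrict (Ioo 0 T)), |rhs φ (v τ) - rhs φ (u τ)| ≤
      ‖(Δ φ).toLp 2 (volume : Measure E3)‖ * ‖v τ - u τ‖ +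
      (ε + β) * gn φ * (‖v τ - u τ‖ / √τ) + ‖AA φ (v₂ τ)‖ * ‖v τ - u τ‖ := by
  filter_upwards [P.hua, P.hsum, P.hv1] with τ h1 h2 h3
  have hβ := P.hβ
  have hε := P.hε
  rw [rhs_diff]
  have e1 : ⟪AA φ (v τ), v τ - u τ⟫_ℝ = ⟪AA φ (v₁ τ), v τ - u τ⟫_ℝ +
      ⟪AA φ (v₂ τ), v τ - u τ⟫_ℝ := by
    conv_lhs => rw [h2]
    rw [map_add, inner_add_left, ← h2]
  rw [e1]
  have a1 : |⟪(Δ φ).toLp 2 (volume : Measure E3), v τ - u τ⟫_ℝ| ≤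
    ‖(Δ φ).toLp 2 (volume : Measure E3)‖ * ‖v τ - u τ‖ := abs_real_inner_le_norm _ _
  have a2 := abs_AA_left_le φ (v τ - u τ) (by positivity) h3
  have a3 : |⟪AA φ (v₂ τ), v τ - u τ⟫_ℝ| ≤ ‖AA φ (v₂ τ)‖ * ‖v τ - u τ‖ :=
    abs_real_inner_le_norm _ _
  have a4 := abs_AA_right_le φ (v τ - u τ) (by positivity) h1
  have e2 : (ε + β) * gn φ * (‖v τ - u τ‖ / √τ) = β / √τ * gn φ * ‖v τ - u τ‖ +
      ε / √τ * gn φ * ‖v τ - u τ‖ := by ring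
  rw [e2]
  have t1 := abs_add_le (⟪(Δ φ).toLp 2 (volume : Measure E3), v τ - u τ⟫_ℝ +
    (⟪AA φ (v₁ τ), v τ - u τ⟫_ℝ + ⟪AA φ (v₂ τ), v τ - u τ⟫_ℝ)) ⟪AA φ (v τ - u τ), u τ⟫_ℝ
  have t2 := abs_add_le ⟪(Δ φ).toLp 2 (volume : Measure E3), v τ - u τ⟫_ℝ
    (⟪AA φ (v₁ τ), v τ - u τ⟫_ℝ + ⟪AA φ (v₂ τ), v τ - u τ⟫_ℝ)
  have t3 := abs_add_le ⟪AA φ (v₁ τ), v τ - u τ⟫_ℝ ⟪AA φ (v₂ τ), v τ - u τ⟫_ℝ
  linarith

/-- the squared norm of `AA φ f` -/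
theorem sq_norm_AA_le (φ : 𝓢(E3, E3)) (f : V3) :
    ENNReal.ofReal (‖AA φ f‖ ^ 2) ≤ ∫⁻ x, ‖f x‖ₑ ^ 2 * ∑ k, ‖(∂_{ee k} φ) x‖ₑ ^ 2 := by
  rw [← enorm_sq_ofReal, ← lintegral_sq_V3]
  apply lintegral_mono_ae
  filter_upwards [coe_AA φ f] with x hx
  rw [hx]
  exact sq_enorm_fderiv_le φ x (f x)

end Pool.Agent.TC
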