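import Pool.Agent.TC.Low
import Pool.Agent.TO.Cor

/-!
# The bound for the low frequencies of the difference, integrated in time
-/

set_option autoImplicit false

namespace Pool.Agent.TC

open MeasureTheory Set Filter Topology Pool.Agent.TO Pool.Agent.TB
open scoped ENNReal NNReal Real InnerProductSpace SchwartzMap LineDeriv Laplacian

/-- the constant of the mollifier -/
noncomputable def cK : ℝ := exists_const.choose

theorem cK_ge : 1 ≤ cK := exists_const.choose_spec.1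

theorem cK_spec (r : ℝ) (hr : 0 < r) (k : Fin 3) :
    KBdd (∂_{ee k} (eS hr)) (cK / r ^ 4) r ∧
    KBdd (∂_{ee k} (∂_{ee k} (eS hr))) (cK / r ^ 5) r := exists_const.choose_spec.2 r hr k

variable {r : ℝ}

theorem gn_mol_le (hr : 0 < r) (ψ : 𝓢(E3, E3)) :
    gn (mol hr ψ) ≤ 2 * cK * om / r * ‖emb ψ‖ := by
  have hom := om_pos
  have hC := cK_ge
  unfold gn
  apply Real.sqrt_le_iff.2
  refine ⟨by positivity, ?_⟩
  have h1 : ∀ k, ‖emb (∂_{ee k} (mol hr ψ))‖ ≤ cK * om / r * ‖emb ψ‖ := by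
    intro k
    rw [mol, lineDeriv_mK_left]
    have := norm_mK_toLp_le (cK_spec r hr k).1 (by positivity) hr.le ψ
    refine this.trans (le_of_eq ?_)
    rw [← emb_apply]
    field_simp
  calc ∑ k, ‖emb (∂_{ee k} (mol hr ψ))‖ ^ 2 ≤ ∑ _k : Fin 3, (cK * om / r * ‖emb ψ‖) ^ 2 :=
        Finset.sum_le_sum fun k _ => pow_le_pow_left₀ (norm_nonneg _) (h1 k) 2
    _ = 3 * (cK * om / r * ‖emb ψ‖) ^ 2 := by simp
    _ ≤ (2 * cK * om / r * ‖emb ψ‖) ^ 2 := by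
        have : (2 * cK * om / r * ‖emb ψ‖) ^ 2 = 4 * (cK * om / r * ‖emb ψ‖) ^ 2 := by ring
        rw [this]
        nlinarith [sq_nonneg (cK * om / r * ‖emb ψ‖)]

theorem norm_lap_mol_le (hr : 0 < r) (ψ : 𝓢(E3, E3)) :
    ‖(Δ (mol hr ψ)).toLp 2 (volume : Measure E3)‖ ≤ 3 * cK * om / r ^ 2 * ‖emb ψ‖ := by
  have hom := om_pos
  have hC := cK_ge
  rw [mol, laplacian_mK]
  have e1 : (∑ k, mK (∂_{ee k} (∂_{ee k} (eS hr))) ψ).toLp 2 (volume : Measure E3) =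
      ∑ k, (mK (∂_{ee k} (∂_{ee k} (eS hr))) ψ).toLp 2 (volume : Measure E3) :=
    map_sum (SchwartzMap.toLpCLM ℝ E3 2 (volume : Measure E3)) _ _
  rw [e1]
  refine (norm_sum_le _ _).trans ?_
  calc ∑ k, ‖(mK (∂_{ee k} (∂_{ee k} (eS hr))) ψ).toLp 2 (volume : Measure E3)‖
      ≤ ∑ _k : Fin 3, cK / r ^ 5 * (om * r ^ 3) * ‖emb ψ‖ :=
        Finset.sum_le_sum fun k _ => norm_mK_toLp_le (cK_spec r hr k).2 (by positivity) hr.le ψ
    _ = _ := by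
        simp only [Finset.sum_const, Finset.card_univ, Fintype.card_fin, nsmul_eq_mul]
        push_cast
        field_simp

/-- the weighted estimate in space-time -/
theorem carl_AA (hr : 0 < r) {t K : ℝ} {g : ℝ → V3} (h : Carl t r K g)
    (hg : AEStronglyMeasurable g (volume.restrict (Ioo 0 t))) (ψ : 𝓢(E3, E3)) :
    ∫⁻ τ in Ioo 0 t, ENNReal.ofReal (‖AA (mol hr ψ) (g τ)‖ ^ 2) ≤
      ENNReal.ofReal ((cK * √(3 * om) * |K| / r * ‖emb ψ‖) ^ 2) := by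
  have hom := om_pos
  have hC := cK_ge
  have h1 : ∀ τ, ENNReal.ofReal (‖AA (mol hr ψ) (g τ)‖ ^ 2) ≤
      ENNReal.ofReal (3 * (cK / r ^ 4) ^ 2 * (om * r ^ 3)) *
        ∫⁻ z, ‖ψ z‖ₑ ^ 2 * lE r (g τ) z := by
    intro τ
    refine (sq_norm_AA_le _ _).trans ?_
    simp only [mol, lineDeriv_mK_left]
    exact lintegral_gsq_mul_le (fun k => (cK_spec r hr k).1) (by positivity) hr.le ψ (g τ)
  calc ∫⁻ τ in Ioo 0 t, ENNReal.ofReal (‖AA (mol hr ψ) (g τ)‖ ^ 2)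
      ≤ ∫⁻ τ in Ioo 0 t, ENNReal.ofReal (3 * (cK / r ^ 4) ^ 2 * (om * r ^ 3)) *
        ∫⁻ z, ‖ψ z‖ₑ ^ 2 * lE r (g τ) z := lintegral_mono h1
    _ = ENNReal.ofReal (3 * (cK / r ^ 4) ^ 2 * (om * r ^ 3)) *
        ∫⁻ τ in Ioo 0 t, ∫⁻ z, ‖ψ z‖ₑ ^ 2 * lE r (g τ) z :=
        lintegral_const_mul' _ _ ENNReal.ofReal_ne_top
    _ ≤ ENNReal.ofReal (3 * (cK / r ^ 4) ^ 2 * (om * r ^ 3)) *
        (ENNReal.ofReal (K ^ 2 * r ^ 3) * ∫⁻ z, ‖ψ z‖ₑ ^ 2) := by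
        gcongr
        exact weighted_carl h hg (ψ.continuous.measurable.enorm.pow_const 2)
    _ = ENNReal.ofReal ((cK * √(3 * om) * |K| / r * ‖emb ψ‖) ^ 2) := by
        rw [lintegral_toLp, ← ENNReal.ofReal_mul (by positivity),
          ← ENNReal.ofReal_mul (by positivity), ← emb_apply]
        congr 1
        have e : (cK * √(3 * om) * |K| / r * ‖emb ψ‖) ^ 2 =
            cK ^ 2 * √(3 * om) ^ 2 * |K| ^ 2 / r ^ 2 * ‖emb ψ‖ ^ 2 := by ring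
        rw [e, Real.sq_sqrt (by positivity), sq_abs]
        field_simp

/-- the Cauchy-Schwarz inequality -/
theorem cs {α : Type*} [MeasurableSpace α] {μ : Measure α} {f g : α → ℝ} (hf : MemLp f 2 μ)
    (hg : MemLp g 2 μ) (hf0 : ∀ x, 0 ≤ f x) (hg0 : ∀ x, 0 ≤ g x) :
    ∫ x, f x * g x ∂μ ≤ √(∫ x, f x ^ 2 ∂μ) * √(∫ x, g x ^ 2 ∂μ) := by
  have e2 : ENNReal.ofReal 2 = 2 := by simp
  have h := integral_mul_le_Lp_mul_Lq_of_nonneg (μ := μ) (f := f) (g := g)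
    Real.HolderConjugate.two_two (Eventually.of_forall hf0) (Eventually.of_forall hg0)
    (by rwa [e2]) (by rwa [e2])
  simp only [Real.rpow_two] at h
  rwa [Real.sqrt_eq_rpow, Real.sqrt_eq_rpow]

variable {T : ℝ} {u₀ : V3} {u v v₁ v₂ : ℝ → V3} {ε β : ℝ}

/-- the weighted integral of the energy -/
noncomputable def PP' (u v : ℝ → V3) (t : ℝ) : ℝ := ∫ τ in Ioo 0 t, ‖v τ - u τ‖ ^ 2 / √τ

theorem integrableOn_inv_sqrt {t : ℝ} (ht : 0 ≤ t) (c : ℝ) :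
    IntegrableOn (fun τ => c / √τ) (Ioo 0 t) volume ∧ ∫ τ in Ioo 0 t, c / √τ = 2 * c * √t := by
  obtain ⟨h1, h2⟩ := integral_inv_sqrt ht c
  rw [intervalIntegrable_iff_integrableOn_Ioo_of_le ht] at h1
  rw [intervalIntegral.integral_of_le ht, integral_Ioc_eq_integral_Ioo] at h2
  exact ⟨h1, h2⟩

theorem Low.norm_le (P : Low T u₀ u v v₁ v₂ ε β) {t : ℝ} (ht : t ∈ Ico 0 T) :
    ‖v t - u t‖ ≤ 2 * ‖u₀‖ := by
  have h1 := P.hu.norm_le ht
  have h2 := P.hv.norm_le ht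
  have h3 := norm_sub_le (v t) (u t)
  linarith

theorem Low.meas (P : Low T u₀ u v v₁ v₂ ε β) {t : ℝ} (ht : t ≤ T) :
    AEStronglyMeasurable (fun τ => ‖v τ - u τ‖) (volume.restrict (Ioo 0 t)) :=
  ((P.hv.meas.sub P.hu.meas).norm).mono_measure
    (Measure.restrict_mono (Ioo_subset_Ioo_right ht) le_rfl)

theorem Low.integrable_wt (P : Low T u₀ u v v₁ v₂ ε β) {t : ℝ} (ht : t ∈ Ico 0 T) :
    IntegrableOn (fun τ => ‖v τ - u τ‖ ^ 2 / √τ) (Ioo 0 t) volume := by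
  have h1 := (integrableOn_inv_sqrt ht.1 ((2 * ‖u₀‖) ^ 2)).1
  refine Integrable.mono' h1 ?_ ?_
  · refine ((P.meas ht.2.le).pow 2).div₀ ?_
    exact Real.continuous_sqrt.aestronglyMeasurable
  · filter_upwards [ae_restrict_mem measurableSet_Ioo] with τ hτ
    rw [Real.norm_of_nonneg (by positivity)]
    have := P.norm_le (t := τ) ⟨hτ.1.le, hτ.2.trans ht.2⟩
    gcongr

end Pool.Agent.TC
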