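import Pool.Agent.TC.Low2

/-!
# The bound for the low frequencies of the difference, continued
-/

set_option autoImplicit false

namespace Pool.Agent.TC

open MeasureTheory Set Filter Topology Pool.Agent.TO Pool.Agent.TB
open scoped ENNReal NNReal Real InnerProductSpace SchwartzMap LineDeriv Laplacian

variable {r T : ℝ} {u₀ : V3} {u v v₁ v₂ : ℝ → V3} {ε β : ℝ}

theorem Low.memLp_e (P : Low T u₀ u v v₁ v₂ ε β) {t : ℝ} (ht : t ∈ Ico 0 T) :
    MemLp (fun τ => ‖v τ - u τ‖) 2 (volume.restrict (Ioo 0 t)) := by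
  refine MemLp.of_bound (P.meas ht.2.le) (2 * ‖u₀‖) ?_
  filter_upwards [ae_restrict_mem measurableSet_Ioo] with τ hτ
  rw [Real.norm_of_nonneg (norm_nonneg _)]
  exact P.norm_le ⟨hτ.1.le, hτ.2.trans ht.2⟩

/-- the square integral of the difference -/
theorem Low.int_sq_le (P : Low T u₀ u v v₁ v₂ ε β) {t : ℝ} (ht : t ∈ Ico 0 T) :
    ∫ τ in Ioo 0 t, ‖v τ - u τ‖ ^ 2 ≤ √t * PP' u v t := by
  unfold PP'
  rw [← integral_const_mul]
  have h1 := (P.memLp_e ht).integrable_sq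
  apply integral_mono_ae h1 ((P.integrable_wt ht).const_mul _)
  filter_upwards [ae_restrict_mem measurableSet_Ioo] with τ hτ
  have h2 : 0 < √τ := Real.sqrt_pos.2 hτ.1
  have h3 : √τ ≤ √t := Real.sqrt_le_sqrt hτ.2.le
  rw [mul_div_assoc', le_div_iff₀ h2, mul_comm]
  gcongr

theorem PP'_nonneg (u v : ℝ → V3) (t : ℝ) : 0 ≤ PP' u v t :=
  integral_nonneg fun τ => by positivity

/-- the integral of the difference -/
theorem Low.int_e_le (P : Low T u₀ u v v₁ v₂ ε β) {t : ℝ} (ht : t ∈ Ico 0 T) :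
    ∫ τ in Ioo 0 t, ‖v τ - u τ‖ ≤ √t * √(√t * PP' u v t) := by
  have h1 := cs (μ := volume.restrict (Ioo 0 t)) (f := fun _ => (1:ℝ))
    (g := fun τ => ‖v τ - u τ‖) (memLp_const 1) (P.memLp_e ht) (fun _ => zero_le_one)
    (fun _ => norm_nonneg _)
  simp only [one_mul, one_pow, integral_const, smul_eq_mul, mul_one] at h1
  have h2 : (volume.restrict (Ioo 0 t)).real univ = t := by
    rw [Measure.real, Measure.restrict_apply_univ, Real.volume_Ioo, sub_zero,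
      ENNReal.toReal_ofReal ht.1]
  rw [h2] at h1
  refine h1.trans ?_
  exact mul_le_mul_of_nonneg_left (Real.sqrt_le_sqrt (P.int_sq_le ht)) (Real.sqrt_nonneg _)

/-- the weighted integral of the difference -/
theorem Low.int_wt_le (P : Low T u₀ u v v₁ v₂ ε β) {t : ℝ} (ht : t ∈ Ico 0 T) :
    ∫ τ in Ioo 0 t, ‖v τ - u τ‖ / √τ ≤ 2 * √(√t * PP' u v t) := by
  have hq : ∀ τ : ℝ, 0 ≤ τ → √√τ ^ 2 = √τ := fun τ _ => Real.sq_sqrt (Real.sqrt_nonneg _)
  have hm : AEStronglyMeasurable (fun τ : ℝ => √√τ) (volume.restrict (Ioo 0 t)) :=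
    (Real.continuous_sqrt.comp Real.continuous_sqrt).aestronglyMeasurable
  have m1 : MemLp (fun τ => ‖v τ - u τ‖ / √√τ) 2 (volume.restrict (Ioo 0 t)) := by
    have hm1 : AEStronglyMeasurable (fun τ => ‖v τ - u τ‖ / √√τ) (volume.restrict (Ioo 0 t)) :=
      (P.meas ht.2.le).div₀ hm
    refine (memLp_two_iff_integrable_sq hm1).2 ?_
    refine (P.integrable_wt ht).congr ?_
    filter_upwards [ae_restrict_mem measurableSet_Ioo] with τ hτ
    rw [div_pow, hq τ hτ.1.le]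
  have m2 : MemLp (fun τ : ℝ => 1 / √√τ) 2 (volume.restrict (Ioo 0 t)) := by
    have hm1 : AEStronglyMeasurable (fun τ : ℝ => 1 / √√τ) (volume.restrict (Ioo 0 t)) :=
      aestronglyMeasurable_const.div₀ hm
    refine (memLp_two_iff_integrable_sq hm1).2 ?_
    refine (integrableOn_inv_sqrt ht.1 1).1.congr ?_
    filter_upwards [ae_restrict_mem measurableSet_Ioo] with τ hτ
    rw [div_pow, hq τ hτ.1.le, one_pow]
  have h1 := cs m1 m2 (fun _ => by positivity) (fun _ => by positivity)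
  have e1 : ∫ τ in Ioo 0 t, ‖v τ - u τ‖ / √√τ * (1 / √√τ) = ∫ τ in Ioo 0 t, ‖v τ - u τ‖ / √τ := by
    apply setIntegral_congr_fun measurableSet_Ioo
    intro τ hτ
    have h3 : √√τ * √√τ = √τ := Real.mul_self_sqrt (Real.sqrt_nonneg _)
    beta_reduce
    rw [div_mul_div_comm, mul_one, h3]
  have e2 : ∫ τ in Ioo 0 t, (‖v τ - u τ‖ / √√τ) ^ 2 = PP' u v t := by
    apply setIntegral_congr_fun measurableSet_Ioo
    intro τ hτ
    beta_reduce
    rw [div_pow, hq τ hτ.1.le]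
  have e3 : ∫ τ in Ioo 0 t, (1 / √√τ) ^ 2 = 2 * √t := by
    rw [← (integrableOn_inv_sqrt ht.1 1).2.trans (by ring : 2 * 1 * √t = 2 * √t)]
    apply setIntegral_congr_fun measurableSet_Ioo
    intro τ hτ
    beta_reduce
    rw [div_pow, hq τ hτ.1.le, one_pow]
  rw [e1, e2, e3] at h1
  refine h1.trans ?_
  have hP := PP'_nonneg u v t
  rw [← Real.sqrt_mul hP]
  apply Real.sqrt_le_iff.2
  refine ⟨by positivity, ?_⟩
  rw [mul_pow, Real.sq_sqrt (by positivity)]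
  have := Real.sqrt_nonneg t
  nlinarith [mul_nonneg this hP]

/-- the low frequency bound -/
theorem Low.bound (P : Low T u₀ u v v₁ v₂ ε β) {t K : ℝ} (ht : t ∈ Ioo 0 T) (hr : 0 < r)
    (hC : Carl t r K v₂) {ψ : 𝓢(E3, E3)} (hψ : TestDivFree ψ) :
    |⟪emb (mol hr ψ), v t - u t⟫_ℝ| ≤ (3 * cK * om / r ^ 2 * √t + 4 * cK * om * (ε + β) / r +
      cK * √(3 * om) * |K| / r) * √(√t * PP' u v t) * ‖emb ψ‖ := by
  have hom := om_pos
  have hcK := cK_ge
  have hβ := P.hβ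
  have hε := P.hε
  have ht' : t ∈ Ico 0 T := ⟨ht.1.le, ht.2⟩
  have hsub : Ioo 0 t ⊆ Ioo 0 T := Ioo_subset_Ioo_right ht.2.le
  set φ := mol hr ψ with hφ
  have hφd : TestDivFree φ := test_mK _ hψ
  set H : ℝ := √(√t * PP' u v t) with hH
  have hH0 : 0 ≤ H := Real.sqrt_nonneg _
  have i1 := P.hv.integrable_rhs φ le_rfl ht.1.le ht.2
  have i2 := P.hu.integrable_rhs φ le_rfl ht.1.le ht.2
  have e1 : ⟪emb φ, v t - u t⟫_ℝ = ∫ τ in Ioo 0 t, (rhs φ (v τ) - rhs φ (u τ)) := by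
    have g1 := P.hv.eqn'' le_rfl ht.1.le ht.2 hφd
    have g2 := P.hu.eqn'' le_rfl ht.1.le ht.2 hφd
    rw [P.hv.init] at g1
    rw [P.hu.init] at g2
    have g3 : ∫ τ in (0:ℝ)..t, (rhs φ (v τ) - rhs φ (u τ)) = ⟪emb φ, v t - u t⟫_ℝ := by
      rw [intervalIntegral.integral_sub i1 i2, ← g1, ← g2, emb_apply, inner_sub_right]
      ring
    rw [← g3, intervalIntegral.integral_of_le ht.1.le, integral_Ioc_eq_integral_Ioo]
  rw [intervalIntegrable_iff_integrableOn_Ioo_of_le ht.1.le] at i1 i2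
  have hAm : AEStronglyMeasurable (fun τ => ‖AA φ (v₂ τ)‖) (volume.restrict (Ioo 0 t)) := by
    have hc : Continuous fun f : V3 => ‖AA φ f‖ := by fun_prop
    exact hc.comp_aestronglyMeasurable (P.hm.mono_measure (Measure.restrict_mono hsub le_rfl))
  have hCA := carl_AA hr hC (P.hm.mono_measure (Measure.restrict_mono hsub le_rfl)) ψ
  have hAi : Integrable (fun τ => ‖AA φ (v₂ τ)‖ ^ 2) (volume.restrict (Ioo 0 t)) := by
    refine ⟨hAm.pow 2, ?_⟩
    rw [hasFiniteIntegral_iff_norm]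
    refine lt_of_le_of_lt ?_ (hCA.trans_lt ENNReal.ofReal_lt_top)
    apply lintegral_mono
    intro τ
    beta_reduce
    rw [Real.norm_of_nonneg (by positivity)]
  have hAM : MemLp (fun τ => ‖AA φ (v₂ τ)‖) 2 (volume.restrict (Ioo 0 t)) :=
    (memLp_two_iff_integrable_sq hAm).2 hAi
  have hAv : ∫ τ in Ioo 0 t, ‖AA φ (v₂ τ)‖ ^ 2 ≤ (cK * √(3 * om) * |K| / r * ‖emb ψ‖) ^ 2 := by
    rw [← ofReal_integral_eq_lintegral_ofReal hAi
      (Eventually.of_forall fun τ => by positivity)] at hCA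
    exact (ENNReal.ofReal_le_ofReal_iff (by positivity)).1 hCA
  have j1 : IntegrableOn (fun τ => ‖v τ - u τ‖) (Ioo 0 t) volume :=
    (P.memLp_e ht').integrable (by norm_num)
  have j2 : IntegrableOn (fun τ => ‖v τ - u τ‖ / √τ) (Ioo 0 t) volume := by
    refine Integrable.mono' (integrableOn_inv_sqrt ht.1.le (2 * ‖u₀‖)).1
      ((P.meas ht.2.le).div₀ Real.continuous_sqrt.aestronglyMeasurable) ?_
    filter_upwards [ae_restrict_mem measurableSet_Ioo] with τ hτ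
    rw [Real.norm_of_nonneg (by positivity)]
    have := P.norm_le (t := τ) ⟨hτ.1.le, hτ.2.trans ht.2⟩
    gcongr
  have j3 : IntegrableOn (fun τ => ‖AA φ (v₂ τ)‖ * ‖v τ - u τ‖) (Ioo 0 t) volume :=
    hAM.integrable_mul (P.memLp_e ht')
  have e2 : |⟪emb φ, v t - u t⟫_ℝ| ≤ ∫ τ in Ioo 0 t,
      (‖(Δ φ).toLp 2 (volume : Measure E3)‖ * ‖v τ - u τ‖ +
      (ε + β) * gn φ * (‖v τ - u τ‖ / √τ) + ‖AA φ (v₂ τ)‖ * ‖v τ - u τ‖) := by
    rw [e1]
    refine abs_integral_le_integral_abs.trans ?_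
    apply integral_mono_ae (i1.sub i2).abs (((j1.const_mul _).add (j2.const_mul _)).add j3)
    exact ae_restrict_of_ae_restrict_of_subset hsub (P.integrand_le φ)
  have e3 : ∫ τ in Ioo 0 t,
      (‖(Δ φ).toLp 2 (volume : Measure E3)‖ * ‖v τ - u τ‖ +
      (ε + β) * gn φ * (‖v τ - u τ‖ / √τ) + ‖AA φ (v₂ τ)‖ * ‖v τ - u τ‖) =
      ‖(Δ φ).toLp 2 (volume : Measure E3)‖ * (∫ τ in Ioo 0 t, ‖v τ - u τ‖) +
      (ε + β) * gn φ * (∫ τ in Ioo 0 t, ‖v τ - u τ‖ / √τ) +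
      ∫ τ in Ioo 0 t, ‖AA φ (v₂ τ)‖ * ‖v τ - u τ‖ := by
    have j12 : IntegrableOn (fun τ => ‖(Δ φ).toLp 2 (volume : Measure E3)‖ * ‖v τ - u τ‖ +
        (ε + β) * gn φ * (‖v τ - u τ‖ / √τ)) (Ioo 0 t) volume :=
      (j1.const_mul _).add (j2.const_mul _)
    rw [integral_add j12 j3,
      integral_add (j1.const_mul _) (j2.const_mul _), integral_const_mul, integral_const_mul]
  have f1 := P.int_e_le ht'
  have f2 := P.int_wt_le ht'
  have f3 : ∫ τ in Ioo 0 t, ‖AA φ (v₂ τ)‖ * ‖v τ - u τ‖ ≤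
      (cK * √(3 * om) * |K| / r * ‖emb ψ‖) * H := by
    refine (cs hAM (P.memLp_e ht') (fun _ => norm_nonneg _) (fun _ => norm_nonneg _)).trans ?_
    apply mul_le_mul _ (Real.sqrt_le_sqrt (P.int_sq_le ht')) (Real.sqrt_nonneg _) (by positivity)
    rw [← Real.sqrt_sq (by positivity : 0 ≤ cK * √(3 * om) * |K| / r * ‖emb ψ‖)]
    exact Real.sqrt_le_sqrt hAv
  have f4 := norm_lap_mol_le hr ψ
  have f5 := gn_mol_le hr ψ
  rw [← hφ] at f4 f5
  have g0 := gn_nonneg φ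
  have k0 : 0 ≤ ∫ τ in Ioo 0 t, ‖v τ - u τ‖ := integral_nonneg fun _ => norm_nonneg _
  have k1 : 0 ≤ ∫ τ in Ioo 0 t, ‖v τ - u τ‖ / √τ := integral_nonneg fun _ => by positivity
  have f6 : ‖(Δ φ).toLp 2 (volume : Measure E3)‖ * (∫ τ in Ioo 0 t, ‖v τ - u τ‖) ≤
      (3 * cK * om / r ^ 2 * ‖emb ψ‖) * (√t * H) := mul_le_mul f4 f1 k0 (by positivity)
  have f7 : (ε + β) * gn φ * (∫ τ in Ioo 0 t, ‖v τ - u τ‖ / √τ) ≤
      (ε + β) * (2 * cK * om / r * ‖emb ψ‖) * (2 * H) := by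
    apply mul_le_mul _ f2 k1 (by positivity)
    exact mul_le_mul_of_nonneg_left f5 (by positivity)
  refine e2.trans ?_
  rw [e3]
  calc _ ≤ (3 * cK * om / r ^ 2 * ‖emb ψ‖) * (√t * H) +
        (ε + β) * (2 * cK * om / r * ‖emb ψ‖) * (2 * H) +
        (cK * √(3 * om) * |K| / r * ‖emb ψ‖) * H := add_le_add (add_le_add f6 f7) f3
    _ = _ := by ring

end Pool.Agent.TC
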