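import Pool.Agent.TC.Low3

/-!
# Uniqueness for Leray solutions with a Carleson bound
-/

set_option autoImplicit false

namespace Pool.Agent.TC

open MeasureTheory Set Filter Topology Pool.Agent.TO Pool.Agent.TB
open scoped ENNReal NNReal Real InnerProductSpace SchwartzMap LineDeriv Laplacian

/-- the square of a primitive -/
theorem prim_sq {f : ℝ → ℝ} {s t : ℝ} (hst : s ≤ t) (hf : IntervalIntegrable f volume s t)
    {F : ℝ → ℝ} (hF : ∀ x ∈ Icc s t, ∀ z ∈ Icc s t, x ≤ z → F z - F x = ∫ τ in x..z, f τ) :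
    IntervalIntegrable (fun τ => F τ * f τ) volume s t ∧
    F t ^ 2 - F s ^ 2 = 2 * ∫ τ in s..t, F τ * f τ := by
  have key := norm_sq_formula (𝕜 := ℝ) (y := F) (Γ := fun x τ => F x * f τ)
    (m := fun τ => |f τ|) hst hf.abs (Eventually.of_forall fun τ => abs_nonneg _)
    (fun x _ => hf.const_mul _) (by
      intro x hx y hy z hz hyz
      rw [intervalIntegral.integral_const_mul, ← hF y hy z hz hyz]
      simp only [RCLike.re_to_real, RCLike.inner_apply, conj_trivial]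
      ring) (by
      refine Eventually.of_forall fun τ x _ y _ => ?_
      rw [← sub_mul, abs_mul, Real.norm_eq_abs, mul_comm])
  refine ⟨key.2.1, ?_⟩
  have h := key.2.2
  rwa [Real.norm_eq_abs, Real.norm_eq_abs, sq_abs, sq_abs] at h

/-- the product of two primitives -/
theorem prim_mul {f g : ℝ → ℝ} {s t : ℝ} (hst : s ≤ t) (hf : IntervalIntegrable f volume s t)
    (hg : IntervalIntegrable g volume s t) {F G : ℝ → ℝ}
    (hF : ∀ x ∈ Icc s t, ∀ z ∈ Icc s t, x ≤ z → F z - F x = ∫ τ in x..z, f τ)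
    (hG : ∀ x ∈ Icc s t, ∀ z ∈ Icc s t, x ≤ z → G z - G x = ∫ τ in x..z, g τ) :
    IntervalIntegrable (fun τ => F τ * g τ + G τ * f τ) volume s t ∧
    F t * G t - F s * G s = ∫ τ in s..t, (F τ * g τ + G τ * f τ) := by
  obtain ⟨i1, e1⟩ := prim_sq hst hf hF
  obtain ⟨i2, e2⟩ := prim_sq hst hg hG
  obtain ⟨i3, e3⟩ := prim_sq (f := fun τ => f τ + g τ) (F := fun τ => F τ + G τ) hst (hf.add hg)
    (by
      intro x hx z hz hxz
      rw [intervalIntegral.integral_add (sub_int hf hx hz) (sub_int hg hx hz), ← hF x hx z hz hxz,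
        ← hG x hx z hz hxz]
      ring)
  have e4 : ∀ τ, F τ * g τ + G τ * f τ = (F τ + G τ) * (f τ + g τ) - F τ * f τ - G τ * g τ := by
    intro τ
    ring
  simp only [e4]
  refine ⟨(i3.sub i1).sub i2, ?_⟩
  rw [intervalIntegral.integral_sub (i3.sub i1) i2, intervalIntegral.integral_sub i3 i1]
  nlinarith

theorem integral_inv_pow {x z : ℝ} (hx : 0 < x) (hxz : x ≤ z) :
    IntervalIntegrable (fun τ => -(1 / (2 * (τ * √τ)))) volume x z ∧
    1 / √z - 1 / √x = ∫ τ in x..z, -(1 / (2 * (τ * √τ))) := by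
  have hc : ContinuousOn (fun τ => -(1 / (2 * (τ * √τ)))) (uIcc x z) := by
    rw [uIcc_of_le hxz]
    apply ContinuousOn.neg
    apply ContinuousOn.div continuousOn_const (by fun_prop)
    intro τ hτ
    have h1 : 0 < τ := hx.trans_le hτ.1
    have h2 := Real.sqrt_pos.2 h1
    positivity
  refine ⟨hc.intervalIntegrable, ?_⟩
  refine (intervalIntegral.integral_eq_sub_of_hasDerivAt (f := fun τ => 1 / √τ)
    (fun τ hτ => ?_) hc.intervalIntegrable).symm
  rw [uIcc_of_le hxz] at hτ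
  have h1 : 0 < τ := hx.trans_le hτ.1
  have h2 := Real.sqrt_pos.2 h1
  have h3 := (Real.hasDerivAt_sqrt h1.ne').fun_inv h2.ne'
  have h4 : -(1 / (2 * √τ)) / √τ ^ 2 = -(1 / (2 * (τ * √τ))) := by
    rw [Real.sq_sqrt h1.le]
    field_simp
  rw [h4] at h3
  simpa [one_div] using h3

variable {r T : ℝ} {u₀ : V3} {u v v₁ v₂ : ℝ → V3} {ε β : ℝ}

/-- the constant -/
noncomputable def c2 : ℝ := 20 * cK * om + 2 * cK * √(3 * om)

theorem c2_pos : 0 < c2 := by
  have hom := om_pos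
  have hcK := cK_ge
  unfold c2
  positivity

/-- the difference is controlled by its low frequencies and its gradient -/
theorem Low.e_le (P : Low T u₀ u v v₁ v₂ ε β) {t K : ℝ} (ht : t ∈ Ioo 0 T)
    (hC : Carl t (√t / (2 * ε)) K v₂) {d : Fin 3 → V3}
    (hd : ∀ k, IsWeakDeriv k (v t - u t) (d k)) :
    ‖v t - u t‖ ≤ c2 * ε * (ε + β + |K|) * √(√t * PP' u v t) / √t +
      √t / (2 * ε) * √(∑ k, ‖d k‖ ^ 2) := by
  have hom := om_pos
  have hcK := cK_ge
  have hβ := P.hβ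
  have hε := P.hε
  have hst : 0 < √t := Real.sqrt_pos.2 ht.1
  have hr : 0 < √t / (2 * ε) := by positivity
  set r : ℝ := √t / (2 * ε) with hrdef
  set H : ℝ := √(√t * PP' u v t) with hH
  have hH0 : 0 ≤ H := Real.sqrt_nonneg _
  set B : ℝ := c2 * ε * (ε + β + |K|) * H / √t with hB
  have hB0 : 0 ≤ B := by
    have := c2_pos
    positivity
  set w : V3 := v t - u t with hw
  have hAdm : Adm w := by
    have h1 := (adm_of_divFree (P.hv.div t ⟨ht.1.le, ht.2⟩)).add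
      (adm_of_divFree (P.hu.div t ⟨ht.1.le, ht.2⟩)) 1 (-1)
    rwa [one_smul, neg_smul, one_smul, ← sub_eq_add_neg] at h1
  have hco : (3 * cK * om / r ^ 2 * √t + 4 * cK * om * (ε + β) / r +
      cK * √(3 * om) * |K| / r) * H ≤ B := by
    have h3 : 0 ≤ √(3 * om) := Real.sqrt_nonneg _
    have e1 : 1 / r = 2 * ε / √t := by
      rw [hrdef]
      field_simp
    have e2 : 1 / r ^ 2 * √t = 4 * ε ^ 2 / √t := by
      rw [hrdef]
      field_simp
      norm_num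
    have e3 : 3 * cK * om / r ^ 2 * √t + 4 * cK * om * (ε + β) / r +
      cK * √(3 * om) * |K| / r = (3 * cK * om * (4 * ε ^ 2) + 4 * cK * om * (ε + β) * (2 * ε) +
        cK * √(3 * om) * |K| * (2 * ε)) / √t := by
      calc _ = 3 * cK * om * (1 / r ^ 2 * √t) + 4 * cK * om * (ε + β) * (1 / r) +
          cK * √(3 * om) * |K| * (1 / r) := by ring
        _ = _ := by
          rw [e1, e2]
          ring
    rw [e3, hB, div_mul_eq_mul_div]
    apply div_le_div_of_nonneg_right _ hst.le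
    apply mul_le_mul_of_nonneg_right _ hH0
    unfold c2
    have hK := abs_nonneg K
    have p1 : 0 ≤ cK * om := by positivity
    have p2 : 0 ≤ cK * √(3 * om) := by positivity
    have p3 : 0 ≤ cK * om * (ε * β) := by positivity
    have p4 : 0 ≤ cK * om * (ε * |K|) := by positivity
    have p5 : 0 ≤ cK * √(3 * om) * (ε * ε) := by positivity
    have p6 : 0 ≤ cK * √(3 * om) * (ε * β) := by positivity
    nlinarith
  obtain ⟨ψ, h1, h2⟩ := hAdm
  have hP := poincare_avL (ker_mu hr) hd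
  have hS0 : 0 ≤ ∑ k, ‖d k‖ ^ 2 := Finset.sum_nonneg fun k _ => by positivity
  have hP' : ‖w - SS hr w‖ ≤ r * √(∑ k, ‖d k‖ ^ 2) := by
    apply le_of_sq_le_sq _ (by positivity)
    rw [mul_pow, Real.sq_sqrt hS0]
    exact hP
  have key : ∀ n, ⟪emb (ψ n), w⟫_ℝ ≤ (B + r * √(∑ k, ‖d k‖ ^ 2)) * ‖emb (ψ n)‖ := by
    intro n
    have g1 := P.bound ht hr hC (h1 n)
    have g2 : |⟪emb (mol hr (ψ n)), w⟫_ℝ| ≤ B * ‖emb (ψ n)‖ :=
      g1.trans (mul_le_mul_of_nonneg_right hco (norm_nonneg _))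
    have g3 : ⟪emb (ψ n), w⟫_ℝ = ⟪emb (mol hr (ψ n)), w⟫_ℝ + ⟪emb (ψ n), w - SS hr w⟫_ℝ := by
      have e5 : ⟪emb (ψ n), w - SS hr w⟫_ℝ = ⟪emb (ψ n), w⟫_ℝ - ⟪emb (ψ n), SS hr w⟫_ℝ :=
        inner_sub_right _ _ _
      have e6 : ⟪emb (ψ n), SS hr w⟫_ℝ = ⟪SS hr (emb (ψ n)), w⟫_ℝ := symm_avL (ker_mu hr) _ _
      rw [← SS_emb, e5, e6]
      ring
    have g4 : ⟪emb (ψ n), w - SS hr w⟫_ℝ ≤ ‖emb (ψ n)‖ * (r * √(∑ k, ‖d k‖ ^ 2)) :=
      (real_inner_le_norm _ _).trans (mul_le_mul_of_nonneg_left hP' (norm_nonneg _))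
    have g5 := le_abs_self ⟪emb (mol hr (ψ n)), w⟫_ℝ
    rw [g3]
    nlinarith
  have l1 : Tendsto (fun n => ⟪emb (ψ n), w⟫_ℝ) atTop (𝓝 ⟪w, w⟫_ℝ) :=
    h2.inner tendsto_const_nhds
  have l2 : Tendsto (fun n => (B + r * √(∑ k, ‖d k‖ ^ 2)) * ‖emb (ψ n)‖) atTop
      (𝓝 ((B + r * √(∑ k, ‖d k‖ ^ 2)) * ‖w‖)) := h2.norm.const_mul _
  have h3 := le_of_tendsto_of_tendsto' l1 l2 key
  rw [real_inner_self_eq_norm_sq, pow_two] at h3
  have hB1 : 0 ≤ B + r * √(∑ k, ‖d k‖ ^ 2) := by positivity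
  by_cases h0 : ‖w‖ = 0
  · rw [h0]
    exact hB1
  · exact le_of_mul_le_mul_right h3 (lt_of_le_of_ne (norm_nonneg _) (Ne.symm h0))

/-- the pointwise inequality -/
theorem pointwise {e B g a : ℝ} (he : 0 ≤ e) (hg : 0 ≤ g) (ha : 0 < a)
    (h : e ≤ B + 1 / (2 * a) * g) : 2 * (-g ^ 2 + a * e * g) ≤ -(a ^ 2 * e ^ 2) + 4 * a ^ 2 * B ^ 2 := by
  have h1 : 2 * a * e ≤ 2 * a * B + g := by
    have := mul_le_mul_of_nonneg_left h (by positivity : 0 ≤ 2 * a)
    have e1 : 2 * a * (B + 1 / (2 * a) * g) = 2 * a * B + g := by field_simp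
    linarith
  set x := 2 * a * e with hx
  set b := 2 * a * B with hb
  have hx0 : 0 ≤ x := by positivity
  have e1 : 2 * (-g ^ 2 + a * e * g) = -2 * g ^ 2 + x * g := by rw [hx]; ring
  have e2 : -(a ^ 2 * e ^ 2) + 4 * a ^ 2 * B ^ 2 = -x ^ 2 / 4 + b ^ 2 := by rw [hx, hb]; ring
  rw [e1, e2]
  have h2 : x * g ≤ (b + g) * g := mul_le_mul_of_nonneg_right h1 hg
  have h3 : x ^ 2 ≤ (b + g) ^ 2 := pow_le_pow_left₀ hx0 h1 2
  nlinarith [sq_nonneg (g - b)]

end Pool.Agent.TC
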