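import Pool.Agent.TC.Main

/-!
# Uniqueness for Leray solutions with a Carleson bound: the conclusion
-/

set_option autoImplicit false

namespace Pool.Agent.TC

open MeasureTheory Set Filter Topology Pool.Agent.TO Pool.Agent.TB
open scoped ENNReal NNReal Real InnerProductSpace SchwartzMap LineDeriv Laplacian

variable {T : ℝ} {u₀ : V3} {u v v₁ v₂ : ℝ → V3} {ε β K : ℝ} {Du Dv : ℝ → Fin 3 → V3}

/-- the inequality for the derivative of the relative energy -/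
theorem Low.deriv_le (P : Low T u₀ u v v₁ v₂ ε β)
    (R : Rel T u₀ u₀ u v (fun t => ε / √t) Du Dv) (hK : 8 * (c2 * ε * (ε + β + |K|)) ^ 2 ≤ 1)
    (hC : ∀ t ∈ Ioo 0 T, Carl t (√t / (2 * ε)) K v₂) :
    ∀ᵐ t ∂(volume.restrict (Ioo 0 T)), 2 * re0 (u t) (v t) (Du t) (Dv t) ≤
      ε ^ 2 * (PP' u v t / (2 * (t * √t)) - ‖v t - u t‖ ^ 2 / t) := by
  have hβ := P.hβ
  have hε := P.hε
  filter_upwards [R.hDu, R.hDv, P.hua, ae_restrict_mem measurableSet_Ioo] with t h1 h2 h3 h4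
  have hst : 0 < √t := Real.sqrt_pos.2 h4.1
  have ht : 0 < t := h4.1
  have hd : ∀ k, IsWeakDeriv k (v t - u t) (Dv t k - Du t k) := fun k => (h2 k).sub (h1 k)
  have g1 := P.e_le h4 (hC t h4) hd
  have g2 := re0_le (A := ε / √t) (v := v t) (du := Du t) (dv := Dv t) (by positivity) h3
  set e := ‖v t - u t‖ with he
  set S := ∑ k, ‖Dv t k - Du t k‖ ^ 2 with hS
  have hS0 : 0 ≤ S := Finset.sum_nonneg fun k _ => by positivity
  have hP := PP'_nonneg u v t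
  set θ := c2 * ε * (ε + β + |K|) with hθ
  have e1 : √t / (2 * ε) = 1 / (2 * (ε / √t)) := by field_simp
  rw [e1] at g1
  have g3 := pointwise (norm_nonneg (v t - u t)) (Real.sqrt_nonneg S) (by positivity) g1
  rw [Real.sq_sqrt hS0] at g3
  have e2 : 4 * (ε / √t) ^ 2 * (θ * √(√t * PP' u v t) / √t) ^ 2 =
      (8 * θ ^ 2) * (ε ^ 2 * (PP' u v t / (2 * (t * √t)))) := by
    rw [div_pow, div_pow, mul_pow, Real.sq_sqrt ht.le, Real.sq_sqrt (mul_nonneg hst.le hP)]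
    field_simp
    have h6 : √t ^ 2 = t := Real.sq_sqrt ht.le
    rw [h6]
    ring
  have e3 : (ε / √t) ^ 2 * e ^ 2 = ε ^ 2 * (e ^ 2 / t) := by
    rw [div_pow, Real.sq_sqrt ht.le]
    ring
  rw [e2, e3] at g3
  have g4 : (8 * θ ^ 2) * (ε ^ 2 * (PP' u v t / (2 * (t * √t)))) ≤
      1 * (ε ^ 2 * (PP' u v t / (2 * (t * √t)))) :=
    mul_le_mul_of_nonneg_right hK (by positivity)
  calc 2 * re0 (u t) (v t) (Du t) (Dv t) ≤ 2 * (-S + ε / √t * e * √S) := by linarith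
    _ ≤ -(ε ^ 2 * (e ^ 2 / t)) + ε ^ 2 * (PP' u v t / (2 * (t * √t))) := by linarith
    _ = _ := by ring

/-- the primitive -/
theorem Low.PP'_sub (P : Low T u₀ u v v₁ v₂ ε β) {x z : ℝ} (hx : 0 ≤ x) (hxz : x ≤ z)
    (hz : z < T) : IntervalIntegrable (fun τ => ‖v τ - u τ‖ ^ 2 / √τ) volume x z ∧
    PP' u v z - PP' u v x = ∫ τ in x..z, ‖v τ - u τ‖ ^ 2 / √τ := by
  have i1 : IntervalIntegrable (fun τ => ‖v τ - u τ‖ ^ 2 / √τ) volume 0 x := by
    rw [intervalIntegrable_iff_integrableOn_Ioo_of_le hx]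
    exact P.integrable_wt ⟨hx, hxz.trans_lt hz⟩
  have i2 : IntervalIntegrable (fun τ => ‖v τ - u τ‖ ^ 2 / √τ) volume 0 z := by
    rw [intervalIntegrable_iff_integrableOn_Ioo_of_le (hx.trans hxz)]
    exact P.integrable_wt ⟨hx.trans hxz, hz⟩
  have i3 := i1.symm.trans i2
  refine ⟨i3, ?_⟩
  have h := intervalIntegral.integral_add_adjacent_intervals i1 i3
  rw [intervalIntegral.integral_of_le hx, intervalIntegral.integral_of_le (hx.trans hxz),
    integral_Ioc_eq_integral_Ioo, integral_Ioc_eq_integral_Ioo] at h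
  unfold PP'
  linarith

/-- the integrated inequality -/
theorem Low.RE_le (P : Low T u₀ u v v₁ v₂ ε β)
    (R : Rel T u₀ u₀ u v (fun t => ε / √t) Du Dv) (hK : 8 * (c2 * ε * (ε + β + |K|)) ^ 2 ≤ 1)
    (hC : ∀ t ∈ Ioo 0 T, Carl t (√t / (2 * ε)) K v₂) {s t : ℝ} (hs : 0 < s) (hst : s ≤ t)
    (ht : t < T) : RE u₀ u v Dv t ≤ RE u₀ u v Dv s + ε ^ 2 * (PP' u v s / √s) := by
  have hsub : Ioo s t ⊆ Ioo 0 T := Ioo_subset_Ioo hs.le ht.le
  have ha : IntegrableOn (fun τ => (ε / √τ) ^ 2) (Ioo s t) volume := by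
    rw [← intervalIntegrable_iff_integrableOn_Ioo_of_le hst]
    have := integrable_sq_inv_sqrt (t := t) hs ε
    rwa [max_eq_right hst] at this
  obtain ⟨i1, e1⟩ := R.RE_formula hs.le hst ht ha
  obtain ⟨j1, -⟩ := integral_inv_pow hs hst
  obtain ⟨j2, -⟩ := P.PP'_sub hs.le hst ht
  obtain ⟨i2, e2⟩ := prim_mul (F := fun x => 1 / √x) (G := PP' u v) hst j1 j2
    (fun x hx z _ hxz => (integral_inv_pow (hs.trans_le hx.1) hxz).2)
    (fun x hx z hz hxz => (P.PP'_sub (hs.le.trans hx.1) hxz (hz.2.trans_lt ht)).2)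
  have i2' : IntegrableOn (fun τ => 1 / √τ * (‖v τ - u τ‖ ^ 2 / √τ) +
      PP' u v τ * -(1 / (2 * (τ * √τ)))) (Ioo s t) volume := by
    rwa [intervalIntegrable_iff_integrableOn_Ioo_of_le hst] at i2
  have h3 : 2 * ∫ τ in Ioo s t, re0 (u τ) (v τ) (Du τ) (Dv τ) ≤
      -(ε ^ 2) * ∫ τ in Ioo s t, (1 / √τ * (‖v τ - u τ‖ ^ 2 / √τ) +
      PP' u v τ * -(1 / (2 * (τ * √τ)))) := by
    rw [← integral_const_mul, ← integral_const_mul]
    apply integral_mono_ae (i1.const_mul _) (i2'.const_mul _)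
    filter_upwards [ae_restrict_of_ae_restrict_of_subset hsub (P.deriv_le R hK hC),
      ae_restrict_mem measurableSet_Ioo] with τ h4 h5
    refine h4.trans (le_of_eq ?_)
    have h6 : 0 < τ := hs.trans h5.1
    have h7 : 1 / √τ * (‖v τ - u τ‖ ^ 2 / √τ) = ‖v τ - u τ‖ ^ 2 / τ := by
      rw [div_mul_div_comm, one_mul, Real.mul_self_sqrt h6.le]
    rw [h7]
    ring
  rw [← e1, ← integral_Ioc_eq_integral_Ioo, ← intervalIntegral.integral_of_le hst, ← e2] at h3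
  have h8 : 0 ≤ PP' u v t / √t := div_nonneg (PP'_nonneg u v t) (Real.sqrt_nonneg _)
  have h9 : 1 / √t * PP' u v t = PP' u v t / √t := by ring
  have h10 : 1 / √s * PP' u v s = PP' u v s / √s := by ring
  rw [h9, h10] at h3
  have h11 := mul_nonneg (sq_nonneg ε) h8
  linarith

theorem Low.tendsto_e (P : Low T u₀ u v v₁ v₂ ε β) (hT : 0 < T) :
    Tendsto (fun t => ‖v t - u t‖) (𝓝[>] 0) (𝓝 0) := by
  have hsub : Ioo 0 T ∈ 𝓝[>] (0:ℝ) := Ioo_mem_nhdsGT hT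
  have h1 : Tendsto u (𝓝[>] 0) (𝓝 u₀) := by
    rw [tendsto_iff_norm_sub_tendsto_zero]
    have g1 := ((P.hu.tendsto_zero hT).mono_left (nhdsWithin_le_of_mem
      (mem_of_superset hsub Ioo_subset_Ico_self) : 𝓝[>] (0:ℝ) ≤ 𝓝[Ico 0 T] 0)).sqrt
    simp only [Real.sqrt_zero] at g1
    exact g1.congr fun t => Real.sqrt_sq (norm_nonneg _)
  have h2 : Tendsto v (𝓝[>] 0) (𝓝 u₀) := by
    rw [tendsto_iff_norm_sub_tendsto_zero]
    have g1 := ((P.hv.tendsto_zero hT).mono_left (nhdsWithin_le_of_mem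
      (mem_of_superset hsub Ioo_subset_Ico_self) : 𝓝[>] (0:ℝ) ≤ 𝓝[Ico 0 T] 0)).sqrt
    simp only [Real.sqrt_zero] at g1
    exact g1.congr fun t => Real.sqrt_sq (norm_nonneg _)
  have := (h2.sub h1).norm
  simpa using this

/-- the weighted integral near the initial time -/
theorem Low.tendsto_PP' (P : Low T u₀ u v v₁ v₂ ε β) (hT : 0 < T) :
    Tendsto (fun s => PP' u v s / √s) (𝓝[>] 0) (𝓝 0) := by
  have hsub : Ioo 0 T ∈ 𝓝[>] (0:ℝ) := Ioo_mem_nhdsGT hT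
  rw [Metric.tendsto_nhds]
  intro η hη
  have h1 := (P.tendsto_e hT).eventually (gt_mem_nhds (by positivity : 0 < √(η / 4)))
  rw [eventually_nhdsWithin_iff, Metric.eventually_nhds_iff] at h1
  obtain ⟨δ, hδ, h1⟩ := h1
  filter_upwards [hsub, Ioo_mem_nhdsGT hδ] with s hs hsδ
  have hs0 : 0 < √s := Real.sqrt_pos.2 hs.1
  have h2 : PP' u v s ≤ ∫ τ in Ioo 0 s, (η / 4) / √τ := by
    apply integral_mono_ae (P.integrable_wt ⟨hs.1.le, hs.2⟩) (integrableOn_inv_sqrt hs.1.le _).1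
    filter_upwards [ae_restrict_mem measurableSet_Ioo] with τ hτ
    have h3 : ‖v τ - u τ‖ < √(η / 4) := by
      apply h1 _ hτ.1
      rw [Real.dist_eq, sub_zero, abs_of_pos hτ.1]
      exact hτ.2.trans hsδ.2
    have h4 : ‖v τ - u τ‖ ^ 2 ≤ η / 4 := by
      have := pow_le_pow_left₀ (norm_nonneg _) h3.le 2
      rwa [Real.sq_sqrt (by positivity)] at this
    gcongr
  rw [(integrableOn_inv_sqrt hs.1.le _).2] at h2
  rw [Real.dist_eq, sub_zero, abs_of_nonneg (div_nonneg (PP'_nonneg u v s) hs0.le),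
    div_lt_iff₀ hs0]
  nlinarith

/-- **Uniqueness for Leray solutions with a Carleson bound**, at the scale `√t / (2 ε)`. -/
theorem Low.eq (P : Low T u₀ u v v₁ v₂ ε β) (hK : 8 * (c2 * ε * (ε + β + |K|)) ^ 2 ≤ 1)
    (hC : ∀ t ∈ Ioo 0 T, Carl t (√t / (2 * ε)) K v₂) : ∀ t ∈ Ico 0 T, u t = v t := by
  intro t ht
  rcases eq_or_lt_of_le ht.1 with h0 | h0
  · rw [← h0, P.hu.init, P.hv.init]
  have hT : 0 < T := h0.trans ht.2
  have hsub : Ioo 0 t ∈ 𝓝[>] (0:ℝ) := Ioo_mem_nhdsGT h0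
  obtain ⟨Du, Dv, R⟩ := exists_rel P.hu P.hv (a := fun t => ε / √t)
    (fun t => div_nonneg P.hε.le (Real.sqrt_nonneg _)) P.hua
  have l1 := (R.tendsto_RE hT).add ((P.tendsto_PP' hT).const_mul (ε ^ 2))
  rw [sub_self, norm_zero, mul_zero, add_zero, zero_pow two_ne_zero] at l1
  have h1 : RE u₀ u v Dv t ≤ 0 := by
    apply ge_of_tendsto l1
    filter_upwards [hsub] with s hs
    exact P.RE_le R hK hC hs.1 hs.2.le ht.2
  have h2 := R.le_RE ht
  have h3 : ‖v t - u t‖ ^ 2 = 0 := le_antisymm (h2.trans h1) (sq_nonneg _)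
  have h4 : ‖v t - u t‖ = 0 := by simpa using h3
  exact (sub_eq_zero.1 (norm_eq_zero.1 h4)).symm

end Pool.Agent.TC
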