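import Pool.Agent.TC.Bump
import Pool.Agent.TO.En
import Mathlib.Analysis.Normed.Operator.Extend

/-!
# The operators of the mollified equation
-/

set_option autoImplicit false

namespace Pool.Agent.TC

open MeasureTheory Set Filter Topology Pool.Agent.TO Pool.Agent.TB
open scoped ENNReal NNReal Real InnerProductSpace SchwartzMap LineDeriv Laplacian

/-- the volume of the unit ball -/
noncomputable def om : ℝ := ((volume : Measure E3) (Metric.ball (0:E3) 1)).toReal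

theorem om_pos : 0 < om :=
  ENNReal.toReal_pos (Metric.measure_ball_pos _ _ one_pos).ne' measure_ball_lt_top.ne

theorem vol_closedBall {r : ℝ} (hr : 0 ≤ r) (x : E3) :
    (volume : Measure E3) (Metric.closedBall x r) = ENNReal.ofReal (om * r ^ 3) := by
  rw [Measure.addHaar_closedBall _ _ hr, finrank_euclideanSpace, Fintype.card_fin, om, mul_comm,
    ENNReal.ofReal_mul ENNReal.toReal_nonneg, ENNReal.ofReal_toReal measure_ball_lt_top.ne]

theorem lintegral_toLp (ψ : 𝓢(E3, E3)) :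
    ∫⁻ y, ‖ψ y‖ₑ ^ 2 = ENNReal.ofReal (‖ψ.toLp 2 (volume : Measure E3)‖ ^ 2) := by
  rw [← enorm_sq_ofReal, ← lintegral_sq_V3]
  apply lintegral_congr_ae
  filter_upwards [ψ.coeFn_toLp 2 (volume : Measure E3)] with x hx
  rw [hx]

theorem le_of_sq_ofReal {a b : ℝ} (hb : 0 ≤ b)
    (h : ENNReal.ofReal (a ^ 2) ≤ ENNReal.ofReal (b ^ 2)) : a ≤ b := by
  have h1 := (ENNReal.ofReal_le_ofReal_iff (sq_nonneg b)).1 h
  exact abs_le_of_sq_le_sq' h1 hb |>.2

/-- the supremum of a convolution -/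
theorem norm_mK_le {κ : 𝓢(E3, ℝ)} {A r : ℝ} (h : KBdd κ A r) (hA : 0 ≤ A) (hr : 0 ≤ r)
    (ψ : 𝓢(E3, E3)) (x : E3) :
    ‖mK κ ψ x‖ ≤ A * √(om * r ^ 3) * ‖ψ.toLp 2 (volume : Measure E3)‖ := by
  have hom := om_pos
  apply le_of_sq_ofReal (by positivity)
  rw [ENNReal.ofReal_pow (norm_nonneg _), ofReal_norm]
  refine (sq_mK_le h hA ψ x).trans ?_
  have h1 : ∫⁻ y in Metric.closedBall (0:E3) r, ‖ψ (x - y)‖ₑ ^ 2 ≤
      ENNReal.ofReal (‖ψ.toLp 2 (volume : Measure E3)‖ ^ 2) := by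
    rw [← lintegral_toLp, ← lintegral_sub_left_eq_self (fun y => ‖ψ y‖ₑ ^ 2) x]
    exact setLIntegral_le_lintegral _ _
  calc ENNReal.ofReal (A ^ 2) * (volume (Metric.closedBall (0:E3) r)) *
      ∫⁻ y in Metric.closedBall (0:E3) r, ‖ψ (x - y)‖ₑ ^ 2
      ≤ ENNReal.ofReal (A ^ 2) * ENNReal.ofReal (om * r ^ 3) *
        ENNReal.ofReal (‖ψ.toLp 2 (volume : Measure E3)‖ ^ 2) := by
        rw [vol_closedBall hr]
        gcongr
    _ = ENNReal.ofReal ((A * √(om * r ^ 3) * ‖ψ.toLp 2 (volume : Measure E3)‖) ^ 2) := by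
        rw [← ENNReal.ofReal_mul (by positivity), ← ENNReal.ofReal_mul (by positivity), mul_pow,
          mul_pow, Real.sq_sqrt (by positivity)]

/-- the `L²` norm of a convolution -/
theorem norm_mK_toLp_le {κ : 𝓢(E3, ℝ)} {A r : ℝ} (h : KBdd κ A r) (hA : 0 ≤ A) (hr : 0 ≤ r)
    (ψ : 𝓢(E3, E3)) :
    ‖(mK κ ψ).toLp 2 (volume : Measure E3)‖ ≤
      A * (om * r ^ 3) * ‖ψ.toLp 2 (volume : Measure E3)‖ := by
  have hom := om_pos
  apply le_of_sq_ofReal (by positivity)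
  rw [← lintegral_toLp]
  have hm : Measurable (Function.uncurry fun x y : E3 => ‖ψ (x - y)‖ₑ ^ 2) := by
    have : Continuous (Function.uncurry fun x y : E3 => ψ (x - y)) := by
      have := ψ.continuous
      fun_prop
    exact this.measurable.enorm.pow_const 2
  calc ∫⁻ x, ‖mK κ ψ x‖ₑ ^ 2
      ≤ ∫⁻ x, ENNReal.ofReal (A ^ 2) * (volume (Metric.closedBall (0:E3) r)) *
        ∫⁻ y in Metric.closedBall (0:E3) r, ‖ψ (x - y)‖ₑ ^ 2 :=
        lintegral_mono fun x => sq_mK_le h hA ψ x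
    _ = ENNReal.ofReal (A ^ 2) * (volume (Metric.closedBall (0:E3) r)) *
        ∫⁻ x, ∫⁻ y in Metric.closedBall (0:E3) r, ‖ψ (x - y)‖ₑ ^ 2 :=
        lintegral_const_mul _ (hm.lintegral_prod_right')
    _ = ENNReal.ofReal (A ^ 2) * (volume (Metric.closedBall (0:E3) r)) *
        ∫⁻ _y in Metric.closedBall (0:E3) r,
          ENNReal.ofReal (‖ψ.toLp 2 (volume : Measure E3)‖ ^ 2) := by
        congr 1
        rw [lintegral_lintegral_swap hm.aemeasurable]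
        apply lintegral_congr
        intro y
        rw [← lintegral_toLp]
        exact lintegral_sub_right_eq_self (fun x => ‖ψ x‖ₑ ^ 2) y
    _ = ENNReal.ofReal ((A * (om * r ^ 3) * ‖ψ.toLp 2 (volume : Measure E3)‖) ^ 2) := by
        rw [setLIntegral_const, vol_closedBall hr, ← ENNReal.ofReal_mul (by positivity),
          ← ENNReal.ofReal_mul (by positivity), ← ENNReal.ofReal_mul (by positivity)]
        congr 1
        ring

/-- the operator `AA` is bounded by the supremum of the gradient -/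
theorem norm_AA_le {φ : 𝓢(E3, E3)} {M : ℝ} (hM : 0 ≤ M) (h : ∀ k x, ‖(∂_{ee k} φ) x‖ ≤ M) :
    ‖AA φ‖ ≤ 2 * M := by
  apply ContinuousLinearMap.opNorm_le_bound _ (by positivity)
  intro f
  apply Lp.norm_le_mul_norm_of_ae_le_mul
  filter_upwards [coe_AA φ f] with x hx
  rw [hx, fderiv_field_eq_sum]
  calc ‖∑ j, (f x) j • (∂_{ee j} φ) x‖ ≤ ∑ j, |(f x) j| * M := by
        refine (norm_sum_le _ _).trans (Finset.sum_le_sum fun j _ => ?_)
        rw [norm_smul, Real.norm_eq_abs]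
        exact mul_le_mul_of_nonneg_left (h j x) (abs_nonneg _)
    _ = (∑ j, |(f x) j|) * M := by rw [Finset.sum_mul]
    _ ≤ 2 * ‖f x‖ * M := by
        apply mul_le_mul_of_nonneg_right _ hM
        have h1 := sum_sq_eq (f x)
        rw [Fin.sum_univ_three] at h1 ⊢
        have h2 := norm_nonneg (f x)
        apply abs_le_of_sq_le_sq' _ (by positivity) |>.2
        rw [mul_pow, ← h1]
        nlinarith [sq_nonneg (|(f x) 0| - |(f x) 1|), sq_nonneg (|(f x) 1| - |(f x) 2|),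
          sq_nonneg (|(f x) 0| - |(f x) 2|), sq_abs ((f x) 0), sq_abs ((f x) 1),
          sq_abs ((f x) 2)]
    _ = 2 * M * ‖f x‖ := by ring

theorem AA_add (φ φ' : 𝓢(E3, E3)) : AA (φ + φ') = AA φ + AA φ' := by
  ext1 f
  apply Lp.ext
  filter_upwards [coe_AA (φ + φ') f, coe_AA φ f, coe_AA φ' f,
    Lp.coeFn_add (AA φ f) (AA φ' f)] with x h1 h2 h3 h4
  change _ = ((AA φ f + AA φ' f : V3) : E3 → E3) x
  rw [h1, h4, Pi.add_apply, h2, h3]
  have h5 : fderiv ℝ (φ + φ' : 𝓢(E3, E3)) x = fderiv ℝ φ x + fderiv ℝ φ' x := by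
    have := fderiv_add (𝕜 := ℝ) (φ.differentiableAt (x := x)) (φ'.differentiableAt (x := x))
    exact this
  rw [h5, add_apply]

theorem AA_smul (c : ℝ) (φ : 𝓢(E3, E3)) : AA (c • φ) = c • AA φ := by
  ext1 f
  apply Lp.ext
  filter_upwards [coe_AA (c • φ) f, coe_AA φ f, Lp.coeFn_smul c (AA φ f)] with x h1 h2 h4
  change _ = ((c • AA φ f : V3) : E3 → E3) x
  rw [h1, h4, Pi.smul_apply, h2]
  have h5 : fderiv ℝ (c • φ : 𝓢(E3, E3)) x = c • fderiv ℝ φ x := by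
    have := fderiv_const_smul (𝕜 := ℝ) (φ.differentiableAt (x := x)) c
    exact this
  rw [h5, smul_apply]

/-- the embedding into `L²` -/
noncomputable def emb : 𝓢(E3, E3) →ₗ[ℝ] V3 :=
  (SchwartzMap.toLpCLM ℝ E3 2 (volume : Measure E3)).toLinearMap

theorem emb_apply (ψ : 𝓢(E3, E3)) : emb ψ = ψ.toLp 2 (volume : Measure E3) := rfl

theorem dense_emb : DenseRange emb :=
  SchwartzMap.denseRange_toLpCLM (E := E3) (F := E3) (p := 2) (μ := volume) (by norm_num)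

variable {r : ℝ}

theorem lineDeriv_mol_bdd (hr : 0 < r) : ∃ M : ℝ, 0 ≤ M ∧ ∀ (ψ : 𝓢(E3, E3)) (k : Fin 3) (x : E3),
    ‖(∂_{ee k} (mol hr ψ)) x‖ ≤ M * ‖emb ψ‖ := by
  obtain ⟨C, hC, h⟩ := exists_const
  have hom := om_pos
  refine ⟨C / r ^ 4 * √(om * r ^ 3), by positivity, fun ψ k x => ?_⟩
  rw [mol, lineDeriv_mK_left]
  exact norm_mK_le (h r hr k).1 (by positivity) hr.le ψ x

/-- `ψ ↦ AA (mol ψ)` -/
noncomputable def GG0 (hr : 0 < r) : 𝓢(E3, E3) →ₗ[ℝ] (V3 →L[ℝ] V3) where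
  toFun ψ := AA (mol hr ψ)
  map_add' ψ ψ' := by rw [mol, mK_add, AA_add]; rfl
  map_smul' c ψ := by rw [mol, mK_smul, AA_smul]; rfl

theorem GG0_bdd (hr : 0 < r) : ∃ C, ∀ ψ, ‖GG0 hr ψ‖ ≤ C * ‖emb ψ‖ := by
  obtain ⟨M, hM, h⟩ := lineDeriv_mol_bdd hr
  refine ⟨2 * M, fun ψ => ?_⟩
  rw [mul_assoc]
  exact norm_AA_le (by positivity) fun k x => h ψ k x

/-- the gradient of the mollified field, acting as a multiplication operator -/
noncomputable def GG (hr : 0 < r) : V3 →L[ℝ] (V3 →L[ℝ] V3) := (GG0 hr).extendOfNorm emb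

theorem GG_emb (hr : 0 < r) (ψ : 𝓢(E3, E3)) : GG hr (emb ψ) = AA (mol hr ψ) :=
  LinearMap.extendOfNorm_eq dense_emb (GG0_bdd hr) ψ

/-- `ψ ↦ Δ (mol ψ)` -/
noncomputable def LL0 (hr : 0 < r) : 𝓢(E3, E3) →ₗ[ℝ] V3 where
  toFun ψ := (Δ (mol hr ψ)).toLp 2 (volume : Measure E3)
  map_add' ψ ψ' := by
    rw [mol, mK_add, laplacian_real, laplacian_real, laplacian_real]
    simp only [LineDeriv.lineDerivOp_add, Finset.sum_add_distrib]
    rfl
  map_smul' c ψ := by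
    rw [mol, mK_smul, laplacian_real, laplacian_real]
    simp only [LineDeriv.lineDerivOp_smul, ← Finset.smul_sum]
    rfl

theorem LL0_bdd (hr : 0 < r) : ∃ C, ∀ ψ, ‖LL0 hr ψ‖ ≤ C * ‖emb ψ‖ := by
  obtain ⟨C, hC, h⟩ := exists_const
  have hom := om_pos
  refine ⟨3 * (C / r ^ 5 * (om * r ^ 3)), fun ψ => ?_⟩
  change ‖(Δ (mol hr ψ)).toLp 2 (volume : Measure E3)‖ ≤ _
  rw [mol, laplacian_mK]
  have e1 : (∑ k, mK (∂_{ee k} (∂_{ee k} (eS hr))) ψ).toLp 2 (volume : Measure E3) =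
      ∑ k, (mK (∂_{ee k} (∂_{ee k} (eS hr))) ψ).toLp 2 (volume : Measure E3) :=
    map_sum (SchwartzMap.toLpCLM ℝ E3 2 (volume : Measure E3)) _ _
  rw [e1]
  refine (norm_sum_le _ _).trans ?_
  calc ∑ k, ‖(mK (∂_{ee k} (∂_{ee k} (eS hr))) ψ).toLp 2 (volume : Measure E3)‖
      ≤ ∑ _k : Fin 3, C / r ^ 5 * (om * r ^ 3) * ‖emb ψ‖ :=
        Finset.sum_le_sum fun k _ => norm_mK_toLp_le (h r hr k).2 (by positivity) hr.le ψ
    _ = _ := by
        simp
        ring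

/-- the Laplacian of the mollified field -/
noncomputable def LL (hr : 0 < r) : V3 →L[ℝ] V3 := (LL0 hr).extendOfNorm emb

theorem LL_emb (hr : 0 < r) (ψ : 𝓢(E3, E3)) :
    LL hr (emb ψ) = (Δ (mol hr ψ)).toLp 2 (volume : Measure E3) :=
  LinearMap.extendOfNorm_eq dense_emb (LL0_bdd hr) ψ

theorem SS_emb (hr : 0 < r) (ψ : 𝓢(E3, E3)) : SS hr (emb ψ) = emb (mol hr ψ) := SS_toLp hr ψ

end Pool.Agent.TC
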