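import Pool.Agent.TC.Op

/-!
# The equation tested with mollified square integrable fields
-/

set_option autoImplicit false

namespace Pool.Agent.TC

open MeasureTheory Set Filter Topology Pool.Agent.TO Pool.Agent.TB
open scoped ENNReal NNReal Real InnerProductSpace SchwartzMap LineDeriv Laplacian

/-- limits of divergence-free Schwartz fields -/
def Adm (h : V3) : Prop := ∃ ψ : ℕ → 𝓢(E3, E3), (∀ n, TestDivFree (ψ n)) ∧
  Tendsto (fun n => emb (ψ n)) atTop (𝓝 h)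

theorem adm_of_divFree {f : V3} (hf : IsDivFree f) : Adm f := by
  have key : ∀ ε > 0, ∃ ψ : 𝓢(E3, E3), TestDivFree ψ ∧ ‖emb ψ - f‖ < ε := by
    intro ε hε
    have h1 : ∀ᶠ n : ℕ in atTop, ‖PP n (cplx f) - cplx f‖ < ε / 2 :=
      (tendsto_iff_norm_sub_tendsto_zero.1 (tendsto_PP (cplx f))).eventually
        (gt_mem_nhds (by positivity))
    obtain ⟨n, h3⟩ := h1.exists
    obtain ⟨φ, h4, h5, -⟩ := exists_approx_div hf.divF n (ε := ε / 2) (by positivity)
    refine ⟨reS φ, test_reS h4, (reS_sub_le φ f).trans_lt ?_⟩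
    calc ‖φ.toLp 2 (volume : Measure E3) - cplx f‖
        ≤ ‖φ.toLp 2 (volume : Measure E3) - PP n (cplx f)‖ + ‖PP n (cplx f) - cplx f‖ :=
          norm_sub_le_norm_sub_add_norm_sub _ _ _
      _ < ε / 2 + ε / 2 := add_lt_add h5 h3
      _ = ε := by ring
  choose ψ h1 h2 using fun n : ℕ => key (1 / ((n:ℝ) + 1)) (by positivity)
  refine ⟨ψ, h1, ?_⟩
  rw [tendsto_iff_norm_sub_tendsto_zero]
  exact squeeze_zero (fun n => norm_nonneg _) (fun n => (h2 n).le)
    tendsto_one_div_add_atTop_nhds_zero_nat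

variable {r : ℝ}

theorem Adm.mol {f : V3} (h : Adm f) (hr : 0 < r) : Adm (SS hr f) := by
  obtain ⟨ψ, h1, h2⟩ := h
  refine ⟨fun n => TC.mol hr (ψ n), fun n => test_mK _ (h1 n), ?_⟩
  have h3 := ((SS hr).continuous.tendsto f).comp h2
  refine h3.congr fun n => ?_
  exact SS_emb hr (ψ n)

theorem Adm.add {f g : V3} (hf : Adm f) (hg : Adm g) (a b : ℝ) : Adm (a • f + b • g) := by
  obtain ⟨ψ, h1, h2⟩ := hf
  obtain ⟨φ, h3, h4⟩ := hg
  refine ⟨fun n => a • ψ n + b • φ n, fun n x => ?_, ?_⟩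
  · have e1 := h1 n x
    have e2 := h3 n x
    simp only [LineDeriv.lineDerivOp_add, LineDeriv.lineDerivOp_smul]
    have e3 : ∀ k : Fin 3, (a • ∂_{ee k} (ψ n) + b • ∂_{ee k} (φ n)) x k =
        a * (∂_{ee k} (ψ n)) x k + b * (∂_{ee k} (φ n)) x k := fun k => rfl
    simp only [e3, Finset.sum_add_distrib, ← Finset.mul_sum, e1, e2, mul_zero, add_zero]
  · have := (h2.const_smul a).add (h4.const_smul b)
    refine this.congr fun n => ?_
    rw [map_add, map_smul, map_smul]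

/-- the integrand of the mollified equation -/
noncomputable def rh (hr : 0 < r) (h f : V3) : ℝ := ⟪LL hr h, f⟫_ℝ + ⟪GG hr h f, f⟫_ℝ

theorem rh_emb (hr : 0 < r) (ψ : 𝓢(E3, E3)) (f : V3) : rh hr (emb ψ) f = rhs (mol hr ψ) f := by
  rw [rh, rhs, LL_emb, GG_emb]

/-- the constant in the bound for `rh` -/
noncomputable def cr (hr : 0 < r) (C : ℝ) : ℝ := ‖LL hr‖ * C + ‖GG hr‖ * C * C

theorem cr_nonneg (hr : 0 < r) {C : ℝ} (hC : 0 ≤ C) : 0 ≤ cr hr C := by
  unfold cr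
  positivity

theorem rh_sub (hr : 0 < r) (h h' f : V3) : rh hr h f - rh hr h' f = rh hr (h - h') f := by
  unfold rh
  simp only [map_sub, inner_sub_left, sub_apply]
  ring

theorem abs_rh_le (hr : 0 < r) (h : V3) {f : V3} {C : ℝ} (hf : ‖f‖ ≤ C) :
    |rh hr h f| ≤ cr hr C * ‖h‖ := by
  have hC : 0 ≤ C := (norm_nonneg _).trans hf
  unfold rh cr
  refine (abs_add_le _ _).trans ?_
  rw [add_mul]
  apply add_le_add
  · calc |⟪LL hr h, f⟫_ℝ| ≤ ‖LL hr h‖ * ‖f‖ := abs_real_inner_le_norm _ _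
      _ ≤ (‖LL hr‖ * ‖h‖) * C := by
          gcongr
          exact (LL hr).le_opNorm h
      _ = _ := by ring
  · calc |⟪GG hr h f, f⟫_ℝ| ≤ ‖GG hr h f‖ * ‖f‖ := abs_real_inner_le_norm _ _
      _ ≤ (‖GG hr h‖ * ‖f‖) * ‖f‖ := by
          gcongr
          exact (GG hr h).le_opNorm f
      _ ≤ ((‖GG hr‖ * ‖h‖) * C) * C := by
          gcongr
          exact (GG hr).le_opNorm h
      _ = _ := by ring

theorem continuous_rh (hr : 0 < r) (h : V3) : Continuous (rh hr h) := by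
  unfold rh
  fun_prop

variable {T : ℝ} {u₀ : V3} {u : ℝ → V3}

theorem integrable_rh (hu : IsLeray T u₀ u) (hr : 0 < r) (h : V3) {s t : ℝ} (hs : 0 ≤ s)
    (hst : s ≤ t) (ht : t < T) : IntervalIntegrable (fun τ => rh hr h (u τ)) volume s t := by
  rw [intervalIntegrable_iff_integrableOn_Ioo_of_le hst]
  refine Integrable.of_bound (hu.meas_comp (continuous_rh hr h) hs ht.le) (cr hr ‖u₀‖ * ‖h‖) ?_
  rw [ae_restrict_iff' measurableSet_Ioo]
  exact Eventually.of_forall fun τ hτ =>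
    abs_rh_le hr h (hu.norm_le ⟨hs.trans hτ.1.le, hτ.2.trans ht⟩)

/-- the equation tested with mollified fields -/
theorem tested (hu : IsLeray T u₀ u) (hr : 0 < r) {h : V3} (hh : Adm h) {s t : ℝ} (hs : 0 ≤ s)
    (hst : s ≤ t) (ht : t < T) :
    ⟪SS hr h, u t⟫_ℝ - ⟪SS hr h, u s⟫_ℝ = ∫ τ in s..t, rh hr h (u τ) := by
  obtain ⟨ψ, h1, h2⟩ := hh
  have e1 : ∀ n, ⟪SS hr (emb (ψ n)), u t⟫_ℝ - ⟪SS hr (emb (ψ n)), u s⟫_ℝ =
      ∫ τ in s..t, rh hr (emb (ψ n)) (u τ) := by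
    intro n
    simp only [rh_emb]
    rw [SS_emb]
    exact hu.eqn'' hs hst ht (test_mK _ (h1 n))
  have l1 : Tendsto (fun n => ⟪SS hr (emb (ψ n)), u t⟫_ℝ - ⟪SS hr (emb (ψ n)), u s⟫_ℝ) atTop
      (𝓝 (⟪SS hr h, u t⟫_ℝ - ⟪SS hr h, u s⟫_ℝ)) := by
    have h3 := ((SS hr).continuous.tendsto h).comp h2
    exact (h3.inner tendsto_const_nhds).sub (h3.inner tendsto_const_nhds)
  have l2 : Tendsto (fun n => ∫ τ in s..t, rh hr (emb (ψ n)) (u τ)) atTop
      (𝓝 (∫ τ in s..t, rh hr h (u τ))) := by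
    rw [tendsto_iff_norm_sub_tendsto_zero]
    have h3 := (tendsto_iff_norm_sub_tendsto_zero.1 h2).const_mul (cr hr ‖u₀‖ * |t - s|)
    rw [mul_zero] at h3
    refine squeeze_zero (fun n => norm_nonneg _) (fun n => ?_) h3
    rw [← intervalIntegral.integral_sub (integrable_rh hu hr _ hs hst ht)
      (integrable_rh hu hr _ hs hst ht)]
    simp only [rh_sub]
    have h4 := intervalIntegral.norm_integral_le_of_norm_le_const_ae (a := s) (b := t)
      (f := fun τ => rh hr (emb (ψ n) - h) (u τ)) (C := cr hr ‖u₀‖ * ‖emb (ψ n) - h‖) (by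
        have hae : ∀ᵐ x : ℝ, x ≠ t := by
          simp [ae_iff, measure_singleton]
        filter_upwards [hae] with x hx hx'
        rw [uIoc_of_le hst] at hx'
        exact abs_rh_le hr _ (hu.norm_le ⟨hs.trans hx'.1.le, hx'.2.trans_lt ht⟩))
    calc _ ≤ _ := h4
      _ = _ := by ring
  simp only [e1] at l1
  exact tendsto_nhds_unique l1 l2

end Pool.Agent.TC
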